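import Pool.Agent.H185.ZM.Iso

/-!
# Abelian groups of exponent four acting linearly, and smoothly on closed manifolds
-/

set_option autoImplicit false

namespace Pool.Agent.H185.ZM

open Module

/-- the map induced on the quotient by the kernel is injective -/
theorem lift_injective {A N : Type} [CommGroup A] [Monoid N] (φ : A →* N) :
    Function.Injective (QuotientGroup.lift φ.ker φ (fun _ h => h)) := by
  intro x y
  refine QuotientGroup.induction_on x fun a => QuotientGroup.induction_on y fun b h => ?_
  rw [QuotientGroup.lift_mk, QuotientGroup.lift_mk] at h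
  rw [QuotientGroup.eq, MonoidHom.mem_ker, map_mul, ← h, ← map_mul, inv_mul_cancel, map_one]

/-- **A finite abelian group of exponent dividing `4` acting faithfully on a real vector space of
dimension `n` has at most `2 ^ n` elements.** -/
theorem card_le_two_pow (n : ℕ) : ∀ (V : Type) [AddCommGroup V] [Module ℝ V]
    [FiniteDimensional ℝ V] (A : Type) [CommGroup A] [Finite A] (ρ : A →* (V →ₗ[ℝ] V)),
    finrank ℝ V = n → (∀ a : A, a ^ 4 = 1) → Function.Injective ρ → Nat.card A ≤ 2 ^ n := by
  classical
  induction n using Nat.strong_induction_on with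
  | _ n ih =>
  intro V _ _ _ A _ _ ρ hn h4 hinj
  by_cases hA : ∃ a, ρ a * ρ a = 1 ∧ ρ a ≠ 1 ∧ ρ a ≠ -1
  · -- split the space
    obtain ⟨a, ha, ha1, ha2⟩ := hA
    have hsv : ∀ v, ρ a (ρ a v) = v := fun v => LinearMap.congr_fun ha v
    have hcomm : ∀ (b : A) (v : V), ρ b (ρ a v) = ρ a (ρ b v) := by
      intro b v
      have h1 : ρ b * ρ a = ρ a * ρ b := by rw [← map_mul, ← map_mul, mul_comm]
      exact LinearMap.congr_fun h1 v
    let Vp : Submodule ℝ V := LinearMap.ker (ρ a - 1)
    let Vm : Submodule ℝ V := LinearMap.ker (ρ a + 1)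
    have hVp : ∀ v, v ∈ Vp ↔ ρ a v = v := by
      intro v
      rw [LinearMap.mem_ker, LinearMap.sub_apply, sub_eq_zero]
      rfl
    have hVm : ∀ v, v ∈ Vm ↔ ρ a v = -v := by
      intro v
      rw [LinearMap.mem_ker, LinearMap.add_apply, ← eq_neg_iff_add_eq_zero]
      rfl
    have hdec : ∀ v : V, ∃ u ∈ Vp, ∃ w ∈ Vm, v = u + w := by
      intro v
      refine ⟨(1 / 2 : ℝ) • (v + ρ a v), ?_, (1 / 2 : ℝ) • (v - ρ a v), ?_, ?_⟩
      · rw [hVp, map_smul, map_add, hsv, add_comm]
      · rw [hVm, map_smul, map_sub, hsv, ← smul_neg, neg_sub]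
      · rw [← smul_add]
        have : v + ρ a v + (v - ρ a v) = (2 : ℝ) • v := by rw [two_smul]; abel
        rw [this, smul_smul]
        norm_num
    have hcompl : IsCompl Vp Vm := by
      constructor
      · rw [Submodule.disjoint_def]
        intro v h1 h2
        rw [hVp] at h1
        rw [hVm, h1] at h2
        have : (2 : ℝ) • v = 0 := by rw [two_smul]; nth_rewrite 1 [h2]; simp
        exact (smul_eq_zero.1 this).resolve_left (by norm_num)
      · rw [codisjoint_iff, eq_top_iff]
        intro v _
        obtain ⟨u, hu, w, hw, rfl⟩ := hdec v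
        exact Submodule.add_mem_sup hu hw
    have hrank := Submodule.finrank_add_eq_of_isCompl hcompl
    have hp0 : 0 < finrank ℝ Vp := by
      rw [Nat.pos_iff_ne_zero]
      intro h0
      have h1 : Vp = ⊥ := Submodule.finrank_eq_zero.1 h0
      apply ha2
      ext v
      obtain ⟨u, hu, w, hw, rfl⟩ := hdec v
      rw [h1, Submodule.mem_bot] at hu
      rw [hu, zero_add]
      exact (hVm w).1 hw
    have hm0 : 0 < finrank ℝ Vm := by
      rw [Nat.pos_iff_ne_zero]
      intro h0
      have h1 : Vm = ⊥ := Submodule.finrank_eq_zero.1 h0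
      apply ha1
      ext v
      obtain ⟨u, hu, w, hw, rfl⟩ := hdec v
      rw [h1, Submodule.mem_bot] at hw
      rw [hw, add_zero]
      exact (hVp u).1 hu
    let ρp : A →* (Vp →ₗ[ℝ] Vp) :=
      { toFun := fun b => (ρ b).restrict (fun v hv => by
          rw [hVp] at hv ⊢
          rw [← hcomm, hv])
        map_one' := by
          ext v
          show ρ 1 (v : V) = v
          rw [map_one]; rfl
        map_mul' := fun b c => by
          ext v
          show ρ (b * c) (v : V) = ρ b (ρ c v)
          rw [map_mul]; rfl }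
    let ρm : A →* (Vm →ₗ[ℝ] Vm) :=
      { toFun := fun b => (ρ b).restrict (fun v hv => by
          rw [hVm] at hv ⊢
          rw [← hcomm, hv, map_neg])
        map_one' := by
          ext v
          show ρ 1 (v : V) = v
          rw [map_one]; rfl
        map_mul' := fun b c => by
          ext v
          show ρ (b * c) (v : V) = ρ b (ρ c v)
          rw [map_mul]; rfl }
    have hq : ∀ (K : Subgroup A) (x : A ⧸ K), x ^ 4 = 1 := by
      intro K x
      refine QuotientGroup.induction_on x fun b => ?_
      rw [← QuotientGroup.mk_pow, h4]; rfl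
    have c1 : Nat.card (A ⧸ ρp.ker) ≤ 2 ^ finrank ℝ Vp :=
      ih _ (by omega) Vp (A ⧸ ρp.ker) _ rfl (hq _) (lift_injective ρp)
    have c2 : Nat.card (A ⧸ ρm.ker) ≤ 2 ^ finrank ℝ Vm :=
      ih _ (by omega) Vm (A ⧸ ρm.ker) _ rfl (hq _) (lift_injective ρm)
    have c3 : Nat.card A ≤ Nat.card ((A ⧸ ρp.ker) × (A ⧸ ρm.ker)) := by
      apply Nat.card_le_card_of_injective
        (fun b : A => ((b : A ⧸ ρp.ker), (b : A ⧸ ρm.ker)))
      intro b c hbc
      rw [Prod.mk.injEq, QuotientGroup.eq, QuotientGroup.eq, MonoidHom.mem_ker,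
        MonoidHom.mem_ker] at hbc
      have h1 : ρ (b⁻¹ * c) = 1 := by
        ext v
        obtain ⟨u, hu, w, hw, rfl⟩ := hdec v
        have h2 : ρ (b⁻¹ * c) u = u := by
          have := LinearMap.congr_fun hbc.1 ⟨u, hu⟩
          exact congrArg Subtype.val this
        have h3 : ρ (b⁻¹ * c) w = w := by
          have := LinearMap.congr_fun hbc.2 ⟨w, hw⟩
          exact congrArg Subtype.val this
        rw [map_add, h2, h3]
        rfl
      have h2 : b⁻¹ * c = 1 := hinj (by rw [h1, map_one])
      exact (inv_mul_eq_one.1 h2)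
    rw [Nat.card_prod] at c3
    calc Nat.card A ≤ _ := c3
      _ ≤ 2 ^ finrank ℝ Vp * 2 ^ finrank ℝ Vm := Nat.mul_le_mul c1 c2
      _ = 2 ^ n := by rw [← pow_add, hrank, hn]
  · push Not at hA
    have hpm : ∀ b, ρ b * ρ b = 1 → ρ b = 1 ∨ ρ b = -1 := by
      intro b hb
      by_cases h1 : ρ b = 1
      · exact Or.inl h1
      · exact Or.inr (hA b hb h1)
    have hsq : ∀ b, ρ b * ρ b = 1 ∨ ρ b * ρ b = -1 := by
      intro b
      have h1 := hpm (b * b) (by
        rw [← map_mul, show b * b * (b * b) = b ^ 4 by rw [pow_succ, pow_succ, pow_succ, pow_one]; simp only [mul_assoc], h4, map_one])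
      rwa [map_mul] at h1
    have hcard : ∀ s : Set (V →ₗ[ℝ] V), s.Finite → Set.range ρ ⊆ s → Nat.card A ≤ s.ncard := by
      intro s hs h
      rw [← Nat.card_range_of_injective hinj]
      exact Set.ncard_le_ncard h hs
    rcases Nat.eq_zero_or_pos n with h0 | hpos
    · subst h0
      have : Subsingleton V := Module.finrank_zero_iff.1 hn
      have h1 : Nat.card A ≤ ({1} : Set (V →ₗ[ℝ] V)).ncard := hcard _ (Set.finite_singleton _) (by
        rintro _ ⟨b, rfl⟩
        exact Subsingleton.elim _ _)
      rwa [Set.ncard_singleton] at h1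
    by_cases hB : ∃ a, ρ a * ρ a = -1
    · obtain ⟨a, ha⟩ := hB
      -- the dimension is at least two
      have hn2 : 2 ≤ n := by
        by_contra hlt
        have hn1 : n = 1 := by omega
        have h1 : LinearMap.det (ρ a) * LinearMap.det (ρ a) = -1 := by
          rw [← map_mul, ha]
          have h2 : (-1 : V →ₗ[ℝ] V) = (-1 : ℝ) • (1 : V →ₗ[ℝ] V) := by ext v; simp
          rw [h2, LinearMap.det_smul, hn, hn1]
          simp
        nlinarith [mul_self_nonneg (LinearMap.det (ρ a))]
      have h1 : Nat.card A ≤ ({1, -1, ρ a, -ρ a} : Set (V →ₗ[ℝ] V)).ncard := by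
        apply hcard _ (by simp)
        rintro _ ⟨b, rfl⟩
        rcases hsq b with hb | hb
        · rcases hpm b hb with h | h
          · rw [h]; simp
          · rw [h]; simp
        · have hcomm : ρ b * ρ a = ρ a * ρ b := by rw [← map_mul, ← map_mul, mul_comm]
          have h2 : ρ (a * b) * ρ (a * b) = 1 := by
            rw [map_mul, mul_assoc, ← mul_assoc (ρ b), hcomm, mul_assoc (ρ a), hb,
              ← mul_assoc, ha]
            simp
          have h3 : ρ b = -(ρ a * ρ (a * b)) := by
            rw [map_mul, ← mul_assoc, ha]; simp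
          rcases hpm _ h2 with h | h
          · rw [h3, h]; simp
          · rw [h3, h]; simp
      have h2 : ({1, -1, ρ a, -ρ a} : Set (V →ₗ[ℝ] V)).ncard ≤ 4 := by
        refine (Set.ncard_insert_le _ _).trans ?_
        refine Nat.succ_le_succ ((Set.ncard_insert_le _ _).trans ?_)
        refine Nat.succ_le_succ ((Set.ncard_insert_le _ _).trans ?_)
        rw [Set.ncard_singleton]
      calc Nat.card A ≤ 4 := h1.trans h2
        _ = 2 ^ 2 := by norm_num
        _ ≤ 2 ^ n := Nat.pow_le_pow_right (by norm_num) hn2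
    · push Not at hB
      have h1 : Nat.card A ≤ ({1, -1} : Set (V →ₗ[ℝ] V)).ncard := by
        apply hcard _ (by simp)
        rintro _ ⟨b, rfl⟩
        rcases hpm b ((hsq b).resolve_right (hB b)) with h | h
        · rw [h]; simp
        · rw [h]; simp
      have h2 : ({1, -1} : Set (V →ₗ[ℝ] V)).ncard ≤ 2 := by
        refine (Set.ncard_insert_le _ _).trans ?_
        rw [Set.ncard_singleton]
      calc Nat.card A ≤ 2 := h1.trans h2
        _ = 2 ^ 1 := by norm_num
        _ ≤ 2 ^ n := Nat.pow_le_pow_right (by norm_num) hpos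

theorem card_dvd_two_pow {V : Type} [AddCommGroup V] [Module ℝ V] [FiniteDimensional ℝ V]
    {A : Type} [CommGroup A] [Finite A] (ρ : A →* (V →ₗ[ℝ] V)) (h4 : ∀ a : A, a ^ 4 = 1)
    (hinj : Function.Injective ρ) : Nat.card A ∣ 2 ^ finrank ℝ V := by
  have h1 := card_le_two_pow _ V A ρ rfl h4 hinj
  have hp : Fact (Nat.Prime 2) := ⟨Nat.prime_two⟩
  have h2 : IsPGroup 2 A := fun a => ⟨2, h4 a⟩
  obtain ⟨k, hk⟩ := IsPGroup.iff_card.1 h2
  rw [hk] at h1 ⊢
  exact Nat.pow_dvd_pow 2 ((Nat.pow_le_pow_iff_right (by norm_num)).1 h1)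

section manifold

open scoped Manifold ContDiff

variable {E : Type} [NormedAddCommGroup E] [NormedSpace ℝ E] [FiniteDimensional ℝ E]
  {M : Type} [TopologicalSpace M] [ChartedSpace E M] [IsManifold 𝓘(ℝ, E) ∞ M]

/-- **Main counting theorem.** An abelian group of exponent dividing `4` acting faithfully and
smoothly on a closed connected manifold of dimension `m` has an order dividing `2 ^ m * χ(M)`. -/
theorem abelian_dvd [CompactSpace M] [T2Space M] [ConnectedSpace M] {P : Type} [CommGroup P]
    [Finite P] (h4 : ∀ p : P, p ^ 4 = 1) {a : P → M → M} (ha : SmoothAction E a)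
    (hf : ∀ p, (∀ y, a p y = y) → p = 1) :
    (Nat.card P : ℤ) ∣ 2 ^ finrank ℝ E * Pool.Agent.Helper381.eulerChar M := by
  have h1 := smooth_dvd_euler ha (2 ^ finrank ℝ E) (fun x Q hQ => by
    obtain ⟨V, _, _, _, ρ, hV, hρ⟩ := exists_isotropy ha hf x Q hQ
    rw [← hV]
    exact card_dvd_two_pow ρ (fun q => Subtype.ext (h4 q)) hρ)
  exact_mod_cast h1

/-- The kernel of an action. -/
def actKer {P : Type} [Group P] {a : P → M → M} (ha : SmoothAction E a) : Subgroup P where
  carrier := {p | ∀ y, a p y = y}
  one_mem' := ha.one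
  mul_mem' := fun {p q} hp hq y => by rw [ha.mul, hq, hp]
  inv_mem' := fun {p} hp y => inv_fix ha (hp y)

lemma mem_actKer {P : Type} [Group P] {a : P → M → M} (ha : SmoothAction E a) (p : P) :
    p ∈ actKer ha ↔ ∀ y, a p y = y := Iff.rfl

/-- The version with a kernel. -/
theorem abelian_dvd_ker [CompactSpace M] [T2Space M] [ConnectedSpace M] {P : Type} [CommGroup P]
    [Finite P] (h4 : ∀ p : P, p ^ 4 = 1) {a : P → M → M} (ha : SmoothAction E a) :
    (Nat.card P : ℤ) ∣
      Nat.card (actKer ha) * (2 ^ finrank ℝ E * Pool.Agent.Helper381.eulerChar M) := by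
  let b : P ⧸ actKer ha → M → M := fun p y => Quotient.liftOn' p (fun q => a q y) (fun q r h => by
    rw [QuotientGroup.leftRel_apply] at h
    have h1 := h y
    show a q y = a r y
    conv_lhs => rw [← h1]
    rw [← ha.mul, mul_inv_cancel_left])
  have hb : ∀ (p : P) (y : M), b (p : P ⧸ actKer ha) y = a p y := fun p y => rfl
  have hb1 : SmoothAction E b :=
    { one := fun y => ha.one y
      mul := fun p q y => by
        refine QuotientGroup.induction_on p fun p => QuotientGroup.induction_on q fun q => ?_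
        exact ha.mul p q y
      smooth := fun p => by
        refine QuotientGroup.induction_on p fun p => ?_
        exact ha.smooth p }
  have h1 := abelian_dvd (P := P ⧸ actKer ha) (fun p => by
      refine QuotientGroup.induction_on p fun p => ?_
      rw [← QuotientGroup.mk_pow, h4]; rfl) hb1 (fun p hp => by
      induction p using QuotientGroup.induction_on with
      | _ p =>
        rw [QuotientGroup.eq_one_iff]
        exact hp)
  rw [← Subgroup.card_mul_index (actKer ha)]
  push_cast
  exact mul_dvd_mul_left _ h1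

end manifold

end Pool.Agent.H185.ZM
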