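import Pool.Agent.H185.ZM.Ab

/-!
# Abelian groups of odd prime exponent acting linearly, and smoothly on closed manifolds
-/

set_option autoImplicit false

namespace Pool.Agent.H185.ZM

open Module

section sums

variable {V : Type} [AddCommGroup V] [Module ℝ V] {A : Type} [CommGroup A]
  (ρ : A →* (V →ₗ[ℝ] V)) {p : ℕ}

lemma rho_mul_apply (a b : A) (v : V) : ρ (a * b) v = ρ a (ρ b v) := by
  rw [map_mul]; rfl

lemma sum_fixed {a : A} (ha : a ^ p = 1) (v : V) :
    ρ a (∑ i ∈ Finset.range p, ρ (a ^ i) v) = ∑ i ∈ Finset.range p, ρ (a ^ i) v := by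
  rw [map_sum]
  have h1 : ∀ i, ρ a (ρ (a ^ i) v) = ρ (a ^ (i + 1)) v := fun i => by
    rw [← rho_mul_apply, pow_succ']
  rw [Finset.sum_congr rfl (fun i _ => h1 i)]
  have h2 := Finset.sum_range_succ' (fun i => ρ (a ^ i) v) p
  rw [Finset.sum_range_succ, ha, pow_zero] at h2
  exact (add_right_cancel h2).symm

lemma sum_of_fixed {a : A} {v : V} (hv : ρ a v = v) :
    ∑ i ∈ Finset.range p, ρ (a ^ i) v = (p : ℝ) • v := by
  have h1 : ∀ i : ℕ, ρ (a ^ i) v = v := by
    intro i
    induction i with
    | zero => rw [pow_zero, map_one]; rfl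
    | succ i ih => rw [pow_succ, rho_mul_apply, hv, ih]
  rw [Finset.sum_congr rfl (fun i _ => h1 i), Finset.sum_const, Finset.card_range, Nat.cast_smul_eq_nsmul]

end sums

/-- **A finite abelian group of odd prime exponent `p` acting faithfully on a real vector space of
dimension `n` has at most `p ^ (n / 2)` elements.** -/
theorem card_le_p_pow {p : ℕ} (hp : p.Prime) (hp2 : p ≠ 2) (n : ℕ) : ∀ (V : Type) [AddCommGroup V]
    [Module ℝ V] [FiniteDimensional ℝ V] (A : Type) [CommGroup A] [Finite A]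
    (ρ : A →* (V →ₗ[ℝ] V)),
    finrank ℝ V = n → (∀ a : A, a ^ p = 1) → Function.Injective ρ →
      Nat.card A ≤ p ^ (n / 2) := by
  classical
  induction n using Nat.strong_induction_on with
  | _ n ih =>
  intro V _ _ _ A _ _ ρ hn hpow hinj
  have hp0 : (p : ℝ) ≠ 0 := Nat.cast_ne_zero.2 hp.ne_zero
  by_cases hA : ∃ a, (∃ v, v ≠ 0 ∧ ρ a v = v) ∧ (∃ v, ρ a v ≠ v)
  · -- split the space
    obtain ⟨a, ⟨v0, hv0, hav0⟩, ⟨v1, hv1⟩⟩ := hA
    have hcomm : ∀ (b : A) (v : V), ρ b (ρ a v) = ρ a (ρ b v) := by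
      intro b v
      rw [← rho_mul_apply, mul_comm, rho_mul_apply]
    let S : V →ₗ[ℝ] V := ∑ i ∈ Finset.range p, ρ (a ^ i)
    have hS : ∀ v, S v = ∑ i ∈ Finset.range p, ρ (a ^ i) v := fun v => by
      simp only [S, LinearMap.sum_apply]
    have hScomm : ∀ (b : A) (v : V), ρ b (S v) = S (ρ b v) := by
      intro b v
      rw [hS, hS, map_sum]
      refine Finset.sum_congr rfl (fun i _ => ?_)
      rw [← rho_mul_apply, mul_comm, rho_mul_apply]
    let Vp : Submodule ℝ V := LinearMap.ker (ρ a - 1)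
    let Vm : Submodule ℝ V := LinearMap.ker S
    have hVp : ∀ v, v ∈ Vp ↔ ρ a v = v := by
      intro v
      rw [LinearMap.mem_ker, LinearMap.sub_apply, sub_eq_zero]
      rfl
    have hVm : ∀ v, v ∈ Vm ↔ S v = 0 := fun v => LinearMap.mem_ker
    have hfix : ∀ v, ρ a (S v) = S v := fun v => by
      rw [hS]; exact sum_fixed ρ (hpow a) v
    have hdec : ∀ v : V, ∃ u ∈ Vp, ∃ w ∈ Vm, v = u + w := by
      intro v
      refine ⟨(p : ℝ)⁻¹ • S v, ?_, v - (p : ℝ)⁻¹ • S v, ?_, ?_⟩
      · rw [hVp, map_smul, hfix]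
      · rw [hVm, map_sub, map_smul, hS (S v), sum_of_fixed ρ (hfix v), smul_smul,
          inv_mul_cancel₀ hp0, one_smul, sub_self]
      · abel
    have hcompl : IsCompl Vp Vm := by
      constructor
      · rw [Submodule.disjoint_def]
        intro v h1 h2
        rw [hVp] at h1
        rw [hVm, hS, sum_of_fixed ρ h1] at h2
        exact (smul_eq_zero.1 h2).resolve_left hp0
      · rw [codisjoint_iff, eq_top_iff]
        intro v _
        obtain ⟨u, hu, w, hw, rfl⟩ := hdec v
        exact Submodule.add_mem_sup hu hw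
    have hrank := Submodule.finrank_add_eq_of_isCompl hcompl
    have hp0' : 0 < finrank ℝ Vp := by
      rw [Nat.pos_iff_ne_zero]
      intro h0
      have h1 : Vp = ⊥ := Submodule.finrank_eq_zero.1 h0
      have h2 : v0 ∈ Vp := (hVp v0).2 hav0
      rw [h1, Submodule.mem_bot] at h2
      exact hv0 h2
    have hm0 : 0 < finrank ℝ Vm := by
      rw [Nat.pos_iff_ne_zero]
      intro h0
      have h1 : Vm = ⊥ := Submodule.finrank_eq_zero.1 h0
      apply hv1
      obtain ⟨u, hu, w, hw, hv⟩ := hdec v1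
      rw [h1, Submodule.mem_bot] at hw
      rw [hv, hw, add_zero]
      exact (hVp u).1 hu
    let ρp : A →* (Vp →ₗ[ℝ] Vp) :=
      { toFun := fun b => (ρ b).restrict (fun v hv => by
          rw [hVp] at hv ⊢
          rw [← hcomm, hv])
        map_one' := by
          ext v
          show ρ 1 (v : V) = v
          rw [map_one]; rfl
        map_mul' := fun b c => by
          ext v
          show ρ (b * c) (v : V) = ρ b (ρ c v)
          rw [map_mul]; rfl }
    let ρm : A →* (Vm →ₗ[ℝ] Vm) :=
      { toFun := fun b => (ρ b).restrict (fun v hv => by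
          rw [hVm] at hv ⊢
          rw [← hScomm, hv, map_zero])
        map_one' := by
          ext v
          show ρ 1 (v : V) = v
          rw [map_one]; rfl
        map_mul' := fun b c => by
          ext v
          show ρ (b * c) (v : V) = ρ b (ρ c v)
          rw [map_mul]; rfl }
    have hq : ∀ (K : Subgroup A) (x : A ⧸ K), x ^ p = 1 := by
      intro K x
      refine QuotientGroup.induction_on x fun b => ?_
      rw [← QuotientGroup.mk_pow, hpow]; rfl
    have c1 : Nat.card (A ⧸ ρp.ker) ≤ p ^ (finrank ℝ Vp / 2) :=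
      ih _ (by omega) Vp (A ⧸ ρp.ker) _ rfl (hq _) (lift_injective ρp)
    have c2 : Nat.card (A ⧸ ρm.ker) ≤ p ^ (finrank ℝ Vm / 2) :=
      ih _ (by omega) Vm (A ⧸ ρm.ker) _ rfl (hq _) (lift_injective ρm)
    have c3 : Nat.card A ≤ Nat.card ((A ⧸ ρp.ker) × (A ⧸ ρm.ker)) := by
      apply Nat.card_le_card_of_injective
        (fun b : A => ((b : A ⧸ ρp.ker), (b : A ⧸ ρm.ker)))
      intro b c hbc
      rw [Prod.mk.injEq, QuotientGroup.eq, QuotientGroup.eq, MonoidHom.mem_ker,
        MonoidHom.mem_ker] at hbc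
      have h1 : ρ (b⁻¹ * c) = 1 := by
        ext v
        obtain ⟨u, hu, w, hw, rfl⟩ := hdec v
        have h2 : ρ (b⁻¹ * c) u = u := by
          have := LinearMap.congr_fun hbc.1 ⟨u, hu⟩
          exact congrArg Subtype.val this
        have h3 : ρ (b⁻¹ * c) w = w := by
          have := LinearMap.congr_fun hbc.2 ⟨w, hw⟩
          exact congrArg Subtype.val this
        rw [map_add, h2, h3]
        rfl
      have h2 : b⁻¹ * c = 1 := hinj (by rw [h1, map_one])
      exact (inv_mul_eq_one.1 h2)
    rw [Nat.card_prod] at c3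
    calc Nat.card A ≤ _ := c3
      _ ≤ p ^ (finrank ℝ Vp / 2) * p ^ (finrank ℝ Vm / 2) := Nat.mul_le_mul c1 c2
      _ = p ^ (finrank ℝ Vp / 2 + finrank ℝ Vm / 2) := (pow_add _ _ _).symm
      _ ≤ p ^ (n / 2) := Nat.pow_le_pow_right hp.pos (by omega)
  · push Not at hA
    have hfree : ∀ a, a ≠ 1 → ∀ v, ρ a v = v → v = 0 := by
      intro a ha v hv
      by_contra hv0
      apply ha
      apply hinj
      rw [map_one]
      ext w
      exact hA a ⟨v, hv0, hv⟩ w
    by_cases htriv : ∀ a : A, a = 1
    · have : Subsingleton A := ⟨fun a b => by rw [htriv a, htriv b]⟩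
      rw [Nat.card_eq_one_iff_unique.2 ⟨this, ⟨1⟩⟩]
      exact Nat.one_le_pow _ _ hp.pos
    push Not at htriv
    obtain ⟨a, ha⟩ := htriv
    have hnt : ∃ v : V, v ≠ 0 := by
      by_contra h
      push Not at h
      apply ha
      apply hinj
      ext w
      rw [h w, map_zero, map_zero]
    obtain ⟨v0, hv0⟩ := hnt
    have hsum : ∀ c, c ≠ 1 → ∀ v, ∑ i ∈ Finset.range p, ρ (c ^ i) v = 0 := fun c hc v =>
      hfree c hc _ (sum_fixed ρ (hpow c) v)
    have hfact : Fact (Nat.Prime p) := ⟨hp⟩
    have hord : orderOf a = p := orderOf_eq_prime (hpow a) ha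
    have hn2 : 2 ≤ n := by
      by_contra hlt
      have hn1 : finrank ℝ V = 1 := by
        have : 0 < finrank ℝ V := Module.finrank_pos_iff_exists_ne_zero.2 ⟨v0, hv0⟩
        omega
      obtain ⟨c, hc⟩ := (finrank_eq_one_iff_of_nonzero' v0 hv0).1 hn1 (ρ a v0)
      have h1 : ∀ i : ℕ, ρ (a ^ i) v0 = c ^ i • v0 := by
        intro i
        induction i with
        | zero => rw [pow_zero, map_one, pow_zero, one_smul]; rfl
        | succ i ih => rw [pow_succ, rho_mul_apply, ← hc, map_smul, ih, smul_smul, pow_succ']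
      have h2 := h1 p
      rw [hpow, map_one] at h2
      have h3 : c ^ p = 1 := by
        have h4 : (c ^ p - 1) • v0 = 0 := by
          rw [sub_smul, ← h2, one_smul]
          exact sub_self _
        exact sub_eq_zero.1 ((smul_eq_zero.1 h4).resolve_right hv0)
      have h5 : c = 1 := by
        have hodd : Odd p := hp.odd_of_ne_two hp2
        exact hodd.strictMono_pow.injective (by simpa using h3)
      rw [h5, one_smul] at hc
      exact hv0 (hfree a ha v0 hc.symm)
    have hmem : ∀ b : A, b ∈ Subgroup.zpowers a := by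
      intro b
      by_contra hb
      have h1 : ∀ j : ℕ, b * a ^ j ≠ 1 := by
        intro j hj
        apply hb
        rw [mul_eq_one_iff_eq_inv] at hj
        rw [hj]
        exact inv_mem (Subgroup.npow_mem_zpowers a j)
      have h2 : ∑ j ∈ Finset.range p, ∑ i ∈ Finset.range p, ρ ((b * a ^ j) ^ i) v0 = 0 :=
        Finset.sum_eq_zero (fun j _ => hsum _ (h1 j) v0)
      rw [Finset.sum_comm] at h2
      rw [Finset.sum_eq_single 0] at h2
      · simp only [pow_zero, map_one, Module.End.one_apply, Finset.sum_const, Finset.card_range] at h2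
        rw [← Nat.cast_smul_eq_nsmul ℝ] at h2
        exact hv0 ((smul_eq_zero.1 h2).resolve_left hp0)
      · intro i hi hi0
        have h3 : ∀ j, ρ ((b * a ^ j) ^ i) v0 = ρ (b ^ i) (ρ ((a ^ i) ^ j) v0) := by
          intro j
          rw [← rho_mul_apply, mul_pow, ← pow_mul, ← pow_mul, mul_comm j i]
        rw [Finset.sum_congr rfl (fun j _ => h3 j), ← map_sum, hsum, map_zero]
        intro h4
        have h5 := orderOf_dvd_of_pow_eq_one h4
        rw [hord] at h5
        exact absurd (Nat.le_of_dvd (Nat.pos_of_ne_zero hi0) h5)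
          (not_le.2 (Finset.mem_range.1 hi))
      · intro h; exact absurd (Finset.mem_range.2 hp.pos) h
    have hcard : Nat.card A = p := by
      rw [← hord]
      exact (orderOf_eq_card_of_forall_mem_zpowers hmem).symm
    rw [hcard]
    calc p = p ^ 1 := (pow_one p).symm
      _ ≤ p ^ (n / 2) := Nat.pow_le_pow_right hp.pos (by omega)

theorem card_dvd_p_pow {p : ℕ} (hp : p.Prime) (hp2 : p ≠ 2) {V : Type} [AddCommGroup V]
    [Module ℝ V] [FiniteDimensional ℝ V] {A : Type} [CommGroup A] [Finite A]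
    (ρ : A →* (V →ₗ[ℝ] V)) (hpow : ∀ a : A, a ^ p = 1)
    (hinj : Function.Injective ρ) : Nat.card A ∣ p ^ (finrank ℝ V / 2) := by
  have h1 := card_le_p_pow hp hp2 _ V A ρ rfl hpow hinj
  have hp' : Fact (Nat.Prime p) := ⟨hp⟩
  have h2 : IsPGroup p A := fun a => ⟨1, by rw [pow_one]; exact hpow a⟩
  obtain ⟨k, hk⟩ := IsPGroup.iff_card.1 h2
  rw [hk] at h1 ⊢
  exact Nat.pow_dvd_pow p ((Nat.pow_le_pow_iff_right hp.one_lt).1 h1)

section manifold

open scoped Manifold ContDiff

variable {E : Type} [NormedAddCommGroup E] [NormedSpace ℝ E] [FiniteDimensional ℝ E]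
  {M : Type} [TopologicalSpace M] [ChartedSpace E M] [IsManifold 𝓘(ℝ, E) ∞ M]

/-- An elementary abelian `p`-group, `p` odd, acting faithfully and
smoothly on a closed connected manifold of dimension `m` has an order dividing
`p ^ (m / 2) * χ(M)`. -/
theorem prime_dvd {p : ℕ} (hp : p.Prime) (hp2 : p ≠ 2) [CompactSpace M] [T2Space M]
    [ConnectedSpace M] {P : Type} [CommGroup P]
    [Finite P] (hpow : ∀ x : P, x ^ p = 1) {a : P → M → M} (ha : SmoothAction E a)
    (hf : ∀ x, (∀ y, a x y = y) → x = 1) :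
    (Nat.card P : ℤ) ∣ p ^ (finrank ℝ E / 2) * Pool.Agent.Helper381.eulerChar M := by
  have h1 := smooth_dvd_euler ha (p ^ (finrank ℝ E / 2)) (fun x Q hQ => by
    obtain ⟨V, _, _, _, ρ, hV, hρ⟩ := exists_isotropy ha hf x Q hQ
    rw [← hV]
    exact card_dvd_p_pow hp hp2 ρ (fun q => Subtype.ext (hpow q)) hρ)
  exact_mod_cast h1

/-- The version with a kernel. -/
theorem prime_dvd_ker {p : ℕ} (hp : p.Prime) (hp2 : p ≠ 2) [CompactSpace M] [T2Space M]
    [ConnectedSpace M] {P : Type} [CommGroup P]
    [Finite P] (hpow : ∀ x : P, x ^ p = 1) {a : P → M → M} (ha : SmoothAction E a) :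
    (Nat.card P : ℤ) ∣
      Nat.card (actKer ha) * (p ^ (finrank ℝ E / 2) * Pool.Agent.Helper381.eulerChar M) := by
  let b : P ⧸ actKer ha → M → M := fun x y => Quotient.liftOn' x (fun q => a q y) (fun q r h => by
    rw [QuotientGroup.leftRel_apply] at h
    have h1 := h y
    show a q y = a r y
    conv_lhs => rw [← h1]
    rw [← ha.mul, mul_inv_cancel_left])
  have hb1 : SmoothAction E b :=
    { one := fun y => ha.one y
      mul := fun x q y => by
        refine QuotientGroup.induction_on x fun x => QuotientGroup.induction_on q fun q => ?_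
        exact ha.mul x q y
      smooth := fun x => by
        refine QuotientGroup.induction_on x fun x => ?_
        exact ha.smooth x }
  have h1 := prime_dvd hp hp2 (P := P ⧸ actKer ha) (fun x => by
      refine QuotientGroup.induction_on x fun x => ?_
      rw [← QuotientGroup.mk_pow, hpow]; rfl) hb1 (fun x hx => by
      induction x using QuotientGroup.induction_on with
      | _ x =>
        rw [QuotientGroup.eq_one_iff]
        exact hx)
  rw [← Subgroup.card_mul_index (actKer ha)]
  push_cast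
  exact mul_dvd_mul_left _ h1

end manifold

end Pool.Agent.H185.ZM
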