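import Pool.Agent.Helper381.Main

/-!
# A finite group of isometries and the Euler characteristic

If a finite group `P` acts by isometries on a compact space with good charts, and the orders of all
subgroups of `P` which fix a point divide `s`, then `|P|` divides `s * χ(M)`.
-/

set_option autoImplicit false

namespace Pool.Agent.H185.ZM

open Metric Set Module Pool.Agent.Helper381

universe u v

theorem card_dvd_of_stabilizer {P X : Type*} [Group P] [Finite P] [MulAction P X] [Finite X]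
    (s : ℕ) (h : ∀ x : X, Nat.card (MulAction.stabilizer P x) ∣ s) :
    Nat.card P ∣ s * Nat.card X := by
  classical
  have := Fintype.ofFinite X
  have := Fintype.ofFinite (MulAction.orbitRel.Quotient P X)
  rw [Nat.card_congr (MulAction.selfEquivSigmaOrbits P X), Nat.card_sigma, Finset.mul_sum]
  apply Finset.dvd_sum
  intro ω _
  obtain ⟨t, ht⟩ := h ω.out
  have h1 : Nat.card P = Nat.card (MulAction.orbit P ω.out) *
      Nat.card (MulAction.stabilizer P ω.out) := by
    rw [← Nat.card_prod]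
    exact Nat.card_congr (MulAction.orbitProdStabilizerEquivGroup P ω.out).symm
  refine ⟨t, ?_⟩
  rw [h1, ht]
  ring

section

variable {M : Type u} {E : Type v} [MetricSpace M] [NormedAddCommGroup E] [NormedSpace ℝ E]
  {R : ℝ}

/-- an invariant finite net -/
theorem exists_invariant_net [CompactSpace M] {P : Type} [Group P] [Finite P]
    (a : P →* (M ≃ᵢ M)) (ρ : ℝ) (hρ : 0 < ρ) :
    ∃ F : Finset M, (∀ x : M, ∃ p ∈ F, dist p x < ρ) ∧ ∀ (q : P) (x : M), x ∈ F ↔ a q x ∈ F := by
  classical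
  have := Fintype.ofFinite P
  obtain ⟨F0, hF0, _⟩ := exists_net (M := M) [] (by simp) (by simp) ρ hρ
  have key : ∀ (q : P) (x : M), x ∈ (Finset.univ ×ˢ F0).image (fun z : P × M => a z.1 z.2) →
      a q x ∈ (Finset.univ ×ˢ F0).image (fun z : P × M => a z.1 z.2) := by
    intro q x hx
    obtain ⟨z, hz, rfl⟩ := Finset.mem_image.1 hx
    rw [Finset.mem_product] at hz
    refine Finset.mem_image.2 ⟨(q * z.1, z.2), ?_, ?_⟩
    · rw [Finset.mem_product]; exact ⟨Finset.mem_univ _, hz.2⟩
    · show a (q * z.1) z.2 = a q (a z.1 z.2)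
      rw [map_mul]; rfl
  refine ⟨(Finset.univ ×ˢ F0).image (fun z : P × M => a z.1 z.2), ?_, ?_⟩
  · intro x
    obtain ⟨p, hp, hpx⟩ := hF0 x
    refine ⟨p, Finset.mem_image.2 ⟨(1, p), ?_, ?_⟩, hpx⟩
    · rw [Finset.mem_product]; exact ⟨Finset.mem_univ _, hp⟩
    · show a 1 p = p
      rw [map_one]; rfl
  · intro q x
    refine ⟨key q x, fun hx => ?_⟩
    have h2 := key q⁻¹ _ hx
    have h3 : a q⁻¹ (a q x) = x := by
      have : (a q⁻¹ * a q) x = x := by rw [← map_mul, inv_mul_cancel, map_one]; rfl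
      exact this
    rwa [h3] at h2

theorem dvd_euler (G : Geo M E R) [CompactSpace M] [Nonempty M] {P : Type} [Group P] [Finite P]
    (a : P →* (M ≃ᵢ M)) (s : ℕ)
    (h : ∀ (x : M) (Q : Subgroup P), (∀ q ∈ Q, a q x = x) → Nat.card Q ∣ s) :
    (Nat.card P : ℤ) ∣ s * eulerChar M := by
  classical
  have hR := G.Rpos
  obtain ⟨F, hF, hFa⟩ := exists_invariant_net a (R / 4) (by linarith)
  have hρR : 4 * (R / 4) ≤ R := by linarith
  set ρ := R / 4 with hρ
  have hQ := Fam_finite F ρ
  have hfin : ∀ n, Finite (Ch (Fam F ρ) n) := finite_Ch hQ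
  -- the action on chains
  have hone : ∀ C : Set M, a 1 '' C = C := by
    intro C
    rw [map_one]
    exact Set.image_id C
  have hmul : ∀ (p q : P) (C : Set M), a (p * q) '' C = a p '' (a q '' C) := by
    intro p q C
    rw [map_mul, Set.image_image]
    rfl
  have hsm : ∀ p : P, StrictMono (fun C : Set M => a p '' C) := fun p =>
    (a p).injective.image_strictMono
  have hmem : ∀ (p : P) (C : Set M), C ∈ Fam F ρ → a p '' C ∈ Fam F ρ := fun p C hC =>
    image_Fam F ρ (a p) (hFa p) hC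
  have key : ∀ n, Nat.card P ∣ s * Nat.card (Ch (Fam F ρ) n) := by
    intro n
    letI : MulAction P (Ch (Fam F ρ) n) :=
      { smul := fun p c => ⟨fun i => a p '' c.1 i, (hsm p).comp c.2.1, fun i => hmem p _ (c.2.2 i)⟩
        one_smul := fun c => Subtype.ext (funext fun i => hone _)
        mul_smul := fun p q c => Subtype.ext (funext fun i => hmul p q _) }
    have := hfin n
    apply card_dvd_of_stabilizer
    intro c
    obtain ⟨y, _, hy⟩ := G.fam_fixed hρR (c.2.2 0)
    apply h y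
    intro q hq
    apply hy (a q) (hFa q)
    have h1 : q • c = c := hq
    have h2 : (q • c).1 0 = c.1 0 := by rw [h1]
    exact h2
  -- the Euler characteristic
  set N := (Fam F ρ).ncard with hN
  have e1 : ∀ n, finrank ℚ (SingularCohomology ℚ M n) = finrank ℚ (OrdCoh ℚ (Fam F ρ) n) := by
    intro n
    rw [finrank_singularCohomology]
    obtain ⟨e⟩ := G.nerve hρR hF ℚ n
    exact LinearEquiv.finrank_eq e
  have e2 : eulerChar M = ∑ n ∈ Finset.range N,
      (-1 : ℤ) ^ n * (finrank ℚ (OrdCoh ℚ (Fam F ρ) n) : ℤ) := by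
    unfold eulerChar
    rw [finsum_eq_sum_of_support_subset (s := Finset.range N)]
    · exact Finset.sum_congr rfl fun n _ => by rw [e1]
    · intro n hn
      rw [Function.mem_support] at hn
      rw [Finset.coe_range, Set.mem_Iio]
      by_contra hlt
      apply hn
      rw [e1, ordcoh_top hQ ℚ n (not_lt.1 hlt)]
      simp
  have e3 : ∀ n, finrank ℚ (Ch (Fam F ρ) n → ℚ) = Nat.card (Ch (Fam F ρ) n) := by
    intro n
    have := hfin n
    have := Fintype.ofFinite (Ch (Fam F ρ) n)
    rw [Module.finrank_fintype_fun_eq_card, Nat.card_eq_fintype_card]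
  have hEmpty := isEmpty_Ch hQ N le_rfl
  have e4 := euler_coh (k := ℚ) (C := fun n => Ch (Fam F ρ) n → ℚ)
    (fun n => altd ℚ (cface (Q := Fam F ρ)) n)
    (fun n x => altd_altd (cface (Q := Fam F ρ)) (fun n i j c hij => cface_cface n i j c hij) n x)
    N (by rw [e3]; exact Nat.card_of_isEmpty)
  rw [e2]
  have e5 : ∑ n ∈ Finset.range N, (-1 : ℤ) ^ n * (finrank ℚ (OrdCoh ℚ (Fam F ρ) n) : ℤ) =
      ∑ n ∈ Finset.range N, (-1 : ℤ) ^ n * (Nat.card (Ch (Fam F ρ) n) : ℤ) := by
    refine Eq.trans e4 (Finset.sum_congr rfl fun n _ => ?_)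
    rw [e3]
  rw [e5, Finset.mul_sum]
  apply Finset.dvd_sum
  intro n _
  have h1 : (Nat.card P : ℤ) ∣ (s : ℤ) * (Nat.card (Ch (Fam F ρ) n) : ℤ) := by
    exact_mod_cast key n
  obtain ⟨t, ht⟩ := h1
  refine ⟨(-1) ^ n * t, ?_⟩
  calc (s : ℤ) * ((-1) ^ n * (Nat.card (Ch (Fam F ρ) n) : ℤ))
      = (-1) ^ n * ((s : ℤ) * (Nat.card (Ch (Fam F ρ) n) : ℤ)) := by ring
    _ = _ := by rw [ht]; ring

end

end Pool.Agent.H185.ZM
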