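import Pool.Agent.H185.ZM.Gauss
import Pool.Agent.H185.ZM.AbP

/-!
# Actions of `SL_n(R)`, where `R` contains a primitive `p`-th root of unity
-/

set_option autoImplicit false

namespace Pool.Agent.H185.ZM

open Matrix Module

section diag

variable {R : Type} [CommRing R] {p : ℕ}

/-- powers of `z` with exponents modulo `p` -/
def zp (z : R) (hz : z ^ p = 1) [NeZero p] : Multiplicative (ZMod p) →* R where
  toFun x := z ^ (x.toAdd).val
  map_one' := by simp
  map_mul' x y := by
    have h1 : (x * y).toAdd = x.toAdd + y.toAdd := rfl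
    rw [h1, ZMod.val_add, ← pow_add]
    conv_rhs => rw [← Nat.mod_add_div (x.toAdd.val + y.toAdd.val) p, pow_add, pow_mul, hz,
      one_pow, mul_one]

variable {A : Type} [CommGroup A]

/-- the vector of units -/
def uv {k : ℕ} (p : Fin k → A) : Fin (k + 1) → A :=
  Fin.cons (∏ j, p j)⁻¹ p

lemma uv_mul {k : ℕ} (p q : Fin k → A) (i : Fin (k + 1)) :
    uv (p * q) i = uv p i * uv q i := by
  unfold uv
  refine Fin.cases ?_ (fun i => ?_) i
  · simp only [Fin.cons_zero, Pi.mul_apply, Finset.prod_mul_distrib]
    rw [mul_inv]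
  · simp only [Fin.cons_succ, Pi.mul_apply]

lemma uv_one {k : ℕ} (i : Fin (k + 1)) : uv (1 : Fin k → A) i = 1 := by
  unfold uv
  refine Fin.cases ?_ (fun i => ?_) i
  · simp
  · simp

/-- the diagonal matrices -/
def dmt (k : ℕ) (f : A →* R) : (Fin k → A) →*
    Matrix.SpecialLinearGroup (Fin (k + 1)) R where
  toFun p := ⟨diagonal (fun i => f (uv p i)), by
    rw [det_diagonal, ← map_prod]
    have : ∏ i, uv p i = 1 := by
      rw [Fin.prod_univ_succ]
      unfold uv
      simp
    rw [this, map_one]⟩
  map_one' := by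
    apply Subtype.ext
    show diagonal (fun i => f (uv 1 i)) = (1 : Matrix _ _ _)
    simp only [uv_one, map_one]
    exact diagonal_one
  map_mul' := fun p q => by
    apply Subtype.ext
    show diagonal (fun i => f (uv (p * q) i)) =
      diagonal (fun i => f (uv p i)) * diagonal (fun i => f (uv q i))
    rw [diagonal_mul_diagonal]
    simp only [uv_mul, map_mul]

lemma card_scal [Finite A] [IsCyclic A] {k : ℕ} (hk : 2 ≤ k) (K : Subgroup (Fin k → A))
    (hK : ∀ p ∈ K, ∀ i j, uv p i = uv p j) : Nat.card K ∣ Nat.gcd (k + 1) (Nat.card A) := by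
  let i0 : Fin k := ⟨0, by omega⟩
  let ev : K →* A := (Pi.evalMonoidHom _ i0).comp K.subtype
  have hall : ∀ p ∈ K, ∀ j, p j = p i0 := by
    intro p hp j
    have := hK p hp j.succ i0.succ
    unfold uv at this
    simpa using this
  have hinj : Function.Injective ev := by
    intro p q hpq
    apply Subtype.ext
    funext j
    rw [hall _ p.2 j, hall _ q.2 j]
    exact hpq
  have h4 : Nat.card K ∣ Nat.card A := Subgroup.card_dvd_of_injective ev hinj
  have hc : IsCyclic K := isCyclic_of_injective ev hinj
  have hk1 : Nat.card K ∣ k + 1 := by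
    rw [← IsCyclic.exponent_eq_card]
    apply Monoid.exponent_dvd_of_forall_pow_eq_one
    intro p
    apply hinj
    rw [map_one]
    show ((p ^ (k + 1) : K) : Fin k → A) i0 = 1
    rw [Subgroup.coe_pow, Pi.pow_apply]
    have h1 := hK _ p.2 0 i0.succ
    unfold uv at h1
    rw [Fin.cons_zero, Fin.cons_succ, Finset.prod_congr rfl (fun j _ => hall _ p.2 j),
      Finset.prod_const, Finset.card_univ, Fintype.card_fin, inv_eq_iff_mul_eq_one] at h1
    rw [pow_succ]
    exact h1
  exact Nat.dvd_gcd hk1 h4

end diag

section main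

open scoped Manifold ContDiff

variable {E : Type} [NormedAddCommGroup E] [NormedSpace ℝ E] [FiniteDimensional ℝ E]
  {M : Type} [TopologicalSpace M] [ChartedSpace E M] [IsManifold 𝓘(ℝ, E) ∞ M]
  {R : Type} [CommRing R]

lemma one_sub_dvd {p : ℕ} {z : R} (hz : ∑ i ∈ Finset.range p, z ^ i = 0) :
    ∃ t, (z - 1) * t = (p : R) := by
  have h1 : ∀ i : ℕ, ∃ t, (z - 1) * t = 1 - z ^ i := by
    intro i
    refine ⟨-∑ j ∈ Finset.range i, z ^ j, ?_⟩
    rw [mul_neg, mul_comm, geom_sum_mul]
    ring
  choose f hf using h1
  refine ⟨∑ i ∈ Finset.range p, f i, ?_⟩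
  rw [Finset.mul_sum, Finset.sum_congr rfl (fun i _ => hf i), Finset.sum_sub_distrib, hz, sub_zero]
  simp

lemma pow_eq_one_of_sum {p : ℕ} {z : R} (hz : ∑ i ∈ Finset.range p, z ^ i = 0) : z ^ p = 1 := by
  have h1 := geom_sum_mul z p
  rw [hz, zero_mul] at h1
  exact (sub_eq_zero.1 h1.symm)

/-- **Main theorem**: triviality on the elementary matrices. -/
theorem cyc_trivial {p : ℕ} (hp : p.Prime) (hp2 : p ≠ 2) (z : R)
    (hz : ∑ i ∈ Finset.range p, z ^ i = 0)
    {k : ℕ} (hk : 2 ≤ k) [CompactSpace M] [T2Space M] [ConnectedSpace M]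
    {a : Matrix.SpecialLinearGroup (Fin (k + 1)) R → M → M} (ha : SmoothAction E a)
    (hdvd : ¬ ((p : ℤ) ^ k ∣ (Nat.gcd (k + 1) p : ℤ) *
      (p ^ (finrank ℝ E / 2) * Pool.Agent.Helper381.eulerChar M))) :
    ∀ (i j : Fin (k + 1)) (h : i ≠ j) (c : R) (x : M), a (el h c) x = x := by
  classical
  have hfact : Fact (Nat.Prime p) := ⟨hp⟩
  have hn : 3 ≤ k + 1 := by omega
  set N := actKer ha with hN
  have hzp := pow_eq_one_of_sum hz
  -- Step 1
  have h2 : z - 1 ∈ idealOf N hn := by
    have h1 := prime_dvd_ker hp hp2 (P := Fin k → Multiplicative (ZMod p))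
      (fun x => by
        funext j
        have : ∀ u : Multiplicative (ZMod p), u ^ p = 1 := by
          intro u
          show (p : ℕ) • u.toAdd = 0
          simp
        exact this _) (ha.comp (dmt k (zp z hzp)))
    set K := actKer (ha.comp (dmt k (zp z hzp))) with hK
    have hc : Nat.card (Fin k → Multiplicative (ZMod p)) = p ^ k := by simp
    rw [hc] at h1
    by_cases hsc : ∀ x ∈ K, ∀ i j, uv x i = uv x j
    · exfalso
      apply hdvd
      have h3 := card_scal hk K hsc
      have hcz : Nat.card (Multiplicative (ZMod p)) = p := by simp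
      rw [hcz] at h3
      have h4 : (Nat.card K : ℤ) ∣ (Nat.gcd (k + 1) p : ℤ) := by exact_mod_cast h3
      have h5 := h1.trans (mul_dvd_mul_right h4 _)
      exact_mod_cast h5
    · push Not at hsc
      obtain ⟨x, hx, i, j, hij⟩ := hsc
      have hij' : i ≠ j := fun h => hij (by rw [h])
      have hpN : dmt k (zp z hzp) x ∈ N := hx
      have h3 := mem_idealOf_diag N hn hij' hpN (fun i => zp z hzp (uv x i)) rfl
        (zp z hzp (uv x i / uv x j)) (by rw [← map_mul, div_mul_cancel])
      set u : ZMod p := (uv x i / uv x j).toAdd with hu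
      have hu0 : u ≠ 0 := by
        intro h
        apply hij
        rw [← div_eq_one]
        exact h
      have h4 : z ^ u.val - 1 ∈ idealOf N hn := h3
      -- `z = (z ^ u) ^ w`
      have h5 : (z ^ u.val) ^ (u⁻¹).val = z := by
        rw [← pow_mul]
        have h6 : u.val * (u⁻¹).val % p = 1 := by
          have h7 : ((u.val * (u⁻¹).val : ℕ) : ZMod p) = (1 : ℕ) := by
            push_cast
            rw [ZMod.natCast_zmod_val, ZMod.natCast_zmod_val, mul_inv_cancel₀ hu0]
          have h8 := (ZMod.natCast_eq_natCast_iff' _ _ _).1 h7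
          rw [h8, Nat.mod_eq_of_lt hp.one_lt]
        conv_lhs => rw [← Nat.mod_add_div (u.val * (u⁻¹).val) p, h6, pow_add, pow_mul, hzp,
          one_pow, mul_one, pow_one]
      have h6 := geom_sum_mul (z ^ u.val) (u⁻¹).val
      rw [h5] at h6
      rw [← h6]
      exact Ideal.mul_mem_left _ _ h4
  have hpI : (p : R) ∈ idealOf N hn := by
    obtain ⟨t, ht⟩ := one_sub_dvd hz
    rw [← ht]
    exact Ideal.mul_mem_right _ _ h2
  -- Step 2
  have hI : (1 : R) ∈ idealOf N hn := by
    by_contra hI
    let lf : ZMod p → R := fun x => (x.val : R)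
    have lf0 : lf 0 = 0 := by simp [lf]
    have lfadd : ∀ x y, ∃ t, lf (x + y) - (lf x + lf y) = (p : R) * t := by
      intro x y
      refine ⟨-(((x.val + y.val) / p : ℕ) : R), ?_⟩
      simp only [lf]
      rw [ZMod.val_add]
      have h1 := Nat.mod_add_div (x.val + y.val) p
      have h2 : (((x.val + y.val) % p + p * ((x.val + y.val) / p) : ℕ) : R) =
        ((x.val + y.val : ℕ) : R) := by rw [h1]
      push_cast at h2
      linear_combination h2
    let b : Multiplicative (Fin k → ZMod p) → M → M :=
      fun x => a (row (fun j => lf (x.toAdd j)))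
    have hb : SmoothAction E b :=
      { one := fun y => by
          show a (row (fun j => lf 0)) y = y
          have : (fun _ : Fin k => lf 0) = 0 := by rw [lf0]; rfl
          rw [this, row_zero]
          exact ha.one y
        mul := fun x q y => by
          show a (row (fun j => lf (x.toAdd j + q.toAdd j))) y = _
          have h3 : (fun j => lf (x.toAdd j + q.toAdd j)) =
              (fun j => lf (x.toAdd j + q.toAdd j) - (lf (x.toAdd j) + lf (q.toAdd j))) +
                ((fun j => lf (x.toAdd j)) + (fun j => lf (q.toAdd j))) := by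
            funext j
            simp only [Pi.add_apply]
            ring
          rw [h3, row_add, row_add, ha.mul, ha.mul]
          have h4 : row (fun j => lf (x.toAdd j + q.toAdd j) -
              (lf (x.toAdd j) + lf (q.toAdd j))) ∈ N := by
            apply row_mem hn N
            intro l
            obtain ⟨t, ht⟩ := lfadd (x.toAdd l) (q.toAdd l)
            rw [ht]
            exact Ideal.mul_mem_right _ _ hpI
          exact h4 _
        smooth := fun x => ha.smooth _ }
    have h1 := prime_dvd hp hp2 (P := Multiplicative (Fin k → ZMod p))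
      (fun x => by
        show (p : ℕ) • x.toAdd = 0
        funext j
        simp) hb (fun x hx => by
        have h3 : row (fun j => lf (x.toAdd j)) ∈ N := hx
        by_contra hp1
        apply hI
        have h4 : ∃ l, x.toAdd l ≠ 0 := by
          by_contra h5
          push Not at h5
          exact hp1 (funext h5)
        obtain ⟨l, hl⟩ := h4
        have h5 := row_mem_ideal hk N _ h3 l
        have h6 : Nat.Coprime (x.toAdd l).val p := by
          rw [Nat.coprime_comm, hp.coprime_iff_not_dvd]
          intro h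
          have h7 := Nat.eq_zero_of_dvd_of_lt h (ZMod.val_lt _)
          exact hl ((ZMod.val_eq_zero _).1 h7)
        have h7 := Nat.isCoprime_iff_coprime.2 h6
        obtain ⟨s, t, hst⟩ := h7
        have h8 : (s : R) * ((x.toAdd l).val : R) + (t : R) * (p : R) = 1 := by
          have := congrArg (fun w : ℤ => (w : R)) hst
          push_cast at this
          exact this
        rw [← h8]
        exact Ideal.add_mem _ (Ideal.mul_mem_left _ _ h5) (Ideal.mul_mem_left _ _ hpI))
    apply hdvd
    have hc : Nat.card (Multiplicative (Fin k → ZMod p)) = p ^ k := by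
      rw [Nat.card_congr Multiplicative.toAdd]
      simp
    rw [hc] at h1
    exact Dvd.dvd.mul_left (by exact_mod_cast h1) _
  intro i j h c x
  have h3 : c ∈ idealOf N hn := by
    have := Ideal.mul_mem_left _ c hI
    rwa [mul_one] at this
  exact h3 i j h x

end main

end Pool.Agent.H185.ZM
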