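import Pool.Agent.H185.ZM.Gauss

/-!
# Homomorphisms into diffeomorphism groups
-/

set_option autoImplicit false

namespace Pool.Agent.H185.ZM

open scoped Manifold ContDiff
open Module

variable {E : Type} [NormedAddCommGroup E] [NormedSpace ℝ E]
  {M : Type} [TopologicalSpace M] [ChartedSpace E M]

/-- `α` is a homomorphism from the group `Γ` to the group of smooth diffeomorphisms of `M`. -/
def IsHom {Γ : Type} [Group Γ] (α : Γ → (M ≃ₘ^∞⟮𝓘(ℝ, E), 𝓘(ℝ, E)⟯ M)) : Prop :=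
  ∀ g h : Γ, ∀ x : M, α (g * h) x = α g (α h x)

lemma IsHom.action {Γ : Type} [Group Γ] {α : Γ → (M ≃ₘ^∞⟮𝓘(ℝ, E), 𝓘(ℝ, E)⟯ M)} (h : IsHom α) :
    SmoothAction E (fun g x => α g x) where
  one := fun x => by
    have h1 := h 1 1 x
    rw [mul_one] at h1
    exact ((α 1).injective h1).symm
  mul := h
  smooth := fun g => (α g).contMDiff

/-- the image is finite if the kernel has finite index -/
theorem IsHom.finite_range [FiniteDimensional ℝ E] [IsManifold 𝓘(ℝ, E) ∞ M] {Γ : Type} [Group Γ]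
    {α : Γ → (M ≃ₘ^∞⟮𝓘(ℝ, E), 𝓘(ℝ, E)⟯ M)} (hα : IsHom α)
    (h : Finite (Γ ⧸ actKer hα.action)) : (Set.range α).Finite := by
  let β : (Γ ⧸ actKer hα.action) → (M ≃ₘ^∞⟮𝓘(ℝ, E), 𝓘(ℝ, E)⟯ M) := fun p => α p.out
  refine (Set.finite_range β).subset ?_
  rintro _ ⟨g, rfl⟩
  refine ⟨(g : _ ⧸ actKer hα.action), ?_⟩
  have h1 := QuotientGroup.mk_out_eq_mul (actKer hα.action) g
  obtain ⟨u, hu⟩ := h1
  show α _ = α g
  rw [hu]
  ext x
  rw [hα]
  exact congrArg (α g) (u.2 x)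

end Pool.Agent.H185.ZM
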