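import Pool.Agent.H185.ZM.Cyc
import Pool.Agent.H185.ZM.Hom

/-!
# Groups of matrices containing the diagonal matrices with entries roots of unity
-/

set_option autoImplicit false

namespace Pool.Agent.H185.ZM

open Matrix Module
open scoped Manifold ContDiff

variable {E : Type} [NormedAddCommGroup E] [NormedSpace ℝ E] [FiniteDimensional ℝ E]
  {M : Type} [TopologicalSpace M] [ChartedSpace E M] [IsManifold 𝓘(ℝ, E) ∞ M]
  {R : Type} [CommRing R]

/-- **Property `(NS)`**: every normal subgroup of the group `Γ` of matrices consists of scalar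
matrices or has finite index. -/
def NS {n : ℕ} (Γ : Subgroup (Matrix.SpecialLinearGroup (Fin n) R)) : Prop :=
  ∀ N : Subgroup Γ, N.Normal →
    (∀ g ∈ N, ∃ c : R, ((g : Matrix.SpecialLinearGroup (Fin n) R) : Matrix (Fin n) (Fin n) R) =
      c • (1 : Matrix (Fin n) (Fin n) R)) ∨ Finite (Γ ⧸ N)

section

variable {A : Type} [CommGroup A]

/-- the diagonal matrices as elements of `Γ` -/
def dG {k : ℕ} (f : A →* R) (Γ : Subgroup (Matrix.SpecialLinearGroup (Fin (k + 1)) R))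
    (hΓ : ∀ x, dmt k f x ∈ Γ) : (Fin k → A) →* Γ where
  toFun x := ⟨dmt k f x, hΓ x⟩
  map_one' := Subtype.ext (map_one _)
  map_mul' x y := Subtype.ext (map_mul _ x y)

lemma dmt_coe {k : ℕ} (f : A →* R) (x : Fin k → A) :
    ((dmt k f x : Matrix.SpecialLinearGroup (Fin (k + 1)) R) :
      Matrix (Fin (k + 1)) (Fin (k + 1)) R) = diagonal (fun i => f (uv x i)) := rfl

lemma dmt_not_scalar {k : ℕ} (f : A →* R) (hf : Function.Injective f) {x : Fin k → A}
    (hx : ∃ i j, uv x i ≠ uv x j) (c : R) :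
    ((dmt k f x : Matrix.SpecialLinearGroup (Fin (k + 1)) R) :
      Matrix (Fin (k + 1)) (Fin (k + 1)) R) ≠ c • (1 : Matrix _ _ R) := by
  rintro h
  obtain ⟨i, j, hij⟩ := hx
  apply hij
  apply hf
  rw [dmt_coe] at h
  have h1 := congrFun (congrFun h i) i
  have h2 := congrFun (congrFun h j) j
  simp only [diagonal_apply_eq, Matrix.smul_apply, one_apply_eq, smul_eq_mul, mul_one] at h1 h2
  rw [h1, h2]

/-- the kernel contains a non-scalar diagonal matrix, exponent four -/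
theorem ker_four [Finite A] [IsCyclic A] (h4 : ∀ u : A, u ^ 4 = 1) (f : A →* R) {k : ℕ}
    (hk : 2 ≤ k) (Γ : Subgroup (Matrix.SpecialLinearGroup (Fin (k + 1)) R))
    (hΓ : ∀ x, dmt k f x ∈ Γ) [CompactSpace M] [T2Space M] [ConnectedSpace M]
    {a : Γ → M → M} (ha : SmoothAction E a)
    (hdvd : ¬ ((Nat.card A : ℤ) ^ k ∣ (Nat.gcd (k + 1) (Nat.card A) : ℤ) *
      (2 ^ finrank ℝ E * Pool.Agent.Helper381.eulerChar M))) :
    ∃ x : Fin k → A, (∃ i j, uv x i ≠ uv x j) ∧ dG f Γ hΓ x ∈ actKer ha := by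
  have h1 := abelian_dvd_ker (P := Fin k → A) (fun x => by
    funext j
    exact h4 _) (ha.comp (dG f Γ hΓ))
  by_contra hcon
  push Not at hcon
  have hsc : ∀ x ∈ actKer (ha.comp (dG f Γ hΓ)), ∀ i j, uv x i = uv x j := by
    intro x hx i j
    by_contra hij
    exact hcon x ⟨i, j, hij⟩ hx
  apply hdvd
  have h3 := card_scal hk _ hsc
  have h4 : (Nat.card (actKer (ha.comp (dG f Γ hΓ))) : ℤ) ∣ (Nat.gcd (k + 1) (Nat.card A) : ℤ) := by
    exact_mod_cast h3
  have h5 := h1.trans (mul_dvd_mul_right h4 _)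
  have hc : Nat.card (Fin k → A) = Nat.card A ^ k := by
    rw [Nat.card_fun]
    simp
  rw [hc] at h5
  exact_mod_cast h5

/-- the kernel contains a non-scalar diagonal matrix, odd prime exponent -/
theorem ker_odd [Finite A] [IsCyclic A] {p : ℕ} (hp : p.Prime) (hp2 : p ≠ 2)
    (hpow : ∀ u : A, u ^ p = 1) (f : A →* R) {k : ℕ}
    (hk : 2 ≤ k) (Γ : Subgroup (Matrix.SpecialLinearGroup (Fin (k + 1)) R))
    (hΓ : ∀ x, dmt k f x ∈ Γ) [CompactSpace M] [T2Space M] [ConnectedSpace M]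
    {a : Γ → M → M} (ha : SmoothAction E a)
    (hdvd : ¬ ((Nat.card A : ℤ) ^ k ∣ (Nat.gcd (k + 1) (Nat.card A) : ℤ) *
      (p ^ (finrank ℝ E / 2) * Pool.Agent.Helper381.eulerChar M))) :
    ∃ x : Fin k → A, (∃ i j, uv x i ≠ uv x j) ∧ dG f Γ hΓ x ∈ actKer ha := by
  have h1 := prime_dvd_ker hp hp2 (P := Fin k → A) (fun x => by
    funext j
    exact hpow _) (ha.comp (dG f Γ hΓ))
  by_contra hcon
  push Not at hcon
  have hsc : ∀ x ∈ actKer (ha.comp (dG f Γ hΓ)), ∀ i j, uv x i = uv x j := by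
    intro x hx i j
    by_contra hij
    exact hcon x ⟨i, j, hij⟩ hx
  apply hdvd
  have h3 := card_scal hk _ hsc
  have h4 : (Nat.card (actKer (ha.comp (dG f Γ hΓ))) : ℤ) ∣ (Nat.gcd (k + 1) (Nat.card A) : ℤ) := by
    exact_mod_cast h3
  have h5 := h1.trans (mul_dvd_mul_right h4 _)
  have hc : Nat.card (Fin k → A) = Nat.card A ^ k := by
    rw [Nat.card_fun]
    simp
  rw [hc] at h5
  exact_mod_cast h5

/-- property `(NS)` gives finite quotients -/
theorem NS.finite {k : ℕ} {Γ : Subgroup (Matrix.SpecialLinearGroup (Fin (k + 1)) R)} (h : NS Γ)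
    (f : A →* R) (hf : Function.Injective f) (hΓ : ∀ x, dmt k f x ∈ Γ)
    {a : Γ → M → M} (ha : SmoothAction E a)
    (hx : ∃ x : Fin k → A, (∃ i j, uv x i ≠ uv x j) ∧ dG f Γ hΓ x ∈ actKer ha) :
    Finite (Γ ⧸ actKer ha) := by
  obtain ⟨x, hx1, hx2⟩ := hx
  rcases h (actKer ha) inferInstance with h1 | h1
  · obtain ⟨c, hc⟩ := h1 _ hx2
    exact absurd hc (dmt_not_scalar f hf hx1 c)
  · exact h1

end

end Pool.Agent.H185.ZM
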