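import Pool.Agent.H839R2.Geo.Embed
import Pool.Agent.Q145.TN.Metrize
import Pool.Agent.H185.ZM.Count

/-!
# Equivariant embeddings and invariant metrics for actions of finite groups
-/

set_option autoImplicit false

namespace Pool.Agent.H185.ZM

open scoped Manifold ContDiff Topology ENNReal
open Bundle Manifold Set Filter Module

variable {E : Type} [NormedAddCommGroup E] [NormedSpace ℝ E] [FiniteDimensional ℝ E]
  {M : Type} [TopologicalSpace M] [ChartedSpace E M] [IsManifold 𝓘(ℝ, E) ∞ M]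

/-- `a` is an action of the group `P` on the manifold `M` by smooth maps. -/
structure SmoothAction (E : Type) [NormedAddCommGroup E] [NormedSpace ℝ E] {M : Type}
    [TopologicalSpace M] [ChartedSpace E M] {P : Type} [Group P] (a : P → M → M) : Prop where
  one : ∀ x, a 1 x = x
  mul : ∀ p q x, a (p * q) x = a p (a q x)
  smooth : ∀ p, ContMDiff 𝓘(ℝ, E) 𝓘(ℝ, E) ∞ (a p)

/-- `F` is an equivariant embedding into a Euclidean space, with `T` the orthogonal
representation. -/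
structure EquiEmb (E : Type) [NormedAddCommGroup E] [NormedSpace ℝ E] {M : Type}
    [TopologicalSpace M] [ChartedSpace E M] {P : Type} [Group P] (a : P → M → M)
    (W : Type) [NormedAddCommGroup W] [InnerProductSpace ℝ W] (F : M → W)
    (T : P → W →L[ℝ] W) : Prop where
  smooth : ContMDiff 𝓘(ℝ, E) 𝓘(ℝ, W) ∞ F
  inj : Function.Injective F
  imm : ∀ x, Function.Injective (mfderiv 𝓘(ℝ, E) 𝓘(ℝ, W) F x)
  isom : ∀ p v w, Inner.inner ℝ (T p v) (T p w) = Inner.inner ℝ v w
  equi : ∀ p x, F (a p x) = T p (F x)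
  one : ∀ v, T 1 v = v
  mul : ∀ p q v, T (p * q) v = T p (T q v)

theorem exists_equi [CompactSpace M] [T2Space M] {P : Type} [Group P] [Finite P] {a : P → M → M}
    (ha : SmoothAction E a) :
    ∃ (W : Type) (_ : NormedAddCommGroup W) (_ : InnerProductSpace ℝ W)
      (_ : FiniteDimensional ℝ W) (F : M → W) (T : P → W →L[ℝ] W), EquiEmb E a W F T := by
  classical
  have := Fintype.ofFinite P
  obtain ⟨N, e, he, hcl, himm⟩ := exists_embedding_euclidean_of_compact (I := 𝓘(ℝ, E)) (M := M)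
  let L := PiLp.continuousLinearEquiv 2 ℝ (fun _ : P => EuclideanSpace ℝ (Fin N))
  let F : M → PiLp 2 (fun _ : P => EuclideanSpace ℝ (Fin N)) :=
    fun x => L.symm (fun g => e (a g⁻¹ x))
  let T : P → (PiLp 2 (fun _ : P => EuclideanSpace ℝ (Fin N)) →L[ℝ]
      PiLp 2 (fun _ : P => EuclideanSpace ℝ (Fin N))) := fun p =>
    ((LinearIsometryEquiv.piLpCongrLeft 2 ℝ (EuclideanSpace ℝ (Fin N))
      (Equiv.mulLeft p)).toContinuousLinearEquiv :
        PiLp 2 (fun _ : P => EuclideanSpace ℝ (Fin N)) →L[ℝ]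
          PiLp 2 (fun _ : P => EuclideanSpace ℝ (Fin N)))
  have hT : ∀ p v g, (T p v) g = v (p⁻¹ * g) := by
    intro p v g
    rfl
  have hF : ∀ x g, (F x) g = e (a g⁻¹ x) := fun x g => rfl
  have hFs : ContMDiff 𝓘(ℝ, E) 𝓘(ℝ, PiLp 2 (fun _ : P => EuclideanSpace ℝ (Fin N))) ∞ F := by
    refine L.symm.contDiff.contMDiff.comp ?_
    rw [contMDiff_pi_space]
    intro g
    exact he.comp (ha.smooth g⁻¹)
  refine ⟨PiLp 2 (fun _ : P => EuclideanSpace ℝ (Fin N)), inferInstance, inferInstance,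
    inferInstance, F, T, hFs, ?_, ?_, ?_, ?_, ?_, ?_⟩
  · intro x y hxy
    have h1 : (F x) 1 = (F y) 1 := by rw [hxy]
    rw [hF, hF, inv_one, ha.one, ha.one] at h1
    exact hcl.injective h1
  · intro x v w hvw
    apply himm x
    let pr : PiLp 2 (fun _ : P => EuclideanSpace ℝ (Fin N)) →L[ℝ] EuclideanSpace ℝ (Fin N) :=
      (ContinuousLinearMap.proj (R := ℝ) (φ := fun _ : P => EuclideanSpace ℝ (Fin N)) 1).comp
        (L : PiLp 2 (fun _ : P => EuclideanSpace ℝ (Fin N)) →L[ℝ] _)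
    have e2 : e = pr ∘ F := by
      funext y
      show e y = (F y) 1
      rw [hF, inv_one, ha.one]
    have d3 : MDifferentiableAt 𝓘(ℝ, E) 𝓘(ℝ, PiLp 2 (fun _ : P => EuclideanSpace ℝ (Fin N))) F x :=
      (hFs x).mdifferentiableAt (by simp)
    have e3 := (pr.hasFDerivAt (x := F x)).hasMFDerivAt.comp x d3.hasMFDerivAt
    have e4 : ∀ u : E, (mfderiv 𝓘(ℝ, E) 𝓘(ℝ, EuclideanSpace ℝ (Fin N)) e x :
        E →L[ℝ] EuclideanSpace ℝ (Fin N)) u = pr ((mfderiv 𝓘(ℝ, E)
          𝓘(ℝ, PiLp 2 (fun _ : P => EuclideanSpace ℝ (Fin N))) F x :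
            E →L[ℝ] PiLp 2 (fun _ : P => EuclideanSpace ℝ (Fin N))) u) := by
      intro u
      have e5 : mfderiv 𝓘(ℝ, E) 𝓘(ℝ, EuclideanSpace ℝ (Fin N)) e x =
        mfderiv 𝓘(ℝ, E) 𝓘(ℝ, EuclideanSpace ℝ (Fin N)) (pr ∘ F) x := by rw [← e2]
      rw [e5]
      exact congrArg (fun A : E →L[ℝ] EuclideanSpace ℝ (Fin N) => A u) e3.mfderiv
    refine (e4 v).trans (Eq.trans ?_ (e4 w).symm)
    exact congrArg pr hvw
  · intro p v w
    exact (LinearIsometryEquiv.piLpCongrLeft 2 ℝ (EuclideanSpace ℝ (Fin N))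
      (Equiv.mulLeft p)).inner_map_map v w
  · intro p x
    ext1 g
    rw [hT, hF, hF, ← ha.mul, mul_inv_rev, inv_inv]
  · intro v
    ext1 g
    rw [hT, inv_one, one_mul]
  · intro p q v
    ext1 g
    rw [hT, hT, hT, mul_inv_rev, mul_assoc]

section metric

variable {P : Type} [Group P] {a : P → M → M} {W : Type} [NormedAddCommGroup W]
  [InnerProductSpace ℝ W] {F : M → W} {T : P → W →L[ℝ] W}

/-- the induced metric -/
noncomputable def EquiEmb.metric (h : EquiEmb E a W F T) : Y503.HC.Metric 𝓘(ℝ, E) M :=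
  Pool.Agent.H839R2.Geo.embMetric F h.smooth h.imm (fun _ => innerSL ℝ)
    (fun _ => contDiffAt_const) (fun _ v w => real_inner_comm w v)
    (fun _ _ hv => real_inner_self_pos.2 hv)

/-- the derivative of the embedding, as a linear map on the model space -/
noncomputable def DF (E : Type) [NormedAddCommGroup E] [NormedSpace ℝ E] {M : Type}
    [TopologicalSpace M] [ChartedSpace E M] {W : Type} [NormedAddCommGroup W]
    [InnerProductSpace ℝ W] (F : M → W) (x : M) : E →L[ℝ] W := mfderiv 𝓘(ℝ, E) 𝓘(ℝ, W) F x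

lemma EquiEmb.metric_apply (h : EquiEmb E a W F T) (x : M) (v w : E) :
    (h.metric.inner x : E →L[ℝ] E →L[ℝ] ℝ) v w = inner ℝ (DF E F x v) (DF E F x w) := rfl

lemma EquiEmb.D_act (h : EquiEmb E a W F T) (ha : SmoothAction E a) (p : P) (x : M) (v : E) :
    DF E F (a p x) (mfderiv 𝓘(ℝ, E) 𝓘(ℝ, E) (a p) x v : E) = T p (DF E F x v) := by
  have d1 : MDifferentiableAt 𝓘(ℝ, E) 𝓘(ℝ, W) F (a p x) :=
    (h.smooth _).mdifferentiableAt (by simp)
  have d2 : MDifferentiableAt 𝓘(ℝ, E) 𝓘(ℝ, E) (a p) x :=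
    (ha.smooth p x).mdifferentiableAt (by simp)
  have d3 : MDifferentiableAt 𝓘(ℝ, E) 𝓘(ℝ, W) F x := (h.smooth _).mdifferentiableAt (by simp)
  have e1 := mfderiv_comp x d1 d2
  have e2 : F ∘ a p = T p ∘ F := funext fun y => h.equi p y
  have e3 := ((T p).hasFDerivAt (x := F x)).hasMFDerivAt.comp x d3.hasMFDerivAt
  have e4 : (mfderiv 𝓘(ℝ, E) 𝓘(ℝ, W) (F ∘ a p) x : E →L[ℝ] W) v =
    DF E F (a p x) (mfderiv 𝓘(ℝ, E) 𝓘(ℝ, E) (a p) x v : E) :=
    congrArg (fun L : E →L[ℝ] W => L v) e1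
  have e5 : (mfderiv 𝓘(ℝ, E) 𝓘(ℝ, W) (T p ∘ F) x : E →L[ℝ] W) v =
    T p (DF E F x v) := congrArg (fun L : E →L[ℝ] W => L v) e3.mfderiv
  rw [← e4, e2, e5]

lemma EquiEmb.dist_le (h : EquiEmb E a W F T) (ha : SmoothAction E a) (p : P) (x y : M) :
    Y503.HC.dist h.metric (a p x) (a p y) ≤ Y503.HC.dist h.metric x y := by
  apply Y503.HC.dist_map_le h.metric h.metric (ha.smooth p)
  intro z v
  have h1 := h.metric_apply (a p z) (mfderiv 𝓘(ℝ, E) 𝓘(ℝ, E) (a p) z v : E)
    (mfderiv 𝓘(ℝ, E) 𝓘(ℝ, E) (a p) z v : E)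
  have h2 : DF E F (a p z) (mfderiv 𝓘(ℝ, E) 𝓘(ℝ, E) (a p) z v : E) = T p (DF E F z v) :=
    h.D_act ha p z v
  refine h1.trans ?_
  exact (congrArg₂ (fun u w : W => (Inner.inner ℝ u w : ℝ)) h2 h2).trans (h.isom p _ _)

lemma EquiEmb.dist_eq (h : EquiEmb E a W F T) (ha : SmoothAction E a) (p : P) (x y : M) :
    Y503.HC.dist h.metric (a p x) (a p y) = Y503.HC.dist h.metric x y := by
  apply le_antisymm (h.dist_le ha p x y)
  have h1 := h.dist_le ha p⁻¹ (a p x) (a p y)
  rwa [← ha.mul, ← ha.mul, inv_mul_cancel, ha.one, ha.one] at h1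

end metric

/-- **Counting.** If a finite group `P` acts smoothly on a closed connected manifold and the order
of every subgroup fixing a point divides `s`, then `|P|` divides `s * χ(M)`. -/
theorem smooth_dvd_euler [CompactSpace M] [T2Space M] [ConnectedSpace M] {P : Type} [Group P]
    [Finite P] {a : P → M → M} (ha : SmoothAction E a) (s : ℕ)
    (h : ∀ (x : M) (Q : Subgroup P), (∀ q ∈ Q, a q x = x) → Nat.card Q ∣ s) :
    (Nat.card P : ℤ) ∣ s * Pool.Agent.Helper381.eulerChar M := by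
  obtain ⟨W, _, _, _, F, T, hF⟩ := exists_equi ha
  let g := hF.metric
  obtain ⟨R, G⟩ := Q145.TN.exists_geo g
  let _ := Q145.TN.mS g
  let b : P →* (M ≃ᵢ M) :=
    { toFun := fun p =>
        { toFun := a p
          invFun := a p⁻¹
          left_inv := fun x => by rw [← ha.mul, inv_mul_cancel, ha.one]
          right_inv := fun x => by rw [← ha.mul, mul_inv_cancel, ha.one]
          isometry_toFun := fun x y => by
            show (Q145.TN.mS g).toPseudoMetricSpace.toPseudoEMetricSpace.edist _ _ =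
              (Q145.TN.mS g).toPseudoMetricSpace.toPseudoEMetricSpace.edist _ _
            rw [Q145.TN.edist_mS, Q145.TN.edist_mS]
            exact hF.dist_eq ha p x y }
      map_one' := by
        ext x
        exact ha.one x
      map_mul' := fun p q => by
        ext x
        exact ha.mul p q x }
  have : Nonempty M := inferInstance
  exact dvd_euler G b s (fun x Q hQ => h x Q fun q hq => hQ q hq)

end Pool.Agent.H185.ZM
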