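import Pool.Agent.H185.ZM.SLN

/-!
# `SL_n` of a Euclidean domain is generated by the elementary matrices
-/

set_option autoImplicit false

namespace Pool.Agent.H185.ZM

open Matrix

variable {n : ℕ} {R : Type}

section comm

variable [CommRing R]

lemma el_mulVec {i j : Fin n} (h : i ≠ j) (c : R) (v : Fin n → R) :
    ((el h c : Matrix.SpecialLinearGroup (Fin n) R) : Matrix (Fin n) (Fin n) R) *ᵥ v =
      Function.update v i (v i + c * v j) := by
  rw [el_coe, add_mulVec, one_mulVec]
  funext k
  rw [Pi.add_apply, single_mulVec]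
  by_cases hk : k = i
  · subst hk; simp
  · rw [Function.update_of_ne hk]
    simp [hk]

/-- the elementary matrices with column index at most `r` -/
def HH (R : Type) [CommRing R] (r : Fin n) : Subgroup (Matrix.SpecialLinearGroup (Fin n) R) :=
  Subgroup.closure {g | ∃ (i j : Fin n) (h : i ≠ j) (c : R), j ≤ r ∧ el h c = g}

/-- the elementary group -/
def EE (n : ℕ) (R : Type) [CommRing R] : Subgroup (Matrix.SpecialLinearGroup (Fin n) R) :=
  Subgroup.closure {g | ∃ (i j : Fin n) (h : i ≠ j) (c : R), el h c = g}

lemma HH_le (r : Fin n) : HH R r ≤ EE n R :=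
  Subgroup.closure_mono (by rintro _ ⟨i, j, h, c, _, rfl⟩; exact ⟨i, j, h, c, rfl⟩)

lemma el_mem_HH {r i j : Fin n} (h : i ≠ j) (c : R) (hj : j ≤ r) : el h c ∈ HH R r :=
  Subgroup.subset_closure ⟨i, j, h, c, hj, rfl⟩

lemma mul_mulVec' (g h : Matrix.SpecialLinearGroup (Fin n) R) (v : Fin n → R) :
    ((g * h : Matrix.SpecialLinearGroup (Fin n) R) : Matrix (Fin n) (Fin n) R) *ᵥ v =
      (g : Matrix (Fin n) (Fin n) R) *ᵥ ((h : Matrix (Fin n) (Fin n) R) *ᵥ v) := by
  rw [Matrix.SpecialLinearGroup.coe_mul, mulVec_mulVec]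

lemma HH_fix {r : Fin n} {g : Matrix.SpecialLinearGroup (Fin n) R} (hg : g ∈ HH R r) :
    ∀ l, r < l → (g : Matrix (Fin n) (Fin n) R) *ᵥ (Pi.single l 1) = Pi.single l 1 := by
  unfold HH at hg
  induction hg using Subgroup.closure_induction with
  | mem x hx =>
    obtain ⟨i, j, h, c, hj, rfl⟩ := hx
    intro l hl
    have hjl : j ≠ l := fun h => absurd hl (not_lt.2 (h ▸ hj))
    rw [el_mulVec, Pi.single_eq_of_ne hjl, mul_zero, add_zero,
      Function.update_eq_self]
  | one => intro l _; rw [Matrix.SpecialLinearGroup.coe_one, one_mulVec]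
  | mul x y _ _ hx hy => intro l hl; rw [mul_mulVec', hy l hl, hx l hl]
  | inv x _ hx =>
    intro l hl
    conv_lhs => rw [← hx l hl]
    rw [← mul_mulVec', inv_mul_cancel, Matrix.SpecialLinearGroup.coe_one, one_mulVec]

lemma swap_pair {r i j : Fin n} (hij : i ≠ j) (hi : i ≤ r) (hj : j ≤ r) (v : Fin n → R) (g : R) :
    ∃ h ∈ HH R r, (h : Matrix (Fin n) (Fin n) R) *ᵥ (Function.update (Function.update v i 0) j g) =
      Function.update (Function.update v j 0) i g := by
  refine ⟨el hij.symm (-1) * el hij 1, mul_mem (el_mem_HH _ _ hi) (el_mem_HH _ _ hj), ?_⟩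
  rw [mul_mulVec', el_mulVec, el_mulVec]
  funext k
  by_cases hki : k = i
  · subst hki
    simp [hij, hij.symm]
  · by_cases hkj : k = j
    · subst hkj
      simp [hki, Function.update_of_ne hij]
    · simp [hki, hkj]

end comm

section euclid

variable [EuclideanDomain R]

lemma pair_reduce (r : Fin n) (a b : R) : ∀ (i j : Fin n), i ≠ j → i ≤ r → j ≤ r →
    ∀ v : Fin n → R, v i = a → v j = b →
      ∃ h ∈ HH R r, ∃ g : R, (h : Matrix (Fin n) (Fin n) R) *ᵥ v =
        Function.update (Function.update v i 0) j g := by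
  classical
  refine EuclideanDomain.GCD.induction (P := fun a b => ∀ (i j : Fin n), i ≠ j → i ≤ r → j ≤ r →
    ∀ v : Fin n → R, v i = a → v j = b →
      ∃ h ∈ HH R r, ∃ g : R, (h : Matrix (Fin n) (Fin n) R) *ᵥ v =
        Function.update (Function.update v i 0) j g) a b ?_ ?_
  · intro x i j hij _ _ v hi hj
    refine ⟨1, one_mem _, v j, ?_⟩
    rw [Matrix.SpecialLinearGroup.coe_one, one_mulVec]
    have h1 : Function.update v i 0 = v := by rw [← hi, Function.update_eq_self]
    rw [h1, Function.update_eq_self]
  · intro a b ha ih i j hij hi hj v hvi hvj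
    have h1 := el_mulVec hij.symm (-(b / a)) v
    have h2 : v j + -(b / a) * v i = b % a := by
      rw [hvi, hvj]
      have := EuclideanDomain.div_add_mod b a
      linear_combination -this
    rw [h2] at h1
    obtain ⟨h, hh, g, hg⟩ := ih j i hij.symm hj hi (Function.update v j (b % a)) (by simp)
      (by rw [Function.update_of_ne hij, hvi])
    obtain ⟨h', hh', hg'⟩ := swap_pair (R := R) hij.symm hj hi v g
    refine ⟨h' * (h * el hij.symm (-(b / a))), mul_mem hh' (mul_mem hh (el_mem_HH _ _ hi)), g, ?_⟩
    rw [mul_mulVec', mul_mulVec', h1, hg, Function.update_idem, hg']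

/-- clearing the coordinates below `r` -/
lemma clear_low (r : Fin n) (T : Finset (Fin n)) (hT : ∀ k ∈ T, k < r) (v : Fin n → R) :
    ∃ h ∈ HH R r, ∀ k ∈ T, ((h : Matrix (Fin n) (Fin n) R) *ᵥ v) k = 0 := by
  classical
  induction T using Finset.induction_on with
  | empty => exact ⟨1, one_mem _, by simp⟩
  | insert k T hkT ih =>
    obtain ⟨h, hh, h1⟩ := ih (fun k hk => hT k (Finset.mem_insert_of_mem hk))
    have hkr := hT k (Finset.mem_insert_self _ _)
    obtain ⟨h', hh', g, h2⟩ := pair_reduce r _ _ k r hkr.ne hkr.le le_rfl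
      ((h : Matrix (Fin n) (Fin n) R) *ᵥ v) rfl rfl
    refine ⟨h' * h, mul_mem hh' hh, ?_⟩
    intro l hl
    rw [mul_mulVec', h2]
    rcases Finset.mem_insert.1 hl with rfl | hl
    · rw [Function.update_of_ne hkr.ne, Function.update_self]
    · have hlr := (hT l (Finset.mem_insert_of_mem hl)).ne
      have hlk : l ≠ k := fun h => hkT (h ▸ hl)
      rw [Function.update_of_ne hlr, Function.update_of_ne hlk]
      exact h1 l hl

end euclid

section comm2

variable [CommRing R]

/-- clearing the coordinates above `r` -/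
lemma clear_high (r : Fin n) (T : Finset (Fin n)) (hT : ∀ k ∈ T, r < k) (v : Fin n → R)
    (hv : v r = 1) :
    ∃ h ∈ HH R r, (∀ k ∈ T, ((h : Matrix (Fin n) (Fin n) R) *ᵥ v) k = 0) ∧
      ∀ k ≤ r, ((h : Matrix (Fin n) (Fin n) R) *ᵥ v) k = v k := by
  classical
  induction T using Finset.induction_on with
  | empty => exact ⟨1, one_mem _, by simp, by simp⟩
  | insert k T hkT ih =>
    obtain ⟨h, hh, h1, h3⟩ := ih (fun k hk => hT k (Finset.mem_insert_of_mem hk))
    have hkr := hT k (Finset.mem_insert_self _ _)
    have h2 := el_mulVec hkr.ne' (-(((h : Matrix (Fin n) (Fin n) R) *ᵥ v) k))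
      ((h : Matrix (Fin n) (Fin n) R) *ᵥ v)
    rw [h3 r le_rfl, hv, mul_one, add_neg_cancel] at h2
    refine ⟨el hkr.ne' (-(((h : Matrix (Fin n) (Fin n) R) *ᵥ v) k)) * h,
      mul_mem (el_mem_HH _ _ le_rfl) hh, ?_, ?_⟩
    · intro l hl
      rw [mul_mulVec', h2]
      rcases Finset.mem_insert.1 hl with rfl | hl
      · rw [Function.update_self]
      · have hlk : l ≠ k := fun h => hkT (h ▸ hl)
        rw [Function.update_of_ne hlk]
        exact h1 l hl
    · intro l hl
      rw [mul_mulVec', h2, Function.update_of_ne (lt_of_le_of_lt hl hkr).ne]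
      exact h3 l hl

end comm2

/-- the condition that the columns after `r` are standard -/
def StdCols [CommRing R] (r : ℕ) (A : Matrix.SpecialLinearGroup (Fin n) R) : Prop :=
  ∀ l : Fin n, r ≤ l.val → (A : Matrix (Fin n) (Fin n) R) *ᵥ (Pi.single l 1) = Pi.single l 1

theorem std_mem [EuclideanDomain R] : ∀ (r : ℕ) (A : Matrix.SpecialLinearGroup (Fin n) R),
    StdCols r A → A ∈ EE n R := by
  classical
  intro r
  induction r with
  | zero =>
    intro A hA
    have h1 : A = 1 := by
      apply Subtype.ext
      ext i j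
      have h2 := congrFun (hA j (Nat.zero_le _)) i
      rw [mulVec_single_one, col_apply] at h2
      rw [h2, Matrix.SpecialLinearGroup.coe_one, Matrix.one_apply, Pi.single_apply]
    rw [h1]; exact one_mem _
  | succ r ih =>
    intro A hA
    by_cases hrn : n ≤ r
    · exact ih A (fun l hl => absurd l.2 (by omega))
    push Not at hrn
    let r' : Fin n := ⟨r, hrn⟩
    -- it is enough to move the column to the standard one
    suffices h : ∃ h ∈ HH R r', (h : Matrix (Fin n) (Fin n) R) *ᵥ
        ((A : Matrix (Fin n) (Fin n) R) *ᵥ (Pi.single r' 1)) = Pi.single r' 1 by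
      obtain ⟨h, hh, h1⟩ := h
      have h2 : h * A ∈ EE n R := by
        apply ih
        intro l hl
        rw [mul_mulVec']
        rcases Nat.eq_or_lt_of_le hl with h3 | h3
        · have : l = r' := Fin.ext h3.symm
          rw [this, h1]
        · rw [hA l h3]
          exact HH_fix hh l h3
      have h3 := mul_mem (inv_mem (HH_le r' hh)) h2
      rwa [inv_mul_cancel_left] at h3
    -- clear the low coordinates
    obtain ⟨h, hh, h1⟩ := clear_low r' (Finset.univ.filter (· < r'))
      (fun k hk => (Finset.mem_filter.1 hk).2)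
      ((A : Matrix (Fin n) (Fin n) R) *ᵥ (Pi.single r' 1))
    set B := h * A with hB
    have hBstd : StdCols (r + 1) B := by
      intro l hl
      rw [hB, mul_mulVec', hA l hl]
      exact HH_fix hh l hl
    set w := (B : Matrix (Fin n) (Fin n) R) *ᵥ (Pi.single r' 1) with hw
    have hwlow : ∀ k, k < r' → w k = 0 := by
      intro k hk
      rw [hw, hB, mul_mulVec']
      exact h1 k (Finset.mem_filter.2 ⟨Finset.mem_univ _, hk⟩)
    -- unit
    have hunit : ∃ c, c * w r' = 1 := by
      refine ⟨((B⁻¹ : Matrix.SpecialLinearGroup (Fin n) R) : Matrix (Fin n) (Fin n) R) r' r', ?_⟩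
      have h2 : ((B⁻¹ : Matrix.SpecialLinearGroup (Fin n) R) : Matrix (Fin n) (Fin n) R) *ᵥ w =
          Pi.single r' 1 := by
        rw [hw, ← mul_mulVec', inv_mul_cancel, Matrix.SpecialLinearGroup.coe_one, one_mulVec]
      have h3 := congrFun h2 r'
      rw [mulVec, dotProduct, Finset.sum_eq_single r', Pi.single_eq_same] at h3
      · exact h3
      · intro k _ hk
        rcases lt_or_gt_of_ne hk with hk | hk
        · rw [hwlow k hk, mul_zero]
        · have h4 : ((B⁻¹ : Matrix.SpecialLinearGroup (Fin n) R) : Matrix (Fin n) (Fin n) R) *ᵥ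
              (Pi.single k 1) = Pi.single k 1 := by
            conv_lhs => rw [← hBstd k hk]
            rw [← mul_mulVec', inv_mul_cancel, Matrix.SpecialLinearGroup.coe_one, one_mulVec]
          have h5 := congrFun h4 r'
          rw [mulVec_single_one, col_apply, Pi.single_eq_of_ne hk.ne] at h5
          rw [h5, zero_mul]
      · intro h; exact absurd (Finset.mem_univ _) h
    obtain ⟨c, hc⟩ := hunit
    -- make the entry one
    have hone : ∃ h' ∈ HH R r', ((h' : Matrix (Fin n) (Fin n) R) *ᵥ w) r' = 1 ∧
        ∀ k, k < r' → ((h' : Matrix (Fin n) (Fin n) R) *ᵥ w) k = 0 := by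
      rcases Nat.eq_zero_or_pos r with hr0 | hrpos
      · refine ⟨1, one_mem _, ?_, ?_⟩
        · rw [Matrix.SpecialLinearGroup.coe_one, one_mulVec]
          have hdet : (B : Matrix (Fin n) (Fin n) R).det = 1 := B.2
          have htri : (B : Matrix (Fin n) (Fin n) R).BlockTriangular OrderDual.toDual := by
            intro i j hij
            have hij' : i < j := hij
            have hj : r + 1 ≤ j.val := by
              have : i.val < j.val := hij'
              omega
            have h5 := congrFun (hBstd j hj) i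
            rw [mulVec_single_one, col_apply, Pi.single_eq_of_ne hij'.ne] at h5
            exact h5
          rw [det_of_lowerTriangular _ htri, Finset.prod_eq_single r'] at hdet
          · rw [hw, mulVec_single_one, col_apply]
            exact hdet
          · intro j _ hj
            have hj' : r + 1 ≤ j.val := by
              have : j.val ≠ r := fun h => hj (Fin.ext h)
              omega
            have h5 := congrFun (hBstd j hj') j
            rw [mulVec_single_one, col_apply, Pi.single_eq_same] at h5
            exact h5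
          · intro h; exact absurd (Finset.mem_univ _) h
        · intro k hk
          exact absurd (show k.val < r from hk) (by omega)
      · let o : Fin n := ⟨0, by omega⟩
        have hor : o ≠ r' := fun h => by
          have := congrArg Fin.val h
          simp [o, r'] at this
          omega
        have hole : o ≤ r' := Nat.zero_le _
        have hw0 : w o = 0 := hwlow o (lt_of_le_of_ne hole hor)
        refine ⟨el hor (-1) * (el hor.symm (1 - w r') * el hor c),
          mul_mem (el_mem_HH _ _ le_rfl) (mul_mem (el_mem_HH _ _ hole) (el_mem_HH _ _ le_rfl)),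
          ?_, ?_⟩
        · rw [mul_mulVec', mul_mulVec', el_mulVec, el_mulVec, el_mulVec]
          simp [hor, hor.symm, hw0, hc]
        · intro k hk
          rw [mul_mulVec', mul_mulVec', el_mulVec, el_mulVec, el_mulVec]
          by_cases hko : k = o
          · subst hko
            simp [hor, hor.symm, hw0, hc]
          · rw [Function.update_of_ne hko, Function.update_of_ne hk.ne, Function.update_of_ne hko]
            exact hwlow k hk
    obtain ⟨h', hh', h2, h3⟩ := hone
    obtain ⟨h'', hh'', h4, h5⟩ := clear_high r' (Finset.univ.filter (r' < ·))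
      (fun k hk => (Finset.mem_filter.1 hk).2) _ h2
    refine ⟨h'' * (h' * h), mul_mem hh'' (mul_mem hh' hh), ?_⟩
    rw [mul_mulVec', mul_mulVec', ← mul_mulVec' h A]
    funext k
    rcases lt_trichotomy k r' with hk | hk | hk
    · rw [Pi.single_eq_of_ne hk.ne, h5 k hk.le, h3 k hk]
    · subst hk
      rw [Pi.single_eq_same, h5 _ le_rfl, h2]
    · rw [Pi.single_eq_of_ne hk.ne']
      exact h4 k (Finset.mem_filter.2 ⟨Finset.mem_univ _, hk⟩)

/-- **`SL_n` of a Euclidean domain is generated by the elementary matrices.** -/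
theorem EE_eq_top [EuclideanDomain R] : EE n R = ⊤ := by
  rw [eq_top_iff]
  intro A _
  exact std_mem n A (fun l hl => absurd l.2 (by omega))

end Pool.Agent.H185.ZM
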