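import Pool.Agent.H185.ZM.Quat

/-!
# Powers of the quaternion group of order eight acting on closed manifolds
-/

set_option autoImplicit false

namespace Pool.Agent.H185.ZM

open Module

/-- the quaternion group of order eight -/
abbrev Q8 := QuaternionGroup 2

/-- the central involution of `Q8` -/
def q8z : Q8 := QuaternionGroup.a 2

lemma q8_sq : ∀ q : Q8, q * q = 1 ∨ q * q = q8z := by decide
lemma q8_one : ∀ q : Q8, q * q = 1 → q = 1 ∨ q = q8z := by decide
lemma q8_z : ∀ q : Q8, q8z * q = q * q8z := by decide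
lemma q8_zz : q8z * q8z = 1 := by decide

/-- the quotient of `Q8` by its centre -/
def q8p : Q8 →* Multiplicative (ZMod 2) × Multiplicative (ZMod 2) where
  toFun q := match q with
    | QuaternionGroup.a i => (Multiplicative.ofAdd (i.val : ZMod 2), Multiplicative.ofAdd 0)
    | QuaternionGroup.xa i => (Multiplicative.ofAdd (i.val : ZMod 2), Multiplicative.ofAdd 1)
  map_one' := by decide
  map_mul' := by decide

lemma q8p_ker : ∀ q : Q8, q8p q = 1 → q * q = 1 := by decide

section

variable {n : ℕ}

/-- the power of `Q8` -/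
abbrev PQ (n : ℕ) := Fin n → Q8

/-- the elements of square one in a subgroup -/
def CQ (H : Subgroup (PQ n)) : Subgroup H where
  carrier := {g | ∀ i, (g : PQ n) i = 1 ∨ (g : PQ n) i = q8z}
  one_mem' := fun i => Or.inl rfl
  mul_mem' := fun {x y} hx hy i => by
    show (x : PQ n) i * (y : PQ n) i = 1 ∨ (x : PQ n) i * (y : PQ n) i = q8z
    rcases hx i with h | h <;> rcases hy i with h' | h' <;> rw [h, h']
    · left; exact one_mul _
    · right; exact one_mul _
    · right; exact mul_one _
    · left; exact q8_zz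
  inv_mem' := fun {x} hx i => by
    show ((x : PQ n) i)⁻¹ = 1 ∨ ((x : PQ n) i)⁻¹ = q8z
    rcases hx i with h | h <;> rw [h]
    · left; exact inv_one
    · right; exact inv_eq_of_mul_eq_one_right q8_zz

lemma sqC (H : Subgroup (PQ n)) : SqC (CQ H) where
  comm := fun c hc g => by
    apply Subtype.ext
    funext i
    show (c : PQ n) i * (g : PQ n) i = (g : PQ n) i * (c : PQ n) i
    rcases hc i with h | h <;> rw [h]
    · rw [one_mul, mul_one]
    · exact q8_z _
  two := fun c hc => by
    apply Subtype.ext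
    funext i
    show (c : PQ n) i * (c : PQ n) i = 1
    rcases hc i with h | h <;> rw [h]
    · exact one_mul _
    · exact q8_zz
  sq := fun g i => q8_sq _

lemma mem_CQ_of_sq {H : Subgroup (PQ n)} {g : H} (h : g * g = 1) : g ∈ CQ H := fun i =>
  q8_one _ (congrFun (congrArg Subtype.val h) i)

/-- information sets -/
theorem info {H : Subgroup (PQ n)} (m : ℕ) : ∀ B : Subgroup H, Nat.card B = m →
    ∃ J : Finset (Fin n), 2 ^ J.card ≤ m ∧ ∀ b ∈ B, (∀ i ∈ J, (b : PQ n) i = 1) → b = 1 := by
  classical
  induction m using Nat.strong_induction_on with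
  | _ m ih =>
  intro B hB
  by_cases hbot : ∀ b ∈ B, b = 1
  · refine ⟨∅, ?_, fun b hb _ => hbot b hb⟩
    rw [Finset.card_empty, pow_zero, ← hB]
    exact Nat.card_pos
  · push Not at hbot
    obtain ⟨b0, hb0, hne⟩ := hbot
    obtain ⟨i, hi⟩ : ∃ i, (b0 : PQ n) i ≠ 1 := by
      by_contra hcon
      push Not at hcon
      exact hne (Subtype.ext (funext hcon))
    let ev : H →* Q8 := (Pi.evalMonoidHom (fun _ : Fin n => Q8) i).comp H.subtype
    let B1 : Subgroup H := B ⊓ ev.ker
    have hle : B1 ≤ B := inf_le_left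
    have hdvd : Nat.card B1 ∣ Nat.card B := Subgroup.card_dvd_of_le hle
    have hne' : Nat.card B1 ≠ Nat.card B := by
      intro h
      have h1 : B1 = B := Subgroup.eq_of_le_of_card_ge hle h.ge
      have h2 : b0 ∈ B1 := by rw [h1]; exact hb0
      exact hi h2.2
    obtain ⟨c, hc⟩ := hdvd
    have hpos : 0 < Nat.card B1 := Nat.card_pos
    have hposB : 0 < Nat.card B := Nat.card_pos
    have hc2 : 2 ≤ c := by
      rcases Nat.lt_or_ge c 2 with h | h
      · interval_cases c
        · omega
        · omega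
      · exact h
    have h2 : 2 * Nat.card B1 ≤ m := by
      rw [← hB, hc, mul_comm]
      exact Nat.mul_le_mul_left _ hc2
    obtain ⟨J, hJ1, hJ2⟩ := ih (Nat.card B1) (by omega) B1 rfl
    refine ⟨insert i J, ?_, ?_⟩
    · calc 2 ^ (insert i J).card ≤ 2 ^ (J.card + 1) :=
            Nat.pow_le_pow_right (by norm_num) (Finset.card_insert_le _ _)
        _ = 2 * 2 ^ J.card := by rw [pow_succ, mul_comm]
        _ ≤ 2 * Nat.card B1 := Nat.mul_le_mul_left _ hJ1
        _ ≤ m := h2
    · intro b hb hbJ
      refine hJ2 b ⟨hb, ?_⟩ (fun j hj => hbJ j (Finset.mem_insert_of_mem hj))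
      show (b : PQ n) i = 1
      exact hbJ i (Finset.mem_insert_self _ _)

/-- the number of elements in a subgroup whose squares lie in a small subgroup -/
theorem card_of_sq {H : Subgroup (PQ n)} (G' B' : Subgroup H) (hs : ∀ g ∈ G', g * g ∈ B') :
    Nat.card G' ≤ 2 ^ n * (Nat.card B') ^ 2 := by
  classical
  obtain ⟨J, hJ1, hJ2⟩ := info _ B' rfl
  let π : G' →* (J → Multiplicative (ZMod 2) × Multiplicative (ZMod 2)) :=
    { toFun := fun g j => q8p (((g : H) : PQ n) j)
      map_one' := by
        funext j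
        exact map_one q8p
      map_mul' := fun x y => by
        funext j
        exact map_mul q8p _ _ }
  have h1 : Nat.card π.ker ≤ 2 ^ n := by
    have h2 : Nat.card π.ker ≤ Nat.card (Fin n → Bool) := by
      apply Nat.card_le_card_of_injective
        (fun g : π.ker => fun i => decide ((((g : G') : H) : PQ n) i = 1))
      intro x y hxy
      have hmem : ∀ g : π.ker, ((g : G') : H) ∈ CQ H := by
        intro g
        apply mem_CQ_of_sq
        apply hJ2 _ (hs _ (g : G').2)
        intro i hi
        have h3 : π (g : G') = 1 := g.2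
        have h4 : q8p ((((g : G') : H) : PQ n) i) = 1 := congrFun h3 ⟨i, hi⟩
        exact q8p_ker _ h4
      apply Subtype.ext
      apply Subtype.ext
      apply Subtype.ext
      funext i
      have h3 : decide ((((x : G') : H) : PQ n) i = 1) = decide ((((y : G') : H) : PQ n) i = 1) :=
        congrFun hxy i
      rw [decide_eq_decide] at h3
      have hz : q8z ≠ 1 := by decide
      rcases hmem x i with h4 | h4 <;> rcases hmem y i with h5 | h5
      · exact h4.trans h5.symm
      · have := h3.1 h4
        rw [h5] at this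
        exact absurd this hz
      · have := h3.2 h5
        rw [h4] at this
        exact absurd this hz
      · exact h4.trans h5.symm
    refine h2.trans ?_
    simp
  have h2 : Nat.card π.range ≤ 4 ^ J.card := by
    have h3 : Nat.card π.range ≤
        Nat.card (J → Multiplicative (ZMod 2) × Multiplicative (ZMod 2)) :=
      Nat.card_le_card_of_injective _ Subtype.val_injective
    refine h3.trans ?_
    simp
  have h3 : Nat.card G' = Nat.card π.ker * Nat.card π.range := by
    rw [← Subgroup.card_mul_index π.ker, Subgroup.index_ker]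
  rw [h3]
  refine Nat.mul_le_mul h1 (h2.trans ?_)
  have h4 : (4 : ℕ) ^ J.card = (2 ^ J.card) ^ 2 := by
    rw [← pow_mul, mul_comm, pow_mul]
    norm_num
  rw [h4]
  exact Nat.pow_le_pow_left hJ1 2

/-- **The linear bound.** -/
theorem card_Q8_le (H : Subgroup (PQ n)) {V : Type} [AddCommGroup V] [Module ℝ V]
    [FiniteDimensional ℝ V] (ρ : H →* (V →ₗ[ℝ] V))
    (hker : ∀ h : H, ρ h = 1 → h = 1 ∨ (h : PQ n) = fun _ => q8z) :
    Nat.card H ≤ 2 ^ (n + 2 + finrank ℝ V / 2) := by
  classical
  obtain ⟨t, b, G', B', h1, h2, h3, h4, h5⟩ := struct (G := H) _ V (CQ H) (sqC H) ρ rfl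
  have hk : Nat.card (ρ.ker.subgroupOf B') ≤ 2 := by
    have h6 : Nat.card (ρ.ker.subgroupOf B') ≤ Nat.card ({1, fun _ => q8z} : Set (PQ n)) := by
      apply Nat.card_le_card_of_injective
        (fun g : ρ.ker.subgroupOf B' => (⟨(((g : B') : H) : PQ n), by
          have h7 : ρ ((g : B') : H) = 1 := g.2
          rcases hker _ h7 with h | h
          · left; rw [h]; rfl
          · right; exact h⟩ : ({1, fun _ => q8z} : Set (PQ n))))
      intro x y hxy
      have h8 := congrArg Subtype.val hxy
      exact Subtype.ext (Subtype.ext (Subtype.ext h8))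
    refine h6.trans ?_
    have h7 := Set.ncard_insert_le (1 : PQ n) {fun _ => q8z}
    rw [Set.ncard_singleton] at h7
    exact h7
  have hB' : Nat.card B' ≤ 2 ^ (b + 1) := by
    have h6 : Nat.card (ρ.ker.subgroupOf B') * ρ.ker.relIndex B' = Nat.card B' :=
      Subgroup.card_mul_index _
    rw [← h6, pow_succ, mul_comm]
    exact Nat.mul_le_mul h4 hk
  have hG' := card_of_sq G' B' h3
  have hH : Nat.card H = Nat.card G' * G'.index := (Subgroup.card_mul_index _).symm
  calc Nat.card H = Nat.card G' * G'.index := hH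
    _ ≤ (2 ^ n * (2 ^ (b + 1)) ^ 2) * 2 ^ t :=
        Nat.mul_le_mul (hG'.trans (Nat.mul_le_mul_left _ (Nat.pow_le_pow_left hB' 2))) h1
    _ = 2 ^ (n + 2 + (2 * b + t)) := by
        rw [← pow_mul, ← pow_add, ← pow_add]
        congr 1
        ring
    _ ≤ 2 ^ (n + 2 + finrank ℝ V / 2) := Nat.pow_le_pow_right (by norm_num) (by omega)

end

section manifold

open scoped Manifold ContDiff

variable {E : Type} [NormedAddCommGroup E] [NormedSpace ℝ E] [FiniteDimensional ℝ E]
  {M : Type} [TopologicalSpace M] [ChartedSpace E M] [IsManifold 𝓘(ℝ, E) ∞ M]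

lemma isPGroup_Q8 (n : ℕ) : IsPGroup 2 (PQ n) := fun g => ⟨2, by
  funext i
  have : ∀ q : Q8, q ^ 4 = 1 := by decide
  exact this _⟩

/-- **The counting theorem for powers of `Q8`.** -/
theorem q8_dvd [CompactSpace M] [T2Space M] [ConnectedSpace M] {n : ℕ} {a : PQ n → M → M}
    (ha : SmoothAction E a)
    (hker : ∀ p : PQ n, (∀ y, a p y = y) → p = 1 ∨ p = fun _ => q8z) :
    (2 : ℤ) ^ (3 * n) ∣ 2 ^ (n + 2 + finrank ℝ E / 2) * Pool.Agent.Helper381.eulerChar M := by
  classical
  have hp2 : Fact (Nat.Prime 2) := ⟨Nat.prime_two⟩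
  let K := actKer ha
  let b : PQ n ⧸ K → M → M := fun x y => Quotient.liftOn' x (fun q => a q y) (fun q r h => by
    rw [QuotientGroup.leftRel_apply] at h
    have h1 := h y
    show a q y = a r y
    conv_lhs => rw [← h1]
    rw [← ha.mul, mul_inv_cancel_left])
  have hb1 : SmoothAction E b :=
    { one := fun y => ha.one y
      mul := fun x q y => by
        refine QuotientGroup.induction_on x fun x => QuotientGroup.induction_on q fun q => ?_
        exact ha.mul x q y
      smooth := fun x => by
        refine QuotientGroup.induction_on x fun x => ?_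
        exact ha.smooth x }
  have hfaith : ∀ x, (∀ y, b x y = y) → x = 1 := fun x hx => by
    induction x using QuotientGroup.induction_on with
    | _ x =>
      rw [QuotientGroup.eq_one_iff]
      exact hx
  obtain ⟨κ, hκ⟩ := IsPGroup.iff_card.1 ((isPGroup_Q8 n).to_subgroup K)
  have hcardP : Nat.card (PQ n) = 2 ^ (3 * n) := by
    rw [Nat.card_fun, Nat.card_eq_fintype_card (α := Q8), Nat.card_eq_fintype_card (α := Fin n),
      Fintype.card_fin]
    have : Fintype.card Q8 = 2 ^ 3 := by decide
    rw [this, pow_mul]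
  have hκ1 : κ ≤ 1 := by
    have h1 : Nat.card K ≤ Nat.card ({1, fun _ => q8z} : Set (PQ n)) :=
      Nat.card_le_card_of_injective
        (fun g : K => (⟨(g : PQ n), by
          rcases hker _ g.2 with h | h
          · left; exact h
          · right; exact h⟩ : ({1, fun _ => q8z} : Set (PQ n))))
        (fun x y hxy => by
          have h8 := congrArg Subtype.val hxy
          exact Subtype.ext h8)
    have h2 := Set.ncard_insert_le (1 : PQ n) {fun _ => q8z}
    rw [Set.ncard_singleton] at h2
    have h3 : Nat.card K ≤ 2 ^ 1 := h1.trans h2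
    rw [hκ] at h3
    exact (Nat.pow_le_pow_iff_right (by norm_num)).1 h3
  have h1 := smooth_dvd_euler hb1 (2 ^ (n + 2 + finrank ℝ E / 2 - κ)) (fun x Q hQ => by
    obtain ⟨V, _, _, _, ρ, hV, hρ⟩ := exists_isotropy hb1 hfaith x Q hQ
    let H : Subgroup (PQ n) := Q.comap (QuotientGroup.mk' K)
    let φ : H →* Q := (QuotientGroup.mk' K).subgroupComap Q
    have hφ : Function.Surjective φ :=
      MonoidHom.subgroupComap_surjective_of_surjective _ _ (QuotientGroup.mk'_surjective K)
    have h2 := card_Q8_le H (ρ.comp φ) (fun h hh => by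
      have h3 : φ h = 1 := hρ (by rw [map_one]; exact hh)
      have h4 : ((h : PQ n) : PQ n ⧸ K) = 1 := congrArg Subtype.val h3
      rw [QuotientGroup.eq_one_iff] at h4
      rcases hker _ h4 with h5 | h5
      · left; exact Subtype.ext h5
      · right; exact h5)
    have h3 : Nat.card H = Nat.card Q * 2 ^ κ := by
      have hkφ : Nat.card φ.ker = 2 ^ κ := by
        rw [← hκ]
        apply Nat.card_congr
        refine ⟨fun g => ⟨(g : H), ?_⟩, fun g => ⟨⟨(g : PQ n), ?_⟩, ?_⟩, fun g => rfl, fun g => rfl⟩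
        · have h4 : φ (g : H) = 1 := g.2
          have h5 : (((g : H) : PQ n) : PQ n ⧸ K) = 1 := congrArg Subtype.val h4
          rwa [QuotientGroup.eq_one_iff] at h5
        · show ((g : PQ n) : PQ n ⧸ K) ∈ Q
          rw [(QuotientGroup.eq_one_iff _).2 g.2]
          exact Q.one_mem
        · show φ _ = 1
          apply Subtype.ext
          exact (QuotientGroup.eq_one_iff _).2 g.2
      rw [← Subgroup.card_mul_index φ.ker, Subgroup.index_ker, hkφ, mul_comm]
      congr 1
      rw [MonoidHom.range_eq_top.2 hφ]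
      exact Nat.card_congr Subgroup.topEquiv.toEquiv
    obtain ⟨q, hq⟩ := IsPGroup.iff_card.1 (((isPGroup_Q8 n).to_quotient K).to_subgroup Q)
    rw [hV, h3, hq, ← pow_add] at h2
    have h4 := (Nat.pow_le_pow_iff_right (by norm_num)).1 h2
    rw [hq]
    exact Nat.pow_dvd_pow 2 (by omega))
  have h2 : Nat.card (PQ n ⧸ K) * 2 ^ κ = 2 ^ (3 * n) := by
    rw [← hcardP, ← Subgroup.card_mul_index K, hκ, mul_comm]
    rfl
  have h3 : ((2 : ℤ) ^ (3 * n)) = (Nat.card (PQ n ⧸ K) : ℤ) * 2 ^ κ := by
    exact_mod_cast h2.symm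
  rw [h3]
  have h4 : (2 : ℤ) ^ (n + 2 + finrank ℝ E / 2) = 2 ^ (n + 2 + finrank ℝ E / 2 - κ) * 2 ^ κ := by
    rw [← pow_add]
    congr 1
    omega
  rw [h4]
  have h5 := mul_dvd_mul_right h1 ((2 : ℤ) ^ κ)
  have h6 : (2 : ℤ) ^ (n + 2 + finrank ℝ E / 2 - κ) * 2 ^ κ * Pool.Agent.Helper381.eulerChar M =
      ((2 ^ (n + 2 + finrank ℝ E / 2 - κ) : ℕ) : ℤ) * Pool.Agent.Helper381.eulerChar M * 2 ^ κ := by
    push_cast
    ring
  rw [h6]
  exact h5

end manifold

end Pool.Agent.H185.ZM
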