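import Pool.Agent.H185.ZM.Diag
import Pool.Agent.H185.ZM.Quat8

/-!
# Subgroups of finite index
-/

set_option autoImplicit false

namespace Pool.Agent.H185.ZM

open Matrix Module
open scoped Manifold ContDiff

/-- counting on the coset space -/
theorem fi_dvd {Γ : Type} [Group Γ] (Γ' : Subgroup Γ) [Finite (Γ ⧸ Γ')] {P : Type} [Group P]
    [Finite P] (φ : P →* Γ) (s : ℕ)
    (h : ∀ (γ : Γ) (Q : Subgroup P), (∀ q ∈ Q, γ⁻¹ * φ q * γ ∈ Γ') → Nat.card Q ∣ s) :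
    Nat.card P ∣ s * Γ'.index := by
  let _ : MulAction P (Γ ⧸ Γ') := MulAction.compHom _ φ
  refine card_dvd_of_stabilizer (P := P) (X := Γ ⧸ Γ') s (fun x => ?_)
  induction x using QuotientGroup.induction_on with
  | _ γ =>
    refine h γ (MulAction.stabilizer P (γ : Γ ⧸ Γ')) (fun q hq => ?_)
    have h1 : ((φ q * γ : Γ) : Γ ⧸ Γ') = (γ : Γ ⧸ Γ') := hq
    have h2 := QuotientGroup.eq.1 h1.symm
    rwa [← mul_assoc] at h2

/-- the homomorphism of a subgroup into a conjugate -/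
def cj {Γ : Type} [Group Γ] (Γ' : Subgroup Γ) {P : Type} [Group P] (φ : P →* Γ) (γ : Γ)
    (Q : Subgroup P) (hQ : ∀ q ∈ Q, γ⁻¹ * φ q * γ ∈ Γ') : Q →* Γ' where
  toFun q := ⟨γ⁻¹ * φ q * γ, hQ q q.2⟩
  map_one' := Subtype.ext (by simp)
  map_mul' x y := Subtype.ext (by simp [mul_assoc])

variable {E : Type} [NormedAddCommGroup E] [NormedSpace ℝ E] [FiniteDimensional ℝ E]
  {M : Type} [TopologicalSpace M] [ChartedSpace E M] [IsManifold 𝓘(ℝ, E) ∞ M]

section abel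

variable {R : Type} [CommRing R] {A : Type} [CommGroup A]

lemma card_scal' [Finite A] [IsCyclic A] {k : ℕ} (hk : 2 ≤ k) {Q : Subgroup (Fin k → A)}
    (K : Subgroup Q) (hK : ∀ p ∈ K, ∀ i j, uv (p : Fin k → A) i = uv (p : Fin k → A) j) :
    Nat.card K ∣ Nat.gcd (k + 1) (Nat.card A) := by
  have h1 := card_scal hk (K.map Q.subtype) (by
    rintro _ ⟨p, hp, rfl⟩ i j
    exact hK p hp i j)
  rwa [Subgroup.card_map_of_injective Q.subtype_injective] at h1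

/-- exponent four -/
theorem fi_four [Finite A] [IsCyclic A] (h4 : ∀ u : A, u ^ 4 = 1) (f : A →* R) {k : ℕ}
    (hk : 2 ≤ k) (Γ' : Subgroup (Matrix.SpecialLinearGroup (Fin (k + 1)) R))
    [Finite (Matrix.SpecialLinearGroup (Fin (k + 1)) R ⧸ Γ')]
    [CompactSpace M] [T2Space M] [ConnectedSpace M]
    {a : Γ' → M → M} (ha : SmoothAction E a)
    (hdvd : ¬ ((Nat.card A : ℤ) ^ k ∣ (Nat.gcd (k + 1) (Nat.card A) : ℤ) *
      (2 ^ finrank ℝ E * Pool.Agent.Helper381.eulerChar M) * Γ'.index)) :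
    ∃ (x : Fin k → A) (γ : Matrix.SpecialLinearGroup (Fin (k + 1)) R)
      (hx : γ⁻¹ * dmt k f x * γ ∈ Γ'), (∃ i j, uv x i ≠ uv x j) ∧
      (⟨_, hx⟩ : Γ') ∈ actKer ha := by
  by_contra hcon
  push Not at hcon
  apply hdvd
  have h1 := fi_dvd Γ' (dmt k f) (Int.natAbs ((Nat.gcd (k + 1) (Nat.card A) : ℤ) *
      (2 ^ finrank ℝ E * Pool.Agent.Helper381.eulerChar M))) (fun γ Q hQ => by
    have h2 := abelian_dvd_ker (P := Q) (fun x => by
      apply Subtype.ext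
      funext j
      exact h4 _) (ha.comp (cj Γ' (dmt k f) γ Q hQ))
    have h3 := card_scal' hk (actKer (ha.comp (cj Γ' (dmt k f) γ Q hQ))) (fun p hp i j => by
      by_contra hij
      exact hcon p γ (hQ p p.2) ⟨i, j, hij⟩ hp)
    have h4 : (Nat.card (actKer (ha.comp (cj Γ' (dmt k f) γ Q hQ))) : ℤ) ∣
        (Nat.gcd (k + 1) (Nat.card A) : ℤ) := by exact_mod_cast h3
    have h5 := h2.trans (mul_dvd_mul_right h4 _)
    have h6 := Int.natAbs_dvd_natAbs.2 h5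
    rwa [Int.natAbs_natCast] at h6)
  have hc : Nat.card (Fin k → A) = Nat.card A ^ k := by
    rw [Nat.card_fun]
    simp
  rw [hc] at h1
  have h2 : ((Nat.card A ^ k : ℕ) : ℤ) ∣ ((Int.natAbs ((Nat.gcd (k + 1) (Nat.card A) : ℤ) *
      (2 ^ finrank ℝ E * Pool.Agent.Helper381.eulerChar M)) * Γ'.index : ℕ) : ℤ) :=
    Int.natCast_dvd_natCast.2 h1
  have h3 : ((Int.natAbs ((Nat.gcd (k + 1) (Nat.card A) : ℤ) *
      (2 ^ finrank ℝ E * Pool.Agent.Helper381.eulerChar M)) * Γ'.index : ℕ) : ℤ) ∣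
      (Nat.gcd (k + 1) (Nat.card A) : ℤ) *
      (2 ^ finrank ℝ E * Pool.Agent.Helper381.eulerChar M) * Γ'.index := by
    rw [Nat.cast_mul]
    exact mul_dvd_mul_right (Int.natAbs_dvd.2 dvd_rfl) _
  have h4 := h2.trans h3
  exact_mod_cast h4

/-- odd prime exponent -/
theorem fi_odd [Finite A] [IsCyclic A] {p : ℕ} (hp : p.Prime) (hp2 : p ≠ 2)
    (hpow : ∀ u : A, u ^ p = 1) (f : A →* R) {k : ℕ}
    (hk : 2 ≤ k) (Γ' : Subgroup (Matrix.SpecialLinearGroup (Fin (k + 1)) R))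
    [Finite (Matrix.SpecialLinearGroup (Fin (k + 1)) R ⧸ Γ')]
    [CompactSpace M] [T2Space M] [ConnectedSpace M]
    {a : Γ' → M → M} (ha : SmoothAction E a)
    (hdvd : ¬ ((Nat.card A : ℤ) ^ k ∣ (Nat.gcd (k + 1) (Nat.card A) : ℤ) *
      (p ^ (finrank ℝ E / 2) * Pool.Agent.Helper381.eulerChar M) * Γ'.index)) :
    ∃ (x : Fin k → A) (γ : Matrix.SpecialLinearGroup (Fin (k + 1)) R)
      (hx : γ⁻¹ * dmt k f x * γ ∈ Γ'), (∃ i j, uv x i ≠ uv x j) ∧
      (⟨_, hx⟩ : Γ') ∈ actKer ha := by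
  by_contra hcon
  push Not at hcon
  apply hdvd
  have h1 := fi_dvd Γ' (dmt k f) (Int.natAbs ((Nat.gcd (k + 1) (Nat.card A) : ℤ) *
      (p ^ (finrank ℝ E / 2) * Pool.Agent.Helper381.eulerChar M))) (fun γ Q hQ => by
    have h2 := prime_dvd_ker hp hp2 (P := Q) (fun x => by
      apply Subtype.ext
      funext j
      exact hpow _) (ha.comp (cj Γ' (dmt k f) γ Q hQ))
    have h3 := card_scal' hk (actKer (ha.comp (cj Γ' (dmt k f) γ Q hQ))) (fun p hp i j => by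
      by_contra hij
      exact hcon p γ (hQ p p.2) ⟨i, j, hij⟩ hp)
    have h4 : (Nat.card (actKer (ha.comp (cj Γ' (dmt k f) γ Q hQ))) : ℤ) ∣
        (Nat.gcd (k + 1) (Nat.card A) : ℤ) := by exact_mod_cast h3
    have h5 := h2.trans (mul_dvd_mul_right h4 _)
    have h6 := Int.natAbs_dvd_natAbs.2 h5
    rwa [Int.natAbs_natCast] at h6)
  have hc : Nat.card (Fin k → A) = Nat.card A ^ k := by
    rw [Nat.card_fun]
    simp
  rw [hc] at h1
  have h2 : ((Nat.card A ^ k : ℕ) : ℤ) ∣ ((Int.natAbs ((Nat.gcd (k + 1) (Nat.card A) : ℤ) *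
      (p ^ (finrank ℝ E / 2) * Pool.Agent.Helper381.eulerChar M)) * Γ'.index : ℕ) : ℤ) :=
    Int.natCast_dvd_natCast.2 h1
  have h3 : ((Int.natAbs ((Nat.gcd (k + 1) (Nat.card A) : ℤ) *
      (p ^ (finrank ℝ E / 2) * Pool.Agent.Helper381.eulerChar M)) * Γ'.index : ℕ) : ℤ) ∣
      (Nat.gcd (k + 1) (Nat.card A) : ℤ) *
      (p ^ (finrank ℝ E / 2) * Pool.Agent.Helper381.eulerChar M) * Γ'.index := by
    rw [Nat.cast_mul]
    exact mul_dvd_mul_right (Int.natAbs_dvd.2 dvd_rfl) _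
  have h4 := h2.trans h3
  exact_mod_cast h4

lemma conj_not_scalar {k : ℕ} (f : A →* R) (hf : Function.Injective f) {x : Fin k → A}
    (hx : ∃ i j, uv x i ≠ uv x j) (γ : Matrix.SpecialLinearGroup (Fin (k + 1)) R) (c : R) :
    ((γ⁻¹ * dmt k f x * γ : Matrix.SpecialLinearGroup (Fin (k + 1)) R) :
      Matrix (Fin (k + 1)) (Fin (k + 1)) R) ≠ c • (1 : Matrix _ _ R) := by
  intro h
  apply dmt_not_scalar f hf hx c
  have h1 : dmt k f x = γ * (γ⁻¹ * dmt k f x * γ) * γ⁻¹ := by group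
  rw [h1, Matrix.SpecialLinearGroup.coe_mul, Matrix.SpecialLinearGroup.coe_mul γ, h,
    Matrix.mul_smul, Matrix.smul_mul, mul_one, ← Matrix.SpecialLinearGroup.coe_mul,
    mul_inv_cancel, Matrix.SpecialLinearGroup.coe_one]

end abel

end Pool.Agent.H185.ZM
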