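import Mathlib

/-!
# The groups with the Steinberg relations over the field with two elements are finite
-/

set_option autoImplicit false

namespace Pool.Agent.H185.ZM

open Subgroup

section gen

variable {Q : Type} [Group Q]

lemma cl_sub (s S : Set Q) (h1 : (1 : Q) ∈ S) (hs : ∀ g ∈ s, ∀ y ∈ S, g * y ∈ S)
    (hinv : ∀ g ∈ s, g * g = 1) : ∀ g ∈ closure s, g ∈ S := by
  intro g hg
  induction hg using closure_induction_left with
  | one => exact h1
  | mul_left x hx y _ ih => exact hs x hx y ih
  | inv_mul_cancel x hx y _ ih =>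
    have h2 : x⁻¹ = x := inv_eq_of_mul_eq_one_left (hinv x hx)
    rw [h2]
    exact hs x hx y ih

lemma conj_cl (s : Set Q) (g : Q) (h : ∀ y ∈ s, g * y * g⁻¹ ∈ closure s) :
    ∀ y ∈ closure s, g * y * g⁻¹ ∈ closure s := by
  intro y hy
  have h1 : closure s ≤ (closure s).comap (MulAut.conj g).toMonoidHom := by
    rw [closure_le]
    intro z hz
    exact h z hz
  exact h1 hy

/-- `closure s` normalises `H` -/
lemma norm_cl (s : Set Q) (H : Subgroup Q) (hinv : ∀ g ∈ s, g * g = 1)
    (h : ∀ g ∈ s, ∀ y ∈ H, g * y * g⁻¹ ∈ H) : ∀ g ∈ closure s, ∀ y ∈ H, g⁻¹ * y * g ∈ H := by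
  apply cl_sub s {g | ∀ y ∈ H, g⁻¹ * y * g ∈ H}
  · intro y hy; simpa using hy
  · intro g hg z hz y hy
    have h2 : g⁻¹ = g := inv_eq_of_mul_eq_one_left (hinv g hg)
    have h3 := h g hg y hy
    have h4 := hz _ h3
    rw [h2] at h4
    have h5 : (g * z)⁻¹ * y * (g * z) = z⁻¹ * (g * y * g) * z := by
      rw [mul_inv_rev, h2]; group
    show (g * z)⁻¹ * y * (g * z) ∈ H
    rw [h5]
    exact h4
  · exact hinv

variable {ι : Type} (y : ι → Q) (hsq : ∀ i, y i * y i = 1) (hc : ∀ i j, y i * y j = y j * y i)

include hsq hc in
lemma dec (J : Set ι) (k : ι) (g : Q) (hg : g ∈ closure (y '' (insert k J))) :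
    g ∈ closure (y '' J) ∨ y k * g ∈ closure (y '' J) := by
  refine cl_sub _ {g | g ∈ closure (y '' J) ∨ y k * g ∈ closure (y '' J)} (Or.inl (one_mem _))
    ?_ ?_ g hg
  · rintro _ ⟨i, hi, rfl⟩ z hz
    rcases hi with rfl | hi
    · rcases hz with hz | hz
      · right
        rwa [← mul_assoc, hsq, one_mul]
      · left; exact hz
    · rcases hz with hz | hz
      · left; exact mul_mem (subset_closure ⟨i, hi, rfl⟩) hz
      · right
        rw [← mul_assoc, hc k i, mul_assoc]
        exact mul_mem (subset_closure ⟨i, hi, rfl⟩) hz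
  · rintro _ ⟨i, _, rfl⟩; exact hsq i

include hsq hc in
lemma finite_invol (J : Finset ι) : (closure (y '' (J : Set ι)) : Set Q).Finite := by
  classical
  induction J using Finset.induction_on with
  | empty => simp
  | insert k J _ ih =>
    have h1 : (closure (y '' ((insert k J : Finset ι) : Set ι)) : Set Q) ⊆
        (closure (y '' (J : Set ι)) : Set Q) ∪
          (fun g => y k * g) '' (closure (y '' (J : Set ι)) : Set Q) := by
      intro g hg
      rw [Finset.coe_insert] at hg
      rcases dec y hsq hc _ k g hg with h | h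
      · left; exact h
      · right
        refine ⟨_, h, ?_⟩
        show y k * (y k * g) = g
        rw [← mul_assoc, hsq, one_mul]
    exact (ih.union (ih.image _)).subset h1

end gen

/-- The Steinberg relations over the field with two elements. -/
structure Rel {n : ℕ} {Q : Type} [Group Q] (x : Fin n → Fin n → Q) : Prop where
  sq : ∀ i j, i ≠ j → x i j * x i j = 1
  mul : ∀ i j l, i ≠ j → j ≠ l → i ≠ l → x i j * x j l = x i l * (x j l * x i j)
  comm : ∀ i j k l, i ≠ j → k ≠ l → j ≠ k → i ≠ l → x i j * x k l = x k l * x i j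
  braid : ∀ i j, i ≠ j → x i j * x j i * x i j = x j i * x i j * x j i

theorem finite_st : ∀ (n : ℕ) {Q : Type} [Group Q] (x : Fin n → Fin n → Q), Rel x →
    (closure {g | ∃ i j, i ≠ j ∧ x i j = g} : Set Q).Finite := by
  intro n
  induction n with
  | zero =>
    intro Q _ x _
    have h : {g | ∃ i j, i ≠ j ∧ x i j = g} = (∅ : Set Q) := by
      ext g
      constructor
      · rintro ⟨i, _⟩; exact i.elim0
      · intro h; exact h.elim
    rw [h]; simp
  | succ n ih =>
    intro Q _ x hx
    classical
    -- the pieces
    set A' : Subgroup Q := closure {g | ∃ i j : Fin n, i ≠ j ∧ x i.succ j.succ = g} with hA'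
    have hA'f : (A' : Set Q).Finite := by
      apply ih (fun i j => x i.succ j.succ)
      constructor
      · intro i j h; exact hx.sq _ _ (by simpa using h)
      · intro i j l h1 h2 h3; exact hx.mul _ _ _ (by simpa using h1) (by simpa using h2) (by simpa using h3)
      · intro i j k l h1 h2 h3 h4
        exact hx.comm _ _ _ _ (by simpa using h1) (by simpa using h2) (by simpa using h3)
          (by simpa using h4)
      · intro i j h; exact hx.braid _ _ (by simpa using h)
    let yU : Fin n → Q := fun j => x 0 j.succ
    let yL : Fin n → Q := fun j => x j.succ 0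
    have h0 : ∀ j : Fin n, (0 : Fin (n + 1)) ≠ j.succ := fun j => (Fin.succ_ne_zero j).symm
    have hs : ∀ {i j : Fin n}, i ≠ j → i.succ ≠ j.succ := fun h h' => h (Fin.succ_injective _ h')
    have sqU : ∀ i, yU i * yU i = 1 := fun i => hx.sq _ _ (h0 i)
    have sqL : ∀ i, yL i * yL i = 1 := fun i => hx.sq _ _ (h0 i).symm
    have cU : ∀ i j, yU i * yU j = yU j * yU i := fun i j =>
      hx.comm _ _ _ _ (h0 i) (h0 j) (h0 i).symm (h0 j)
    have cL : ∀ i j, yL i * yL j = yL j * yL i := fun i j =>
      hx.comm _ _ _ _ (h0 i).symm (h0 j).symm (h0 j) (h0 i).symm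
    set U : Subgroup Q := closure (yU '' Set.univ) with hU
    have hUf : (U : Set Q).Finite := by
      have := finite_invol yU sqU cU Finset.univ
      rwa [Finset.coe_univ] at this
    -- the stabiliser
    set A : Subgroup Q := closure {g | ∃ (i : Fin (n + 1)) (j : Fin n), i ≠ j.succ ∧ x i j.succ = g}
      with hA
    have memA : ∀ (i : Fin (n + 1)) (j : Fin n), i ≠ j.succ → x i j.succ ∈ A := fun i j h =>
      subset_closure ⟨i, j, h, rfl⟩
    have hAf : (A : Set Q).Finite := by
      have hsub : (A : Set Q) ⊆ (fun p : Q × Q => p.1 * p.2) '' ((U : Set Q) ×ˢ (A' : Set Q)) := by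
        intro g hg
        refine cl_sub _ ((fun p : Q × Q => p.1 * p.2) '' ((U : Set Q) ×ˢ (A' : Set Q))) ?_ ?_ ?_ g hg
        · exact ⟨(1, 1), ⟨one_mem _, one_mem _⟩, by simp⟩
        · rintro _ ⟨i, j, hij, rfl⟩ _ ⟨⟨u, a⟩, ⟨hu, ha⟩, rfl⟩
          refine Fin.cases ?_ (fun i hij => ?_) i hij
          · intro _
            refine ⟨(x 0 j.succ * u, a), ⟨mul_mem (subset_closure ⟨j, trivial, rfl⟩) hu, ha⟩, ?_⟩
            show x 0 j.succ * u * a = x 0 j.succ * (u * a)
            rw [mul_assoc]
          · have hij' : i ≠ j := fun h => hij (by rw [h])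
            have h2 := conj_cl (yU '' Set.univ) (x i.succ j.succ) (by
              rintro _ ⟨k, _, rfl⟩
              show x i.succ j.succ * x 0 k.succ * (x i.succ j.succ)⁻¹ ∈ _
              by_cases hk : i = k
              · subst hk
                have h3 := hx.mul 0 i.succ j.succ (h0 i) hij (h0 j)
                have h4 : x i.succ j.succ * x 0 i.succ =
                    (x 0 j.succ)⁻¹ * x 0 i.succ * x i.succ j.succ := by
                  rw [mul_assoc, h3]; group
                rw [h4, mul_inv_cancel_right]
                exact mul_mem (inv_mem (subset_closure ⟨j, trivial, rfl⟩))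
                  (subset_closure ⟨i, trivial, rfl⟩)
              · rw [hx.comm _ _ _ _ hij (h0 k) (h0 j).symm (hs hk), mul_inv_cancel_right]
                exact subset_closure ⟨k, trivial, rfl⟩) u hu
            refine ⟨(x i.succ j.succ * u * (x i.succ j.succ)⁻¹, x i.succ j.succ * a),
              ⟨h2, mul_mem (subset_closure ⟨i, j, hij', rfl⟩) ha⟩, ?_⟩
            show x i.succ j.succ * u * (x i.succ j.succ)⁻¹ * (x i.succ j.succ * a) =
              x i.succ j.succ * (u * a)
            group
        · rintro _ ⟨i, j, hij, rfl⟩; exact hx.sq _ _ hij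
      exact ((hUf.prod hA'f).image _).subset hsub
    set L : Subgroup Q := closure (yL '' Set.univ) with hL
    have hLf : (L : Set Q).Finite := by
      have := finite_invol yL sqL cL Finset.univ
      rwa [Finset.coe_univ] at this
    set LA : Set Q := (fun p : Q × Q => p.1 * p.2) '' ((L : Set Q) ×ˢ (A : Set Q)) with hLA
    have hLAf : LA.Finite := (hLf.prod hAf).image _
    have memLA : ∀ l ∈ L, ∀ a ∈ A, l * a ∈ LA := fun l hl a ha => ⟨(l, a), ⟨hl, ha⟩, rfl⟩
    have LAL : ∀ l ∈ L, ∀ w ∈ LA, l * w ∈ LA := by
      rintro l hl _ ⟨⟨l', a⟩, ⟨hl', ha⟩, rfl⟩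
      refine ⟨(l * l', a), ⟨mul_mem hl hl', ha⟩, ?_⟩
      show l * l' * a = l * (l' * a)
      rw [mul_assoc]
    have LAA : ∀ w ∈ LA, ∀ a ∈ A, w * a ∈ LA := by
      rintro _ ⟨⟨l', a'⟩, ⟨hl', ha'⟩, rfl⟩ a ha
      refine ⟨(l', a' * a), ⟨hl', mul_mem ha' ha⟩, ?_⟩
      show l' * (a' * a) = l' * a' * a
      rw [mul_assoc]
    have memL : ∀ i : Fin n, x i.succ 0 ∈ L := fun i => subset_closure ⟨i, trivial, rfl⟩
    have P1 : ∀ i : Fin n, ∀ w ∈ LA, x i.succ 0 * w ∈ LA := fun i w hw => LAL _ (memL i) w hw
    have P2 : ∀ i j : Fin n, i ≠ j → ∀ w ∈ LA, x i.succ j.succ * w ∈ LA := by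
      rintro i j hij _ ⟨⟨l, a⟩, ⟨hl, ha⟩, rfl⟩
      have h2 := conj_cl (yL '' Set.univ) (x i.succ j.succ) (by
        rintro _ ⟨k, _, rfl⟩
        show x i.succ j.succ * x k.succ 0 * (x i.succ j.succ)⁻¹ ∈ _
        by_cases hk : j = k
        · subst hk
          rw [hx.mul _ _ _ (hs hij) (h0 j).symm (h0 i).symm, ← mul_assoc, mul_inv_cancel_right]
          exact mul_mem (subset_closure ⟨i, trivial, rfl⟩) (subset_closure ⟨j, trivial, rfl⟩)
        · rw [hx.comm _ _ _ _ (hs hij) (h0 k).symm (hs hk) (h0 i).symm, mul_inv_cancel_right]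
          exact subset_closure ⟨k, trivial, rfl⟩) l hl
      refine ⟨(x i.succ j.succ * l * (x i.succ j.succ)⁻¹, x i.succ j.succ * a),
        ⟨h2, mul_mem (memA _ _ (hs hij)) ha⟩, ?_⟩
      show x i.succ j.succ * l * (x i.succ j.succ)⁻¹ * (x i.succ j.succ * a) =
        x i.succ j.succ * (l * a)
      group
    -- F1
    have F1 : ∀ k : Fin n, ∀ l ∈ closure (yL '' {j | j ≠ k}), ∃ a ∈ A,
        x 0 k.succ * l = l * a := by
      intro k l hl
      have h1 : ∀ g ∈ closure (yL '' {j | j ≠ k}),
          ∀ y ∈ closure {g | ∃ i : Fin (n + 1), i ≠ k.succ ∧ x i k.succ = g},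
            g⁻¹ * y * g ∈ closure {g | ∃ i : Fin (n + 1), i ≠ k.succ ∧ x i k.succ = g} := by
        apply norm_cl
        · rintro _ ⟨j, _, rfl⟩; exact sqL j
        · rintro _ ⟨j, hj, rfl⟩
          apply conj_cl
          rintro _ ⟨i, hi, rfl⟩
          show x j.succ 0 * x i k.succ * (x j.succ 0)⁻¹ ∈ _
          refine Fin.cases (fun hi => ?_) (fun i hi => ?_) i hi
          · rw [hx.mul _ _ _ (h0 j).symm (h0 k) (hs hj), ← mul_assoc, mul_inv_cancel_right]
            exact mul_mem (subset_closure ⟨_, hs hj, rfl⟩) (subset_closure ⟨_, h0 k, rfl⟩)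
          · rw [hx.comm _ _ _ _ (h0 j).symm hi (h0 i) (hs hj), mul_inv_cancel_right]
            exact subset_closure ⟨_, hi, rfl⟩
      have h2 := h1 l hl (x 0 k.succ) (subset_closure ⟨0, h0 k, rfl⟩)
      have h3 : closure {g | ∃ i : Fin (n + 1), i ≠ k.succ ∧ x i k.succ = g} ≤ A := by
        rw [closure_le]
        rintro _ ⟨i, hi, rfl⟩
        exact memA i k hi
      exact ⟨_, h3 h2, by group⟩
    have hmono : ∀ {s t : Set (Fin n)}, s ⊆ t → closure (yL '' s) ≤ closure (yL '' t) :=
      fun h => closure_mono (Set.image_mono h)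
    -- decomposition
    have D1 : ∀ k : Fin n, ∀ l ∈ L, l ∈ closure (yL '' {j | j ≠ k}) ∨
        x k.succ 0 * l ∈ closure (yL '' {j | j ≠ k}) := by
      intro k l hl
      apply dec yL sqL cL {j | j ≠ k} k l
      refine hmono ?_ hl
      intro j _
      by_cases h : j = k
      · left; exact h
      · right; exact h
    have D2 : ∀ k m : Fin n, m ≠ k → ∀ l ∈ closure (yL '' {j | j ≠ k}),
        l ∈ closure (yL '' {j | j ≠ k ∧ j ≠ m}) ∨
        x m.succ 0 * l ∈ closure (yL '' {j | j ≠ k ∧ j ≠ m}) := by
      intro k m _ l hl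
      apply dec yL sqL cL {j | j ≠ k ∧ j ≠ m} m l
      refine hmono ?_ hl
      intro j hj
      by_cases h : j = m
      · left; exact h
      · right; exact ⟨hj, h⟩
    set S : Set Q := {g | g ∈ LA ∨ ∃ k : Fin n, x 0 k.succ * g ∈ LA} with hS
    have hSf : S.Finite := by
      have hsub : S ⊆ LA ∪ ⋃ k : Fin n, (fun w => x 0 k.succ * w) '' LA := by
        rintro g (h | ⟨k, h⟩)
        · left; exact h
        · right
          rw [Set.mem_iUnion]
          exact ⟨k, _, h, by
            show x 0 k.succ * (x 0 k.succ * g) = g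
            rw [← mul_assoc, hx.sq _ _ (h0 k), one_mul]⟩
      exact (hLAf.union (Set.finite_iUnion fun k => hLAf.image _)).subset hsub
    -- x_{0k} l a for l without k
    have K0 : ∀ k : Fin n, ∀ l ∈ closure (yL '' {j | j ≠ k}), ∀ a ∈ A,
        x 0 k.succ * (l * a) ∈ LA := by
      intro k l hl a ha
      obtain ⟨b, hb, h1⟩ := F1 k l hl
      rw [← mul_assoc, h1, mul_assoc]
      exact memLA _ (hmono (Set.subset_univ _) hl) _ (mul_mem hb ha)
    -- main computation
    have K1 : ∀ k m : Fin n, m ≠ k → ∀ w ∈ LA, x 0 m.succ * (x 0 k.succ * w) ∈ S := by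
      rintro k m hmk _ ⟨⟨l, a⟩, ⟨hl, ha⟩, rfl⟩
      show x 0 m.succ * (x 0 k.succ * (l * a)) ∈ S
      rcases D1 k l hl with h | h
      · right
        refine ⟨m, ?_⟩
        rw [← mul_assoc, hx.sq _ _ (h0 m), one_mul]
        exact K0 k l h a ha
      · set l' := x k.succ 0 * l with hl'
        have hll' : l = x k.succ 0 * l' := by
          rw [hl', ← mul_assoc, hx.sq _ _ (h0 k).symm, one_mul]
        rcases D2 k m hmk l' h with h2 | h2
        · -- l without m
          have hlm : l ∈ closure (yL '' {j | j ≠ m}) := by
            rw [hll']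
            exact mul_mem (subset_closure ⟨k, hmk.symm, rfl⟩) (hmono (fun j hj => hj.2) h2)
          right
          refine ⟨k, ?_⟩
          have e1 : x 0 k.succ * (x 0 m.succ * (x 0 k.succ * (l * a))) =
              x 0 m.succ * (l * a) := by
            rw [← mul_assoc (x 0 m.succ), cU m k, mul_assoc, ← mul_assoc, hx.sq _ _ (h0 k), one_mul]
          rw [e1]
          exact K0 m l hlm a ha
        · left
          set l'' := x m.succ 0 * l' with hl''
          have hl'l'' : l' = x m.succ 0 * l'' := by
            rw [hl'', ← mul_assoc, hx.sq _ _ (h0 m).symm, one_mul]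
          -- x_{km} commutes with l''
          have hcm : x k.succ m.succ * l'' = l'' * x k.succ m.succ := by
            have h3 : ∀ g ∈ closure (yL '' {j | j ≠ k ∧ j ≠ m}),
                g ∈ {g | x k.succ m.succ * g = g * x k.succ m.succ} := by
              apply cl_sub
              · simp
              · rintro _ ⟨j, hj, rfl⟩ g hg
                show x k.succ m.succ * (x j.succ 0 * g) = x j.succ 0 * g * x k.succ m.succ
                rw [← mul_assoc, hx.comm _ _ _ _ (hs hmk.symm) (h0 j).symm (hs (Ne.symm hj.2))
                  (h0 k).symm, mul_assoc, mul_assoc]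
                congr 1
              · rintro _ ⟨j, _, rfl⟩; exact sqL j
            exact h3 l'' h2
          have e0 : l = x k.succ 0 * (x m.succ 0 * l'') := by
            rw [← hl'l'']; exact hll'
          have e1 : x k.succ m.succ * l = x m.succ 0 * l'' * x k.succ m.succ := by
            calc x k.succ m.succ * l = x k.succ m.succ * (x k.succ 0 * (x m.succ 0 * l'')) :=
                  congrArg _ e0
              _ = (x k.succ m.succ * x k.succ 0) * (x m.succ 0 * l'') := by
                  simp only [mul_assoc]
              _ = (x k.succ 0 * x k.succ m.succ) * (x m.succ 0 * l'') := by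
                  rw [hx.comm _ _ _ _ (hs hmk.symm) (h0 k).symm (hs hmk) (h0 k).symm]
              _ = x k.succ 0 * ((x k.succ m.succ * x m.succ 0) * l'') := by
                  simp only [mul_assoc]
              _ = x k.succ 0 * ((x k.succ 0 * (x m.succ 0 * x k.succ m.succ)) * l'') := by
                  rw [hx.mul _ _ _ (hs hmk.symm) (h0 m).symm (h0 k).symm]
              _ = (x k.succ 0 * x k.succ 0) * (x m.succ 0 * (x k.succ m.succ * l'')) := by
                  simp only [mul_assoc]
              _ = x m.succ 0 * (l'' * x k.succ m.succ) := by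
                  rw [hx.sq _ _ (h0 k).symm, one_mul, hcm]
              _ = x m.succ 0 * l'' * x k.succ m.succ := (mul_assoc _ _ _).symm
          have e2 : x 0 m.succ * x 0 k.succ = x k.succ m.succ * x 0 k.succ * x k.succ m.succ := by
            rw [mul_assoc, hx.mul _ _ _ (h0 k) (hs hmk.symm) (h0 m), ← mul_assoc,
              hx.comm _ _ _ _ (hs hmk.symm) (h0 m) (h0 m).symm (hs hmk.symm), mul_assoc,
              ← mul_assoc (x k.succ m.succ) (x k.succ m.succ), hx.sq _ _ (hs hmk.symm), one_mul]
          have e3 : x 0 m.succ * (x 0 k.succ * (l * a)) =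
              x k.succ m.succ * (x 0 k.succ * ((x m.succ 0 * l'') * (x k.succ m.succ * a))) := by
            calc x 0 m.succ * (x 0 k.succ * (l * a))
                = (x 0 m.succ * x 0 k.succ) * (l * a) := by rw [mul_assoc]
              _ = x k.succ m.succ * (x 0 k.succ * ((x k.succ m.succ * l) * a)) := by
                  rw [e2]; simp only [mul_assoc]
              _ = _ := by rw [e1]; simp only [mul_assoc]
          rw [e3]
          apply P2 k m hmk.symm
          apply K0 k
          · exact mul_mem (subset_closure ⟨m, hmk, rfl⟩) (hmono (fun j hj => hj.1) h2)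
          · exact mul_mem (memA _ _ (hs hmk.symm)) ha
    apply hSf.subset
    apply cl_sub
    · left; exact ⟨(1, 1), ⟨one_mem _, one_mem _⟩, by simp⟩
    · rintro _ ⟨i, j, hij, rfl⟩ g hg
      refine Fin.cases (fun hij => ?_) (fun i hij => ?_) i hij
      · -- x_{0 m}
        refine Fin.cases (fun hij => absurd rfl hij) (fun m _ => ?_) j hij
        rcases hg with hg | ⟨k, hg⟩
        · right
          exact ⟨m, by rwa [← mul_assoc, hx.sq _ _ (h0 m), one_mul]⟩
        · have hgw : g = x 0 k.succ * (x 0 k.succ * g) := by
            rw [← mul_assoc, hx.sq _ _ (h0 k), one_mul]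
          by_cases hmk : m = k
          · subst hmk; left; exact hg
          · rw [hgw]
            exact K1 k m hmk _ hg
      · refine Fin.cases (fun hij => ?_) (fun m hij => ?_) j hij
        · -- x_{i 0}
          rcases hg with hg | ⟨k, hg⟩
          · left; exact P1 i g hg
          · have hgw : g = x 0 k.succ * (x 0 k.succ * g) := by
              rw [← mul_assoc, hx.sq _ _ (h0 k), one_mul]
            by_cases hik : i = k
            · subst hik
              obtain ⟨⟨l, a⟩, ⟨hl, ha⟩, hla⟩ := hg
              have hla' : l * a = x 0 i.succ * g := hla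
              rcases D1 i l hl with h | h
              · left
                apply P1
                rw [hgw, ← hla']
                exact K0 i l h a ha
              · set l' := x i.succ 0 * l with hl'
                have hll' : l = x i.succ 0 * l' := by
                  rw [hl', ← mul_assoc, hx.sq _ _ (h0 i).symm, one_mul]
                right
                refine ⟨i, ?_⟩
                have e1 : x 0 i.succ * (x i.succ 0 * g) =
                    x i.succ 0 * (x 0 i.succ * (l' * a)) := by
                  have hb := hx.braid _ _ (h0 i)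
                  calc x 0 i.succ * (x i.succ 0 * g)
                      = x 0 i.succ * (x i.succ 0 * (x 0 i.succ * (x i.succ 0 * l' * a))) := by
                        rw [← hll', hla', ← hgw]
                    _ = (x 0 i.succ * x i.succ 0 * x 0 i.succ) * (x i.succ 0 * (l' * a)) := by
                        simp only [mul_assoc]
                    _ = x i.succ 0 * (x 0 i.succ * ((x i.succ 0 * x i.succ 0) * (l' * a))) := by
                        rw [hb]; simp only [mul_assoc]
                    _ = _ := by rw [hx.sq _ _ (h0 i).symm, one_mul]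
                rw [e1]
                exact P1 i _ (K0 i l' h a ha)
            · right
              refine ⟨k, ?_⟩
              have e1 : x 0 k.succ * (x i.succ 0 * g) =
                  x i.succ k.succ * (x i.succ 0 * (x 0 k.succ * g)) := by
                have h3 := hx.mul _ _ _ (h0 i).symm (h0 k) (hs hik)
                have h4 := hx.comm _ _ _ _ (hs hik) (h0 k) (h0 k).symm (hs hik)
                calc x 0 k.succ * (x i.succ 0 * g)
                    = x 0 k.succ * (x i.succ 0 * (x 0 k.succ * (x 0 k.succ * g))) := by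
                      rw [← hgw]
                  _ = x 0 k.succ * ((x i.succ 0 * x 0 k.succ) * (x 0 k.succ * g)) := by
                      simp only [mul_assoc]
                  _ = x 0 k.succ * ((x i.succ k.succ * x 0 k.succ) * (x i.succ 0 *
                        (x 0 k.succ * g))) := by
                      rw [h3]; simp only [mul_assoc]
                  _ = (x 0 k.succ * x 0 k.succ) * (x i.succ k.succ * (x i.succ 0 *
                        (x 0 k.succ * g))) := by
                      rw [h4]; simp only [mul_assoc]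
                  _ = _ := by rw [hx.sq _ _ (h0 k), one_mul]
              rw [e1]
              exact P2 i k hik _ (P1 i _ hg)
        · -- x_{i m}
          have him : i ≠ m := fun h => hij (by rw [h])
          rcases hg with hg | ⟨k, hg⟩
          · left; exact P2 i m him g hg
          · have hgw : g = x 0 k.succ * (x 0 k.succ * g) := by
              rw [← mul_assoc, hx.sq _ _ (h0 k), one_mul]
            by_cases hik : i = k
            · subst hik
              have e1 : x i.succ m.succ * g =
                  x 0 m.succ * (x 0 i.succ * (x i.succ m.succ * (x 0 i.succ * g))) := by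
                have h3 := hx.mul _ _ _ (h0 i) hij (h0 m)
                calc x i.succ m.succ * g
                    = x i.succ m.succ * (x 0 i.succ * (x 0 i.succ * g)) := by rw [← hgw]
                  _ = (x 0 m.succ * x 0 m.succ) * (x i.succ m.succ * (x 0 i.succ *
                        (x 0 i.succ * g))) := by rw [hx.sq _ _ (h0 m), one_mul]
                  _ = x 0 m.succ * ((x 0 m.succ * (x i.succ m.succ * x 0 i.succ)) *
                        (x 0 i.succ * g)) := by simp only [mul_assoc]
                  _ = _ := by rw [← h3]; simp only [mul_assoc]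
              rw [e1]
              exact K1 i m (Ne.symm him) _ (P2 i m him _ hg)
            · right
              refine ⟨k, ?_⟩
              have e1 : x 0 k.succ * (x i.succ m.succ * g) =
                  x i.succ m.succ * (x 0 k.succ * g) := by
                rw [← mul_assoc, ← mul_assoc,
                  hx.comm _ _ _ _ (h0 k) hij (hs (Ne.symm hik)) (h0 m)]
              rw [e1]
              exact P2 i m him _ hg
    · rintro _ ⟨i, j, hij, rfl⟩; exact hx.sq _ _ hij

end Pool.Agent.H185.ZM
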