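import Pool.Agent.H185.ZM.Euc
import Pool.Agent.H185.ZM.Fin2
import Pool.Agent.H185.ZM.Ab

/-!
# Actions of `SL_n(ℤ[i])` on closed manifolds
-/

set_option autoImplicit false

namespace Pool.Agent.H185.ZM

open Matrix Module

/-- **The quotient by a normal subgroup whose ideal has index at most two is finite.** -/
theorem finite_quot {n : ℕ} (hn : 3 ≤ n) {R : Type} [EuclideanDomain R]
    (N : Subgroup (Matrix.SpecialLinearGroup (Fin n) R)) [hN : N.Normal]
    (h2 : (2 : R) ∈ idealOf N hn) (h1 : ∀ c : R, c ∈ idealOf N hn ∨ c - 1 ∈ idealOf N hn) :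
    Finite (Matrix.SpecialLinearGroup (Fin n) R ⧸ N) := by
  classical
  let q : Matrix.SpecialLinearGroup (Fin n) R →* Matrix.SpecialLinearGroup (Fin n) R ⧸ N :=
    QuotientGroup.mk' N
  have hq : ∀ g, g ∈ N → q g = 1 := fun g hg => (QuotientGroup.eq_one_iff g).2 hg
  let x : Fin n → Fin n → Matrix.SpecialLinearGroup (Fin n) R ⧸ N := fun i j =>
    if h : i ≠ j then q (el h 1) else 1
  have hx : ∀ {i j : Fin n} (h : i ≠ j), x i j = q (el h 1) := fun h => dif_pos h
  have hneg : ∀ {i j : Fin n} (h : i ≠ j), q (el h (-1)) = q (el h 1) := by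
    intro i j h
    have h3 : el h (1 : R) = el h (-1) * el h 2 := by rw [← el_add]; norm_num
    rw [h3, map_mul, hq _ (h2 i j h), mul_one]
  have hrel : Rel x := by
    constructor
    · intro i j h
      rw [hx h, ← map_mul, ← el_add, one_add_one_eq_two]
      exact hq _ (h2 i j h)
    · intro i j l hij hjl hil
      rw [hx hij, hx hjl, hx hil, ← map_mul, el_comm hij hjl hil, mul_one, map_mul, map_mul]
    · intro i j k l hij hkl hjk hil
      rw [hx hij, hx hkl, ← map_mul, el_commute hij hkl hjk hil, map_mul]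
    · intro i j h
      rw [hx h, hx h.symm]
      have h3 := congrArg q (el_braid (R := R) h)
      simp only [map_mul, hneg] at h3
      exact h3
  have hfin := finite_st n x hrel
  have htop : (Subgroup.closure {g | ∃ i j, i ≠ j ∧ x i j = g}) = ⊤ := by
    rw [eq_top_iff]
    intro g _
    obtain ⟨A, rfl⟩ := QuotientGroup.mk'_surjective N g
    have hA : A ∈ EE n R := by rw [EE_eq_top]; trivial
    have h3 : EE n R ≤ (Subgroup.closure {g | ∃ i j, i ≠ j ∧ x i j = g}).comap q := by
      unfold EE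
      rw [Subgroup.closure_le]
      rintro _ ⟨i, j, h, c, rfl⟩
      show q (el h c) ∈ Subgroup.closure {g | ∃ i j, i ≠ j ∧ x i j = g}
      rcases h1 c with hc | hc
      · rw [hq _ (hc i j h)]; exact one_mem _
      · have h4 : el h c = el h (c - 1) * el h 1 := by rw [← el_add, sub_add_cancel]
        rw [h4, map_mul, hq _ (hc i j h), one_mul, ← hx h]
        exact Subgroup.subset_closure ⟨i, j, h, rfl⟩
    exact h3 hA
  rw [htop] at hfin
  exact Set.finite_univ_iff.1 (by simpa using hfin)

section gauss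

/-- the fourth roots of unity in the Gaussian integers -/
def zet : Multiplicative (ZMod 4) →* GaussianInt where
  toFun x := (⟨0, 1⟩ : GaussianInt) ^ (x.toAdd).val
  map_one' := rfl
  map_mul' := by decide

lemma zet_sub (u : Multiplicative (ZMod 4)) (hu : u ≠ 1) : ∃ t, (zet u - 1) * t = 2 := by
  revert u
  have h : ∀ u : ZMod 4, Multiplicative.ofAdd u ≠ 1 →
      (zet (Multiplicative.ofAdd u) - 1) * (⟨-1, 0⟩ : GaussianInt) = 2 ∨
      (zet (Multiplicative.ofAdd u) - 1) * (⟨-1, -1⟩ : GaussianInt) = 2 ∨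
      (zet (Multiplicative.ofAdd u) - 1) * (⟨-1, 1⟩ : GaussianInt) = 2 := by decide
  intro u hu
  rcases h u.toAdd hu with h | h | h
  · exact ⟨_, h⟩
  · exact ⟨_, h⟩
  · exact ⟨_, h⟩

end gauss

section action

open scoped Manifold ContDiff

variable {E : Type} [NormedAddCommGroup E] [NormedSpace ℝ E] [FiniteDimensional ℝ E]
  {M : Type} [TopologicalSpace M] [ChartedSpace E M] [IsManifold 𝓘(ℝ, E) ∞ M]

instance actKer_normal {G : Type} [Group G] {a : G → M → M} (ha : SmoothAction E a) :
    (actKer ha).Normal := ⟨fun n hn g y => by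
  show a (g * n * g⁻¹) y = y
  rw [ha.mul, ha.mul, hn, ← ha.mul, mul_inv_cancel, ha.one]⟩

theorem SmoothAction.comp {G Q : Type} [Group G] [Group Q] {a : G → M → M}
    (ha : SmoothAction E a) (φ : Q →* G) : SmoothAction E (fun q => a (φ q)) where
  one := fun y => by rw [map_one]; exact ha.one y
  mul := fun p q y => by rw [map_mul]; exact ha.mul _ _ y
  smooth := fun q => ha.smooth (φ q)

end action

section diag

/-- the vector of units -/
def uvec {k : ℕ} (p : Fin k → Multiplicative (ZMod 4)) : Fin (k + 1) → Multiplicative (ZMod 4) :=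
  Fin.cons (∏ j, p j)⁻¹ p

lemma uvec_mul {k : ℕ} (p q : Fin k → Multiplicative (ZMod 4)) (i : Fin (k + 1)) :
    uvec (p * q) i = uvec p i * uvec q i := by
  unfold uvec
  refine Fin.cases ?_ (fun i => ?_) i
  · simp only [Fin.cons_zero, Pi.mul_apply, Finset.prod_mul_distrib]
    rw [mul_inv]
  · simp only [Fin.cons_succ, Pi.mul_apply]

lemma uvec_one {k : ℕ} (i : Fin (k + 1)) : uvec (1 : Fin k → Multiplicative (ZMod 4)) i = 1 := by
  unfold uvec
  refine Fin.cases ?_ (fun i => ?_) i
  · simp
  · simp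

/-- the diagonal matrices -/
def dm (k : ℕ) : (Fin k → Multiplicative (ZMod 4)) →*
    Matrix.SpecialLinearGroup (Fin (k + 1)) GaussianInt where
  toFun p := ⟨diagonal (fun i => zet (uvec p i)), by
    rw [det_diagonal, ← map_prod]
    have : ∏ i, uvec p i = 1 := by
      rw [Fin.prod_univ_succ]
      unfold uvec
      simp
    rw [this, map_one]⟩
  map_one' := by
    apply Subtype.ext
    show diagonal (fun i => zet (uvec 1 i)) = (1 : Matrix _ _ _)
    simp only [uvec_one, map_one]
    exact diagonal_one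
  map_mul' := fun p q => by
    apply Subtype.ext
    show diagonal (fun i => zet (uvec (p * q) i)) =
      diagonal (fun i => zet (uvec p i)) * diagonal (fun i => zet (uvec q i))
    rw [diagonal_mul_diagonal]
    simp only [uvec_mul, map_mul]

lemma card_scalar {k : ℕ} (hk : 2 ≤ k) (K : Subgroup (Fin k → Multiplicative (ZMod 4)))
    (hK : ∀ p ∈ K, ∀ i j, uvec p i = uvec p j) : Nat.card K ∣ Nat.gcd (k + 1) 4 := by
  let i0 : Fin k := ⟨0, by omega⟩
  let ev : K →* Multiplicative (ZMod 4) := (Pi.evalMonoidHom _ i0).comp K.subtype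
  have hall : ∀ p ∈ K, ∀ j, p j = p i0 := by
    intro p hp j
    have := hK p hp j.succ i0.succ
    unfold uvec at this
    simpa using this
  have hinj : Function.Injective ev := by
    intro p q hpq
    apply Subtype.ext
    funext j
    rw [hall _ p.2 j, hall _ q.2 j]
    exact hpq
  have h4 : Nat.card K ∣ 4 := by
    have := Subgroup.card_dvd_of_injective ev hinj
    simpa using this
  have hc : IsCyclic K := isCyclic_of_injective ev hinj
  have hk1 : Nat.card K ∣ k + 1 := by
    rw [← IsCyclic.exponent_eq_card]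
    apply Monoid.exponent_dvd_of_forall_pow_eq_one
    intro p
    apply hinj
    rw [map_one]
    show ((p ^ (k + 1) : K) : Fin k → Multiplicative (ZMod 4)) i0 = 1
    rw [Subgroup.coe_pow, Pi.pow_apply]
    have h1 := hK _ p.2 0 i0.succ
    unfold uvec at h1
    rw [Fin.cons_zero, Fin.cons_succ, Finset.prod_congr rfl (fun j _ => hall _ p.2 j),
      Finset.prod_const, Finset.card_univ, Fintype.card_fin, inv_eq_iff_mul_eq_one] at h1
    rw [pow_succ]
    exact h1
  exact Nat.dvd_gcd hk1 h4

end diag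

section main

open scoped Manifold ContDiff

variable {E : Type} [NormedAddCommGroup E] [NormedSpace ℝ E] [FiniteDimensional ℝ E]
  {M : Type} [TopologicalSpace M] [ChartedSpace E M] [IsManifold 𝓘(ℝ, E) ∞ M]

/-- lifting `𝔽₂ × 𝔽₂` to the Gaussian integers -/
def lft (x : ZMod 2 × ZMod 2) : GaussianInt := ⟨x.1.val, x.2.val⟩

lemma lft_add (x y : ZMod 2 × ZMod 2) : ∃ t, lft (x + y) - (lft x + lft y) = 2 * t := by
  revert x y
  have h : ∀ x y : ZMod 2 × ZMod 2,
      (∃ a : Fin 2 × Fin 2, lft (x + y) - (lft x + lft y) =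
        2 * (⟨-(a.1.val : ℤ), -(a.2.val : ℤ)⟩ : GaussianInt)) := by decide
  intro x y
  obtain ⟨a, ha⟩ := h x y
  exact ⟨_, ha⟩

lemma lft_ne (x : ZMod 2 × ZMod 2) (hx : x ≠ 0) : ∃ t, lft x * t = ⟨1, 1⟩ := by
  revert x
  have h : ∀ x : ZMod 2 × ZMod 2, x ≠ 0 → lft x * (⟨1, 1⟩ : GaussianInt) = ⟨1, 1⟩ ∨
      lft x * (⟨1, -1⟩ : GaussianInt) = ⟨1, 1⟩ ∨ lft x * (1 : GaussianInt) = ⟨1, 1⟩ := by decide
  intro x hx
  rcases h x hx with h | h | h
  · exact ⟨_, h⟩
  · exact ⟨_, h⟩
  · exact ⟨_, h⟩

theorem gauss_finite {k : ℕ} (hk : 2 ≤ k) [CompactSpace M] [T2Space M] [ConnectedSpace M]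
    {a : Matrix.SpecialLinearGroup (Fin (k + 1)) GaussianInt → M → M} (ha : SmoothAction E a)
    (hdvd : ¬ ((4 : ℤ) ^ k ∣ (Nat.gcd (k + 1) 4 : ℤ) *
      (2 ^ finrank ℝ E * Pool.Agent.Helper381.eulerChar M))) :
    Finite (Matrix.SpecialLinearGroup (Fin (k + 1)) GaussianInt ⧸ actKer ha) := by
  classical
  have hn : 3 ≤ k + 1 := by omega
  set N := actKer ha with hN
  -- Step 1
  have h2 : (2 : GaussianInt) ∈ idealOf N hn := by
    have h1 := abelian_dvd_ker (P := Fin k → Multiplicative (ZMod 4))
      (fun p => by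
        funext j
        have : ∀ u : Multiplicative (ZMod 4), u ^ 4 = 1 := by decide
        exact this _) (ha.comp (dm k))
    set K := actKer (ha.comp (dm k)) with hK
    have hc : Nat.card (Fin k → Multiplicative (ZMod 4)) = 4 ^ k := by simp
    rw [hc] at h1
    by_cases hsc : ∀ p ∈ K, ∀ i j, uvec p i = uvec p j
    · exfalso
      apply hdvd
      have h3 := card_scalar hk K hsc
      have h4 : (Nat.card K : ℤ) ∣ (Nat.gcd (k + 1) 4 : ℤ) := by exact_mod_cast h3
      have h5 := h1.trans (mul_dvd_mul_right h4 _)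
      exact_mod_cast h5
    · push Not at hsc
      obtain ⟨p, hp, i, j, hij⟩ := hsc
      have hij' : i ≠ j := fun h => hij (by rw [h])
      have hpN : dm k p ∈ N := hp
      have h3 := mem_idealOf_diag N hn hij' hpN (fun i => zet (uvec p i)) rfl
        (zet (uvec p i / uvec p j)) (by rw [← map_mul, div_mul_cancel])
      obtain ⟨t, ht⟩ := zet_sub (uvec p i / uvec p j) (by rw [Ne, div_eq_one]; exact hij)
      rw [← ht]
      exact Ideal.mul_mem_right _ _ h3
  -- Step 2
  have hI : (⟨1, 1⟩ : GaussianInt) ∈ idealOf N hn := by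
    by_contra hI
    let b : Multiplicative (Fin k → ZMod 2 × ZMod 2) → M → M :=
      fun p => a (row (fun j => lft (p.toAdd j)))
    have hb : SmoothAction E b :=
      { one := fun y => by
          show a (row (fun j => lft 0)) y = y
          have : (fun _ : Fin k => lft 0) = 0 := rfl
          rw [this, row_zero]
          exact ha.one y
        mul := fun p q y => by
          show a (row (fun j => lft (p.toAdd j + q.toAdd j))) y = _
          have h3 : (fun j => lft (p.toAdd j + q.toAdd j)) =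
              (fun j => lft (p.toAdd j + q.toAdd j) - (lft (p.toAdd j) + lft (q.toAdd j))) +
                ((fun j => lft (p.toAdd j)) + (fun j => lft (q.toAdd j))) := by
            funext j
            simp only [Pi.add_apply]
            ring
          rw [h3, row_add, row_add, ha.mul, ha.mul]
          have h4 : row (fun j => lft (p.toAdd j + q.toAdd j) -
              (lft (p.toAdd j) + lft (q.toAdd j))) ∈ N := by
            apply row_mem hn N
            intro l
            obtain ⟨t, ht⟩ := lft_add (p.toAdd l) (q.toAdd l)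
            rw [ht]
            exact Ideal.mul_mem_right _ _ h2
          exact h4 _
        smooth := fun p => ha.smooth _ }
    have h1 := abelian_dvd (P := Multiplicative (Fin k → ZMod 2 × ZMod 2))
      (fun p => by
        show (4 : ℕ) • p.toAdd = 0
        funext j
        have : ∀ u : ZMod 2 × ZMod 2, (4 : ℕ) • u = 0 := by decide
        exact this _) hb (fun p hp => by
        have h3 : row (fun j => lft (p.toAdd j)) ∈ N := hp
        by_contra hp1
        apply hI
        have h4 : ∃ l, p.toAdd l ≠ 0 := by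
          by_contra h5
          push Not at h5
          exact hp1 (funext h5)
        obtain ⟨l, hl⟩ := h4
        obtain ⟨t, ht⟩ := lft_ne _ hl
        rw [← ht]
        exact Ideal.mul_mem_right _ _ (row_mem_ideal hk N _ h3 l))
    apply hdvd
    have hc : Nat.card (Multiplicative (Fin k → ZMod 2 × ZMod 2)) = 4 ^ k := by
      rw [Nat.card_congr Multiplicative.toAdd]
      simp
    rw [hc] at h1
    exact Dvd.dvd.mul_left (by exact_mod_cast h1) _
  -- Step 3
  refine finite_quot hn N h2 (fun c => ?_)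
  obtain ⟨x, y⟩ := c
  have h3 : (⟨x, y⟩ : GaussianInt) = ⟨1, 1⟩ * ⟨y, 0⟩ + ⟨x - y, 0⟩ := by
    ext <;> simp
  have h4 : (⟨1, 1⟩ : GaussianInt) * ⟨y, 0⟩ ∈ idealOf N hn := Ideal.mul_mem_right _ _ hI
  rcases Int.even_or_odd' (x - y) with ⟨t, ht | ht⟩
  · left
    rw [h3, ht]
    refine Ideal.add_mem _ h4 ?_
    have : (⟨2 * t, 0⟩ : GaussianInt) = 2 * ⟨t, 0⟩ := by ext <;> simp
    rw [this]
    exact Ideal.mul_mem_right _ _ h2
  · right
    rw [h3, ht]
    have : (⟨1, 1⟩ * ⟨y, 0⟩ + ⟨2 * t + 1, 0⟩ - 1 : GaussianInt) = ⟨1, 1⟩ * ⟨y, 0⟩ + 2 * ⟨t, 0⟩ := by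
      ext
      · simp; ring
      · simp
    rw [this]
    exact Ideal.add_mem _ h4 (Ideal.mul_mem_right _ _ h2)

end main

end Pool.Agent.H185.ZM
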