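import Pool.Agent.H185.ZM.Equi

/-!
# The isotropy representation of a finite group acting smoothly on a connected manifold is faithful
-/

set_option autoImplicit false
set_option linter.unusedSectionVars false

namespace Pool.Agent.H185.ZM

open scoped Manifold ContDiff Topology ENNReal
open Bundle Manifold Set Filter Module

variable {E : Type} [NormedAddCommGroup E] [NormedSpace ℝ E] [FiniteDimensional ℝ E]
  {M : Type} [TopologicalSpace M] [ChartedSpace E M] [IsManifold 𝓘(ℝ, E) ∞ M]
  {P : Type} [Group P] {a : P → M → M} {W : Type} [NormedAddCommGroup W]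
  [InnerProductSpace ℝ W] {F : M → W} {T : P → W →L[ℝ] W}

/-- the tangent space of the embedded manifold, a subspace of the ambient space -/
noncomputable def TS (E : Type) [NormedAddCommGroup E] [NormedSpace ℝ E] {M : Type}
    [TopologicalSpace M] [ChartedSpace E M] {W : Type} [NormedAddCommGroup W]
    [InnerProductSpace ℝ W] (F : M → W) (x : M) : Submodule ℝ W :=
  LinearMap.range (DF E F x : E →ₗ[ℝ] W)

instance (x : M) : FiniteDimensional ℝ (TS E F x) := by
  unfold TS; infer_instance

lemma mem_TS (x : M) (v : E) : DF E F x v ∈ TS E F x := ⟨v, rfl⟩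

lemma EquiEmb.T_mem (h : EquiEmb E a W F T) (ha : SmoothAction E a) {p : P} {x : M}
    (hx : a p x = x) {v : W} (hv : v ∈ TS E F x) : T p v ∈ TS E F x := by
  obtain ⟨u, rfl⟩ := hv
  have h1 := h.D_act ha p x u
  rw [hx] at h1
  exact ⟨_, h1⟩

lemma EquiEmb.finrank_TS (h : EquiEmb E a W F T) (x : M) :
    finrank ℝ (TS E F x) = finrank ℝ E :=
  LinearMap.finrank_range_of_inj (f := (DF E F x : E →ₗ[ℝ] W)) (h.imm x)

/-- the projection of the embedded manifold to the tangent space at `x` -/
noncomputable def phi (E : Type) [NormedAddCommGroup E] [NormedSpace ℝ E] [FiniteDimensional ℝ E]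
    {M : Type} [TopologicalSpace M] [ChartedSpace E M] {W : Type} [NormedAddCommGroup W]
    [InnerProductSpace ℝ W] (F : M → W) (x : M) (y : M) : TS E F x :=
  (TS E F x).orthogonalProjectionOnto (F y)

lemma inv_fix (ha : SmoothAction E a) {p : P} {x : M} (hx : a p x = x) : a p⁻¹ x = x := by
  conv_lhs => rw [← hx]
  rw [← ha.mul, inv_mul_cancel, ha.one]

/-- equivariance of the projection -/
lemma EquiEmb.phi_act (h : EquiEmb E a W F T) (ha : SmoothAction E a) {p : P} {x : M}
    (hx : a p x = x) (y : M) : (phi E F x (a p y) : W) = T p (phi E F x y) := by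
  have h1 : (phi E F x (a p y) : W) = (TS E F x).starProjection (F (a p y)) := rfl
  have h2 : (phi E F x y : W) = (TS E F x).starProjection (F y) := rfl
  rw [h1, h2]
  apply Submodule.eq_starProjection_of_mem_of_inner_eq_zero
  · apply h.T_mem ha hx
    exact Submodule.starProjection_apply_mem _ _
  · intro w hw
    have h3 : T p (T p⁻¹ w) = w := by rw [← h.mul, mul_inv_cancel, h.one]
    have h4 : T p⁻¹ w ∈ TS E F x := h.T_mem ha (inv_fix ha hx) hw
    rw [h.equi, ← map_sub, ← h3, h.isom]
    exact Submodule.starProjection_inner_eq_zero _ _ h4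

/-- the local homeomorphism given by the projection -/
theorem EquiEmb.exists_local (h : EquiEmb E a W F T) (x : M) :
    ∃ Φ : OpenPartialHomeomorph M (TS E F x), x ∈ Φ.source ∧
      ∀ y ∈ Φ.source, Φ y = phi E F x y := by
  have hs : ContMDiff 𝓘(ℝ, E) 𝓘(ℝ, TS E F x) ∞ (phi E F x) :=
    ((TS E F x).orthogonalProjectionOnto).contDiff.contMDiff.comp h.smooth
  -- the derivative
  let L : E ≃ₗ[ℝ] TS E F x := LinearEquiv.ofInjective (DF E F x : E →ₗ[ℝ] W) (h.imm x)
  let L' : E ≃L[ℝ] TS E F x := L.toContinuousLinearEquiv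
  have d3 : MDifferentiableAt 𝓘(ℝ, E) 𝓘(ℝ, W) F x := (h.smooth _).mdifferentiableAt (by simp)
  have e3 := (((TS E F x).orthogonalProjectionOnto).hasFDerivAt (x := F x)).hasMFDerivAt.comp x
    d3.hasMFDerivAt
  have e4 : ((TS E F x).orthogonalProjectionOnto).comp (DF E F x) = (L' : E →L[ℝ] TS E F x) := by
    ext v
    show ((TS E F x).orthogonalProjectionOnto (DF E F x v) : W) = (L v : W)
    have h5 := Submodule.orthogonalProjectionOnto_mem_subspace_eq_self
      (K := TS E F x) ⟨DF E F x v, mem_TS x v⟩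
    exact congrArg Subtype.val h5
  have e5 : HasFDerivAt (phi E F x ∘ (chartAt E x).symm) (L' : E →L[ℝ] TS E F x)
      (chartAt E x x) := by
    have h6 := e3.2
    rw [← e4]
    have h7 : HasFDerivWithinAt (phi E F x ∘ (chartAt E x).symm)
      (((TS E F x).orthogonalProjectionOnto).comp (DF E F x)) univ (chartAt E x x) := by
      simp only [writtenInExtChartAt, mfld_simps] at h6
      exact h6
    exact h7.hasFDerivAt Filter.univ_mem
  have e6 : ContDiffAt ℝ ∞ (phi E F x ∘ (chartAt E x).symm) (chartAt E x x) := by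
    have := Pool.Agent.H839R2.Geo.contDiffAt_chart hs x (y := extChartAt 𝓘(ℝ, E) x x)
      (mem_extChartAt_target x)
    simpa using this
  let Ψ := e6.toOpenPartialHomeomorph _ e5 (by simp)
  refine ⟨(chartAt E x).trans Ψ, ?_, ?_⟩
  · rw [OpenPartialHomeomorph.trans_source]
    exact ⟨mem_chart_source E x, e6.mem_toOpenPartialHomeomorph_source e5 (by simp)⟩
  · intro y hy
    rw [OpenPartialHomeomorph.trans_source] at hy
    show phi E F x ((chartAt E x).symm (chartAt E x y)) = phi E F x y
    rw [(chartAt E x).left_inv hy.1]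

/-- a transformation which fixes `x` and acts trivially on the tangent space is trivial near `x` -/
lemma EquiEmb.eventually_fix (h : EquiEmb E a W F T) (ha : SmoothAction E a) {p : P} {x : M}
    (hx : a p x = x) (hT : ∀ v ∈ TS E F x, T p v = v) : ∀ᶠ y in 𝓝 x, a p y = y := by
  obtain ⟨Φ, hΦx, hΦ⟩ := h.exists_local (E := E) x
  have h1 : ∀ᶠ y in 𝓝 x, y ∈ Φ.source := Φ.open_source.mem_nhds hΦx
  have h2 : ∀ᶠ y in 𝓝 x, a p y ∈ Φ.source := by
    have hc : ContinuousAt (a p) x := (ha.smooth p).continuous.continuousAt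
    apply hc
    rw [hx]
    exact Φ.open_source.mem_nhds hΦx
  filter_upwards [h1, h2] with y hy1 hy2
  apply Φ.injOn hy2 hy1
  rw [hΦ _ hy2, hΦ _ hy1]
  apply Subtype.ext
  rw [h.phi_act ha hx]
  exact hT _ (phi E F x y).2

/-- if `p` is trivial on open sets arbitrarily close to `x` then it is trivial near `x` -/
lemma EquiEmb.trivial_of_closure [T2Space M] (h : EquiEmb E a W F T) (ha : SmoothAction E a)
    {p : P} {x : M} (hx : x ∈ closure (interior {y | a p y = y})) :
    x ∈ interior {y | a p y = y} := by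
  have hcl : IsClosed {y | a p y = y} := isClosed_eq (ha.smooth p).continuous continuous_id
  have hxp : a p x = x := (closure_minimal interior_subset hcl) hx
  obtain ⟨Φ, hΦx, hΦ⟩ := h.exists_local (E := E) x
  rw [mem_closure_iff] at hx
  obtain ⟨z, hz1, hz2⟩ := hx Φ.source Φ.open_source hΦx
  have hO : IsOpen (Φ.source ∩ interior {y | a p y = y}) := Φ.open_source.inter isOpen_interior
  have hO' : IsOpen (Φ '' (Φ.source ∩ interior {y | a p y = y})) :=
    Φ.isOpen_image_of_subset_source hO inter_subset_left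
  -- the linear map T p - 1 on the tangent space vanishes on an open set
  have h5 : ∀ u ∈ Φ '' (Φ.source ∩ interior {y | a p y = y}), T p (u : W) = u := by
    rintro _ ⟨y, ⟨hy1, hy2⟩, rfl⟩
    rw [hΦ y hy1]
    have h6 := h.phi_act ha hxp y
    have h7 : y ∈ {y | a p y = y} := interior_subset hy2
    have h7' : a p y = y := h7
    rw [h7'] at h6
    exact h6.symm
  have h8 : ∀ v ∈ TS E F x, T p v = v := by
    intro v hv
    have hc : Continuous (fun t : ℝ => (Φ z : TS E F x) + t • (⟨v, hv⟩ : TS E F x)) := by fun_prop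
    have h9 : ∀ᶠ t in 𝓝 (0 : ℝ), (Φ z : TS E F x) + t • (⟨v, hv⟩ : TS E F x) ∈
        Φ '' (Φ.source ∩ interior {y | a p y = y}) := by
      have h10 := hc.tendsto (0 : ℝ)
      rw [zero_smul, add_zero] at h10
      exact h10 (hO'.mem_nhds ⟨z, ⟨hz1, hz2⟩, rfl⟩)
    obtain ⟨ε, hε, hεt⟩ := Metric.eventually_nhds_iff.1 h9
    have h11 := h5 _ (hεt (y := ε / 2) (by
      rw [Real.dist_eq, sub_zero, abs_of_pos (by linarith)]; linarith))
    have h12 := h5 _ ⟨z, ⟨hz1, hz2⟩, rfl⟩
    have h13 : ((Φ z + (ε / 2) • (⟨v, hv⟩ : TS E F x) : TS E F x) : W) =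
      (Φ z : W) + (ε / 2) • v := rfl
    rw [h13, map_add, h12, map_smul] at h11
    have h14 : (ε / 2) • T p v = (ε / 2) • v := add_left_cancel h11
    exact smul_right_injective W (by linarith : ε / 2 ≠ 0) h14
  rw [mem_interior_iff_mem_nhds]
  exact h.eventually_fix ha hxp h8

theorem EquiEmb.trivial_of_fix [T2Space M] [PreconnectedSpace M] (h : EquiEmb E a W F T)
    (ha : SmoothAction E a) {p : P} {x : M} (hx : a p x = x)
    (hT : ∀ v ∈ TS E F x, T p v = v) (y : M) : a p y = y := by
  have h1 : x ∈ interior {y | a p y = y} := by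
    rw [mem_interior_iff_mem_nhds]
    exact h.eventually_fix ha hx hT
  have h2 : IsClopen (interior {y | a p y = y}) :=
    ⟨isClosed_of_closure_subset fun z hz => h.trivial_of_closure ha hz, isOpen_interior⟩
  have h3 := h2.eq_univ ⟨x, h1⟩
  have h4 : y ∈ interior {y | a p y = y} := by rw [h3]; trivial
  have h5 : y ∈ {y | a p y = y} := interior_subset h4
  exact h5

/-- **The isotropy representation.** -/
theorem EquiEmb.isotropy [T2Space M] [PreconnectedSpace M] (h : EquiEmb E a W F T)
    (ha : SmoothAction E a) (hf : ∀ p, (∀ y, a p y = y) → p = 1) (x : M) (Q : Subgroup P)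
    (hQ : ∀ q ∈ Q, a q x = x) :
    ∃ ρ : Q →* (TS E F x →ₗ[ℝ] TS E F x), Function.Injective ρ := by
  let ρ : Q →* (TS E F x →ₗ[ℝ] TS E F x) :=
    { toFun := fun q => ((T q : W →ₗ[ℝ] W)).restrict
        (fun v hv => h.T_mem ha (hQ q q.2) hv)
      map_one' := by
        ext v
        exact h.one v
      map_mul' := fun p q => by
        ext v
        exact h.mul p q v }
  refine ⟨ρ, (injective_iff_map_eq_one ρ).2 fun q hq => ?_⟩
  apply Subtype.ext
  apply hf
  intro y
  apply h.trivial_of_fix ha (hQ q q.2)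
  intro v hv
  have h1 : ρ q ⟨v, hv⟩ = ⟨v, hv⟩ := by rw [hq]; rfl
  exact congrArg Subtype.val h1

/-- The isotropy representation, abstract form. -/
theorem exists_isotropy [CompactSpace M] [T2Space M] [PreconnectedSpace M] {P : Type} [Group P]
    [Finite P] {a : P → M → M} (ha : SmoothAction E a) (hf : ∀ p, (∀ y, a p y = y) → p = 1)
    (x : M) (Q : Subgroup P) (hQ : ∀ q ∈ Q, a q x = x) :
    ∃ (V : Type) (_ : AddCommGroup V) (_ : Module ℝ V) (_ : FiniteDimensional ℝ V)
      (ρ : Q →* (V →ₗ[ℝ] V)), finrank ℝ V = finrank ℝ E ∧ Function.Injective ρ := by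
  obtain ⟨W, _, _, _, F, T, hF⟩ := exists_equi ha
  obtain ⟨ρ, hρ⟩ := hF.isotropy ha hf x Q hQ
  exact ⟨TS E F x, inferInstance, inferInstance, inferInstance, ρ, hF.finrank_TS x, hρ⟩

end Pool.Agent.H185.ZM
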