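import Pool.Agent.H185.ZM.Hom

/-!
# Real representations of groups with central squares
-/

set_option autoImplicit false

namespace Pool.Agent.H185.ZM

open Module

section linear

variable {V : Type} [AddCommGroup V] [Module ℝ V] [FiniteDimensional ℝ V]

lemma end_mul_apply (A B : V →ₗ[ℝ] V) (v : V) : (A * B) v = A (B v) := rfl

/-- a representation of the quaternions has dimension at least four -/
theorem four_le (A B : V →ₗ[ℝ] V) (hA : A * A = -1) (hB : B * B = -1) (hAB : A * B = -(B * A))
    {v : V} (hv : v ≠ 0) : 4 ≤ finrank ℝ V := by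
  have a1 : ∀ w, A (A w) = -w := fun w => LinearMap.congr_fun hA w
  have b1 : ∀ w, B (B w) = -w := fun w => LinearMap.congr_fun hB w
  have c1 : ∀ w, A (B w) = -(B (A w)) := fun w => LinearMap.congr_fun hAB w
  let f : (Fin 4 → ℝ) →ₗ[ℝ] V :=
    { toFun := fun x => x 0 • v + x 1 • A v + x 2 • B v + x 3 • A (B v)
      map_add' := fun x y => by
        simp only [Pi.add_apply, add_smul]
        abel
      map_smul' := fun c x => by
        simp only [Pi.smul_apply, smul_eq_mul, RingHom.id_apply, smul_add, smul_smul] }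
  have hf : Function.Injective f := by
    rw [injective_iff_map_eq_zero]
    intro x hx
    have h0 : x 0 • v + x 1 • A v + x 2 • B v + x 3 • A (B v) = 0 := hx
    have h1 : (x 0 ^ 2 + x 1 ^ 2 + x 2 ^ 2 + x 3 ^ 2) • v = 0 := by
      have h2 : x 0 • (x 0 • v + x 1 • A v + x 2 • B v + x 3 • A (B v))
          - x 1 • A (x 0 • v + x 1 • A v + x 2 • B v + x 3 • A (B v))
          - x 2 • B (x 0 • v + x 1 • A v + x 2 • B v + x 3 • A (B v))
          - x 3 • A (B (x 0 • v + x 1 • A v + x 2 • B v + x 3 • A (B v))) =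
          (x 0 ^ 2 + x 1 ^ 2 + x 2 ^ 2 + x 3 ^ 2) • v := by
        simp only [map_add, map_smul, a1, b1, c1, map_neg]
        module
      rw [← h2, h0]
      simp
    have h3 := (smul_eq_zero.1 h1).resolve_right hv
    have hx0 : x 0 = 0 := by nlinarith [sq_nonneg (x 0), sq_nonneg (x 1), sq_nonneg (x 2), sq_nonneg (x 3)]
    have hx1 : x 1 = 0 := by nlinarith [sq_nonneg (x 0), sq_nonneg (x 1), sq_nonneg (x 2), sq_nonneg (x 3)]
    have hx2 : x 2 = 0 := by nlinarith [sq_nonneg (x 0), sq_nonneg (x 1), sq_nonneg (x 2), sq_nonneg (x 3)]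
    have hx3 : x 3 = 0 := by nlinarith [sq_nonneg (x 0), sq_nonneg (x 1), sq_nonneg (x 2), sq_nonneg (x 3)]
    funext i
    fin_cases i
    · exact hx0
    · exact hx1
    · exact hx2
    · exact hx3
  have h := LinearMap.finrank_le_finrank_of_injective hf
  simpa using h

/-- in dimension two, an endomorphism commuting with a complex structure with non-zero kernel
vanishes -/
theorem comm_zero (J S : V →ₗ[ℝ] V) (hJ : J * J = -1) (hS : S * J = J * S)
    (hV : finrank ℝ V = 2) {v : V} (hv : v ≠ 0) (hSv : S v = 0) : S = 0 := by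
  have a1 : ∀ w, J (J w) = -w := fun w => LinearMap.congr_fun hJ w
  have c1 : ∀ w, S (J w) = J (S w) := fun w => LinearMap.congr_fun hS w
  let f : (Fin 2 → ℝ) →ₗ[ℝ] V :=
    { toFun := fun x => x 0 • v + x 1 • J v
      map_add' := fun x y => by
        simp only [Pi.add_apply, add_smul]
        abel
      map_smul' := fun c x => by
        simp only [Pi.smul_apply, smul_eq_mul, RingHom.id_apply, smul_add, smul_smul] }
  have hf : Function.Injective f := by
    rw [injective_iff_map_eq_zero]
    intro x hx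
    have h0 : x 0 • v + x 1 • J v = 0 := hx
    have h1 : (x 0 ^ 2 + x 1 ^ 2) • v = 0 := by
      have h2 : x 0 • (x 0 • v + x 1 • J v) - x 1 • J (x 0 • v + x 1 • J v) =
          (x 0 ^ 2 + x 1 ^ 2) • v := by
        simp only [map_add, map_smul, a1]
        module
      rw [← h2, h0]
      simp
    have h3 := (smul_eq_zero.1 h1).resolve_right hv
    have hx0 : x 0 = 0 := by nlinarith [sq_nonneg (x 0), sq_nonneg (x 1)]
    have hx1 : x 1 = 0 := by nlinarith [sq_nonneg (x 0), sq_nonneg (x 1)]
    funext i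
    fin_cases i
    · exact hx0
    · exact hx1
  have hsurj : Function.Surjective f :=
    (LinearMap.injective_iff_surjective_of_finrank_eq_finrank (by simp [hV])).1 hf
  ext w
  obtain ⟨x, rfl⟩ := hsurj w
  show S (x 0 • v + x 1 • J v) = 0
  rw [map_add, map_smul, map_smul, c1, hSv, map_zero, smul_zero, smul_zero, add_zero]

/-- `T² = U²` and commuting: `T = ± U` in dimension two -/
theorem eq_or_neg (J T U : V →ₗ[ℝ] V) (hJ : J * J = -1) (hT : T * J = J * T) (hU : U * J = J * U)
    (hTU : T * U = U * T) (hsq : T * T = U * U) (hV : finrank ℝ V = 2) : T = U ∨ T = -U := by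
  by_cases h : T + U = 0
  · right
    exact eq_neg_of_add_eq_zero_left h
  · left
    have h1 : ∃ w, (T + U) w ≠ 0 := by
      by_contra hcon
      push Not at hcon
      exact h (LinearMap.ext hcon)
    obtain ⟨w, hw⟩ := h1
    have h2 : (T - U) * (T + U) = 0 := by
      rw [mul_add, sub_mul, sub_mul, hsq, hTU]
      abel
    have h3 := comm_zero J (T - U) hJ (by rw [sub_mul, mul_sub, hT, hU]) hV hw
      (LinearMap.congr_fun h2 w)
    exact sub_eq_zero.1 h3

end linear

section grp

variable {G : Type} [Group G] [Finite G]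

/-- `C` is a central subgroup of exponent two containing all squares. -/
structure SqC (C : Subgroup G) : Prop where
  comm : ∀ c ∈ C, ∀ g, c * g = g * c
  two : ∀ c ∈ C, c * c = 1
  sq : ∀ g, g * g ∈ C

omit [Finite G] in
lemma SqC.comm_mem {C : Subgroup G} (h : SqC C) (x y : G) : x * y * x⁻¹ * y⁻¹ ∈ C := by
  have h1 : x * y * x⁻¹ * y⁻¹ = (x * y) * (x * y) * ((x * x)⁻¹ * (y * y)⁻¹) := by
    have h2 := h.comm _ (C.inv_mem (h.sq x)) y
    have h3 : (x * y) * (x * y) * ((x * x)⁻¹ * (y * y)⁻¹) =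
        x * y * x * (y * (x * x)⁻¹) * (y * y)⁻¹ := by group
    rw [h3, ← h2]
    group
  rw [h1]
  exact C.mul_mem (h.sq _) (C.mul_mem (C.inv_mem (h.sq _)) (C.inv_mem (h.sq _)))

variable {V : Type} [AddCommGroup V] [Module ℝ V] [FiniteDimensional ℝ V]

/-- the two-dimensional case -/
theorem dim_two {C : Subgroup G} (hC : SqC C) (ρ : G →* (V →ₗ[ℝ] V)) (hV : finrank ℝ V = 2)
    (hpm : ∀ c ∈ C, ρ c = 1 ∨ ρ c = -1) :
    ∃ G' : Subgroup G, G'.index ≤ 2 ∧ ∀ g ∈ G', ρ (g * g) = 1 := by
  classical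
  obtain ⟨v, hv⟩ : ∃ v : V, v ≠ 0 :=
    (Module.finrank_pos_iff_exists_ne_zero (R := ℝ)).1 (by rw [hV]; norm_num)
  have hne : (1 : V →ₗ[ℝ] V) ≠ -1 := by
    intro h
    have h1 : v = -v := LinearMap.congr_fun h v
    have h2 : (2 : ℝ) • v = 0 := by rw [two_smul]; nth_rewrite 1 [h1]; simp
    exact hv ((smul_eq_zero.1 h2).resolve_left (by norm_num))
  by_cases hall : ∀ g, ρ (g * g) = 1
  · exact ⟨⊤, by simp, fun g _ => hall g⟩
  push Not at hall
  obtain ⟨J, hJ1⟩ := hall
  have hJ : ρ J * ρ J = -1 := by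
    rw [← map_mul]
    exact (hpm _ (hC.sq J)).resolve_left hJ1
  have hca : ∀ x y : G, ρ x * ρ y = ρ y * ρ x ∨ ρ x * ρ y = -(ρ y * ρ x) := by
    intro x y
    have h1 : x * y = (x * y * x⁻¹ * y⁻¹) * (y * x) := by group
    rcases hpm _ (hC.comm_mem x y) with h | h
    · left
      rw [← map_mul, h1, map_mul, h, one_mul, map_mul]
    · right
      rw [← map_mul, h1, map_mul, h, neg_one_mul, map_mul]
  have hinv : ∀ x : G, ρ x * ρ x⁻¹ = 1 := fun x => by rw [← map_mul, mul_inv_cancel, map_one]
  have hinv' : ∀ x : G, ρ x⁻¹ * ρ x = 1 := fun x => by rw [← map_mul, inv_mul_cancel, map_one]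
  by_cases hr : ∃ r, ρ r * ρ J = -(ρ J * ρ r)
  · obtain ⟨r, hr⟩ := hr
    let G' : Subgroup G :=
      { carrier := {g | ρ g * ρ r = ρ r * ρ g}
        one_mem' := by simp
        mul_mem' := fun {x y} hx hy => by
          show ρ (x * y) * ρ r = ρ r * ρ (x * y)
          have hx' : ρ x * ρ r = ρ r * ρ x := hx
          have hy' : ρ y * ρ r = ρ r * ρ y := hy
          rw [map_mul, mul_assoc, hy', ← mul_assoc, hx', mul_assoc]
        inv_mem' := fun {x} hx => by
          show ρ x⁻¹ * ρ r = ρ r * ρ x⁻¹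
          have hx' : ρ x * ρ r = ρ r * ρ x := hx
          calc ρ x⁻¹ * ρ r = ρ x⁻¹ * (ρ r * ρ x) * ρ x⁻¹ := by
                rw [mul_assoc, mul_assoc, hinv, mul_one]
            _ = ρ r * ρ x⁻¹ := by rw [← hx', ← mul_assoc, hinv', one_mul] }
    have hG' : ∀ g, g ∈ G' ↔ ρ g * ρ r = ρ r * ρ g := fun g => Iff.rfl
    refine ⟨G', ?_, ?_⟩
    · have h1 : G'.index ∣ 2 := by
        rw [← Subgroup.relIndex_top_right, Subgroup.relIndex_dvd_two_iff]
        by_cases ha : ∃ a, a ∉ G'
        · obtain ⟨a, ha⟩ := ha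
          refine ⟨a, trivial, fun b _ => ?_⟩
          by_cases hb : b ∈ G'
          · exact Or.inr hb
          · left
            have ha' := (hca a r).resolve_left ha
            have hb' := (hca b r).resolve_left hb
            rw [hG', map_mul, mul_assoc, ha', mul_neg, ← mul_assoc, hb', neg_mul, neg_neg, mul_assoc]
        · push Not at ha
          exact ⟨1, trivial, fun b _ => Or.inr (ha b)⟩
      exact Nat.le_of_dvd (by norm_num) h1
    · intro g hg
      by_contra hgg
      have hg2 : ρ g * ρ g = -1 := by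
        rw [← map_mul]
        exact (hpm _ (hC.sq g)).resolve_left hgg
      rcases hca g J with h | h
      · have key : ∀ s : V →ₗ[ℝ] V, s * s = -1 → s * ρ J = ρ J * s → s * ρ r = ρ r * s →
            ρ J * ρ r = ρ r * ρ J := by
          intro s hs hsJ hsr
          rcases eq_or_neg (ρ J) s (ρ J) hJ hsJ rfl hsJ (by rw [hs, hJ]) hV with h1 | h1
          · rwa [h1] at hsr
          · rw [h1, neg_mul, mul_neg, neg_inj] at hsr
            exact hsr
        have h1 := key _ hg2 h hg
        rw [← h1] at hr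
        -- `ρ J * ρ r = - (ρ J * ρ r)`
        apply hne
        have h2 : ρ J⁻¹ * (ρ J * ρ r) * ρ r⁻¹ = ρ J⁻¹ * (-(ρ J * ρ r)) * ρ r⁻¹ := by rw [← hr]
        have h3 : ρ J⁻¹ * (ρ J * ρ r) * ρ r⁻¹ = 1 := by
          rw [← mul_assoc, hinv', one_mul, hinv]
        rw [mul_neg, neg_mul, h3] at h2
        exact h2
      · have h4 := four_le (ρ g) (ρ J) hg2 hJ h hv
        omega
  · push Not at hr
    have hcom : ∀ g, ρ g * ρ J = ρ J * ρ g := fun g => (hca g J).resolve_right (hr g)
    let G' : Subgroup G :=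
      { carrier := {g | ρ g = 1 ∨ ρ g = -1}
        one_mem' := Or.inl (map_one _)
        mul_mem' := fun {x y} hx hy => by
          show ρ (x * y) = 1 ∨ ρ (x * y) = -1
          rw [map_mul]
          rcases hx with hx | hx <;> rcases hy with hy | hy <;> rw [hx, hy] <;> simp
        inv_mem' := fun {x} hx => by
          show ρ x⁻¹ = 1 ∨ ρ x⁻¹ = -1
          rcases hx with hx | hx
          · left
            have := hinv x
            rwa [hx, one_mul] at this
          · right
            have := hinv x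
            rw [hx, neg_one_mul] at this
            rw [← this, neg_neg] }
    have hG' : ∀ g, g ∈ G' ↔ (ρ g = 1 ∨ ρ g = -1) := fun g => Iff.rfl
    refine ⟨G', ?_, ?_⟩
    · have h1 : G'.index ∣ 2 := by
        rw [← Subgroup.relIndex_top_right, Subgroup.relIndex_dvd_two_iff]
        refine ⟨J, trivial, fun b _ => ?_⟩
        rcases hpm _ (hC.sq b) with h | h
        · right
          rw [map_mul] at h
          exact eq_or_neg (ρ J) (ρ b) 1 hJ (hcom b) (by simp) (by simp) (by rw [h, one_mul]) hV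
        · left
          rw [map_mul] at h
          rw [hG', map_mul]
          rcases eq_or_neg (ρ J) (ρ b) (ρ J) hJ (hcom b) rfl (hcom b) (by rw [h, hJ]) hV with h1 | h1
          · right; rw [h1, hJ]
          · left; rw [h1, neg_mul, hJ, neg_neg]
      exact Nat.le_of_dvd (by norm_num) h1
    · intro g hg
      rw [map_mul]
      rcases hg with h | h <;> rw [h] <;> simp

/-- the structure theorem for real representations of groups with central squares -/
theorem struct (n : ℕ) : ∀ (V : Type) [AddCommGroup V] [Module ℝ V] [FiniteDimensional ℝ V]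
    (C : Subgroup G) (_ : SqC C) (ρ : G →* (V →ₗ[ℝ] V)), finrank ℝ V = n →
    ∃ (t b : ℕ) (G' B' : Subgroup G), G'.index ≤ 2 ^ t ∧ B' ≤ C ∧ (∀ g ∈ G', g * g ∈ B') ∧
      ρ.ker.relIndex B' ≤ 2 ^ b ∧ 4 * b + 2 * t ≤ n := by
  classical
  induction n using Nat.strong_induction_on with
  | _ n ih =>
  intro V _ _ _ C hC ρ hn
  by_cases hA : ∃ c ∈ C, ρ c ≠ 1 ∧ ρ c ≠ -1
  · obtain ⟨a, haC, ha1, ha2⟩ := hA
    have ha : ρ a * ρ a = 1 := by rw [← map_mul, hC.two a haC, map_one]
    have hsv : ∀ v, ρ a (ρ a v) = v := fun v => LinearMap.congr_fun ha v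
    have hcomm : ∀ (b : G) (v : V), ρ b (ρ a v) = ρ a (ρ b v) := by
      intro b v
      have h1 : ρ b * ρ a = ρ a * ρ b := by rw [← map_mul, ← map_mul, hC.comm a haC]
      exact LinearMap.congr_fun h1 v
    let Vp : Submodule ℝ V := LinearMap.ker (ρ a - 1)
    let Vm : Submodule ℝ V := LinearMap.ker (ρ a + 1)
    have hVp : ∀ v, v ∈ Vp ↔ ρ a v = v := by
      intro v
      rw [LinearMap.mem_ker, LinearMap.sub_apply, sub_eq_zero]
      rfl
    have hVm : ∀ v, v ∈ Vm ↔ ρ a v = -v := by
      intro v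
      rw [LinearMap.mem_ker, LinearMap.add_apply, ← eq_neg_iff_add_eq_zero]
      rfl
    have hdec : ∀ v : V, ∃ u ∈ Vp, ∃ w ∈ Vm, v = u + w := by
      intro v
      refine ⟨(1 / 2 : ℝ) • (v + ρ a v), ?_, (1 / 2 : ℝ) • (v - ρ a v), ?_, ?_⟩
      · rw [hVp, map_smul, map_add, hsv, add_comm]
      · rw [hVm, map_smul, map_sub, hsv, ← smul_neg, neg_sub]
      · rw [← smul_add]
        have : v + ρ a v + (v - ρ a v) = (2 : ℝ) • v := by rw [two_smul]; abel
        rw [this, smul_smul]
        norm_num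
    have hcompl : IsCompl Vp Vm := by
      constructor
      · rw [Submodule.disjoint_def]
        intro v h1 h2
        rw [hVp] at h1
        rw [hVm, h1] at h2
        have : (2 : ℝ) • v = 0 := by rw [two_smul]; nth_rewrite 1 [h2]; simp
        exact (smul_eq_zero.1 this).resolve_left (by norm_num)
      · rw [codisjoint_iff, eq_top_iff]
        intro v _
        obtain ⟨u, hu, w, hw, rfl⟩ := hdec v
        exact Submodule.add_mem_sup hu hw
    have hrank := Submodule.finrank_add_eq_of_isCompl hcompl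
    have hp0 : 0 < finrank ℝ Vp := by
      rw [Nat.pos_iff_ne_zero]
      intro h0
      have h1 : Vp = ⊥ := Submodule.finrank_eq_zero.1 h0
      apply ha2
      ext v
      obtain ⟨u, hu, w, hw, rfl⟩ := hdec v
      rw [h1, Submodule.mem_bot] at hu
      rw [hu, zero_add]
      exact (hVm w).1 hw
    have hm0 : 0 < finrank ℝ Vm := by
      rw [Nat.pos_iff_ne_zero]
      intro h0
      have h1 : Vm = ⊥ := Submodule.finrank_eq_zero.1 h0
      apply ha1
      ext v
      obtain ⟨u, hu, w, hw, rfl⟩ := hdec v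
      rw [h1, Submodule.mem_bot] at hw
      rw [hw, add_zero]
      exact (hVp u).1 hu
    let ρp : G →* (Vp →ₗ[ℝ] Vp) :=
      { toFun := fun b => (ρ b).restrict (fun v hv => by
          rw [hVp] at hv ⊢
          rw [← hcomm, hv])
        map_one' := by
          ext v
          show ρ 1 (v : V) = v
          rw [map_one]; rfl
        map_mul' := fun b c => by
          ext v
          show ρ (b * c) (v : V) = ρ b (ρ c v)
          rw [map_mul]; rfl }
    let ρm : G →* (Vm →ₗ[ℝ] Vm) :=
      { toFun := fun b => (ρ b).restrict (fun v hv => by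
          rw [hVm] at hv ⊢
          rw [← hcomm, hv, map_neg])
        map_one' := by
          ext v
          show ρ 1 (v : V) = v
          rw [map_one]; rfl
        map_mul' := fun b c => by
          ext v
          show ρ (b * c) (v : V) = ρ b (ρ c v)
          rw [map_mul]; rfl }
    have hker : ρp.ker ⊓ ρm.ker ≤ ρ.ker := by
      intro g hg
      rw [Subgroup.mem_inf, MonoidHom.mem_ker, MonoidHom.mem_ker] at hg
      rw [MonoidHom.mem_ker]
      ext v
      obtain ⟨u, hu, w, hw, rfl⟩ := hdec v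
      have h2 : ρ g u = u := congrArg Subtype.val (LinearMap.congr_fun hg.1 ⟨u, hu⟩)
      have h3 : ρ g w = w := congrArg Subtype.val (LinearMap.congr_fun hg.2 ⟨w, hw⟩)
      rw [map_add, h2, h3]
      rfl
    obtain ⟨t1, b1, G1, B1, hG1, hB1, hs1, hk1, hd1⟩ := ih _ (by omega) Vp C hC ρp rfl
    obtain ⟨t2, b2, G2, B2, hG2, hB2, hs2, hk2, hd2⟩ := ih _ (by omega) Vm C hC ρm rfl
    refine ⟨t1 + t2, b1 + b2, G1 ⊓ G2, B1 ⊓ B2, ?_, inf_le_left.trans hB1,
      fun g hg => ⟨hs1 g hg.1, hs2 g hg.2⟩, ?_, by omega⟩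
    · calc (G1 ⊓ G2).index ≤ G1.index * G2.index := Subgroup.index_inf_le
        _ ≤ 2 ^ t1 * 2 ^ t2 := Nat.mul_le_mul hG1 hG2
        _ = 2 ^ (t1 + t2) := (pow_add _ _ _).symm
    · have hfin : ∀ K L : Subgroup G, K.relIndex L ≠ 0 := fun K L => Subgroup.index_ne_zero_of_finite
      calc ρ.ker.relIndex (B1 ⊓ B2) ≤ (ρp.ker ⊓ ρm.ker).relIndex (B1 ⊓ B2) :=
            Subgroup.relIndex_le_of_le_left hker (hfin _ _)
        _ ≤ ρp.ker.relIndex (B1 ⊓ B2) * ρm.ker.relIndex (B1 ⊓ B2) := Subgroup.relIndex_inf_le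
        _ ≤ ρp.ker.relIndex B1 * ρm.ker.relIndex B2 := Nat.mul_le_mul
            (Subgroup.relIndex_le_of_le_right inf_le_left (hfin _ _))
            (Subgroup.relIndex_le_of_le_right inf_le_right (hfin _ _))
        _ ≤ 2 ^ b1 * 2 ^ b2 := Nat.mul_le_mul hk1 hk2
        _ = 2 ^ (b1 + b2) := (pow_add _ _ _).symm
  · push Not at hA
    have hpm : ∀ c ∈ C, ρ c = 1 ∨ ρ c = -1 := by
      intro c hc
      by_cases h1 : ρ c = 1
      · exact Or.inl h1
      · exact Or.inr (hA c hc h1)
    have hself : ∀ B' : Subgroup G, B' ≤ ρ.ker → ρ.ker.relIndex B' ≤ 2 ^ 0 := by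
      intro B' hB'
      rw [pow_zero, Subgroup.relIndex_eq_one.2 hB']
    by_cases h4 : 4 ≤ n
    · refine ⟨0, 1, ⊤, C, by simp, le_rfl, fun g _ => hC.sq g, ?_, by omega⟩
      have h1 : ρ.ker.relIndex C ∣ 2 := by
        rw [Subgroup.relIndex_dvd_two_iff]
        by_cases ha : ∃ a ∈ C, ρ a = -1
        · obtain ⟨a, haC, ha⟩ := ha
          refine ⟨a, haC, fun b hb => ?_⟩
          rcases hpm b hb with h | h
          · exact Or.inr h
          · left
            rw [MonoidHom.mem_ker, map_mul, ha, h]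
            simp
        · push Not at ha
          exact ⟨1, C.one_mem, fun b hb => Or.inr ((hpm b hb).resolve_right (ha b hb))⟩
      exact Nat.le_of_dvd (by norm_num) h1
    · by_cases h0 : n = 0
      · subst h0
        have : Subsingleton V := Module.finrank_zero_iff.1 hn
        have hk : ∀ g, ρ g = 1 := fun g => Subsingleton.elim _ _
        exact ⟨0, 0, ⊤, C, by simp, le_rfl, fun g _ => hC.sq g, hself _ (fun g _ => hk g), by omega⟩
      by_cases h2 : n = 2
      · subst h2
        obtain ⟨G', hG1, hG2⟩ := dim_two hC ρ hn hpm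
        exact ⟨1, 0, G', C ⊓ ρ.ker, by simpa using hG1, inf_le_left,
          fun g hg => ⟨hC.sq g, hG2 g hg⟩, hself _ inf_le_right, by omega⟩
      · have hodd : Odd n := by
          have : n = 1 ∨ n = 3 := by omega
          rcases this with rfl | rfl
          · exact ⟨0, by norm_num⟩
          · exact ⟨1, by norm_num⟩
        refine ⟨0, 0, ⊤, C ⊓ ρ.ker, by simp, inf_le_left, fun g _ => ⟨hC.sq g, ?_⟩,
          hself _ inf_le_right, by omega⟩
        show ρ (g * g) = 1
        refine (hpm _ (hC.sq g)).resolve_right (fun h => ?_)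
        have h5 : LinearMap.det (ρ g) * LinearMap.det (ρ g) = -1 := by
          rw [← map_mul, ← map_mul, h]
          have h2 : (-1 : V →ₗ[ℝ] V) = (-1 : ℝ) • (1 : V →ₗ[ℝ] V) := by ext v; simp
          rw [h2, LinearMap.det_smul, hn]
          simp [hodd.neg_one_pow]
        nlinarith [mul_self_nonneg (LinearMap.det (ρ g))]

end grp

end Pool.Agent.H185.ZM
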