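import Mathlib

/-!
# Normal subgroups of `SL_n(R)` and elementary matrices
-/

set_option autoImplicit false

namespace Pool.Agent.H185.ZM

open Matrix

section elem

variable {n : ℕ} {R : Type} [CommRing R]

/-- the elementary matrix -/
abbrev el {i j : Fin n} (h : i ≠ j) (r : R) : Matrix.SpecialLinearGroup (Fin n) R :=
  Matrix.SpecialLinearGroup.transvection h r

lemma el_coe {i j : Fin n} (h : i ≠ j) (r : R) :
    ((el h r : Matrix.SpecialLinearGroup (Fin n) R) : Matrix (Fin n) (Fin n) R) = 1 + single i j r := rfl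

lemma el_add {i j : Fin n} (h : i ≠ j) (r s : R) : el h (r + s) = el h r * el h s :=
  Matrix.SpecialLinearGroup.transvection_add h r s

lemma el_zero {i j : Fin n} (h : i ≠ j) : el h (0 : R) = 1 :=
  Matrix.SpecialLinearGroup.transvection_coeff_zero h

lemma el_inv {i j : Fin n} (h : i ≠ j) (r : R) : (el h r)⁻¹ = el h (-r) :=
  Matrix.SpecialLinearGroup.transvection_inv h r

/-- `e_ij(a) e_jl(b) = e_il(ab) e_jl(b) e_ij(a)` -/
lemma el_comm {i j l : Fin n} (hij : i ≠ j) (hjl : j ≠ l) (hil : i ≠ l) (a b : R) :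
    el hij a * el hjl b = el hil (a * b) * (el hjl b * el hij a) := by
  apply Subtype.ext
  simp only [Matrix.SpecialLinearGroup.coe_mul, el_coe]
  simp [mul_add, add_mul, hjl.symm, hil.symm]
  abel

lemma el_commute {i j k l : Fin n} (hij : i ≠ j) (hkl : k ≠ l) (hjk : j ≠ k) (hil : i ≠ l)
    (a b : R) : el hij a * el hkl b = el hkl b * el hij a := by
  apply Subtype.ext
  simp only [Matrix.SpecialLinearGroup.coe_mul, el_coe]
  simp [mul_add, add_mul, hjk, hil.symm]
  abel

/-- diagonal conjugation -/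
lemma diag_el {i j : Fin n} (h : i ≠ j) (r c : R) (D : Matrix.SpecialLinearGroup (Fin n) R)
    (d : Fin n → R) (hD : (D : Matrix (Fin n) (Fin n) R) = diagonal d) (hc : d i = c * d j) :
    D * el h r * D⁻¹ = el h (c * r) := by
  rw [mul_inv_eq_iff_eq_mul]
  apply Subtype.ext
  simp only [Matrix.SpecialLinearGroup.coe_mul, el_coe]
  rw [hD, mul_add, add_mul, mul_one, one_mul]
  congr 1
  ext a b
  rw [diagonal_mul, mul_diagonal, single_apply, single_apply]
  by_cases h1 : i = a ∧ j = b
  · rw [if_pos h1, if_pos h1, ← h1.1, ← h1.2, hc]; ring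
  · rw [if_neg h1, if_neg h1]; ring

variable (N : Subgroup (Matrix.SpecialLinearGroup (Fin n) R)) [hN : N.Normal]

include hN in
lemma comm_mem {x y : Matrix.SpecialLinearGroup (Fin n) R} (hx : x ∈ N) : x * y * x⁻¹ * y⁻¹ ∈ N := by
  have h1 := N.mul_mem hx (hN.conj_mem _ (N.inv_mem hx) y)
  rwa [← mul_assoc, ← mul_assoc] at h1

include hN in
lemma comm_mem' {x y : Matrix.SpecialLinearGroup (Fin n) R} (hy : y ∈ N) : x * y * x⁻¹ * y⁻¹ ∈ N :=
  N.mul_mem (hN.conj_mem _ hy x) (N.inv_mem hy)

lemma el_comm_eq {i j l : Fin n} (hij : i ≠ j) (hjl : j ≠ l) (hil : i ≠ l) (a b : R) :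
    el hij a * el hjl b * (el hij a)⁻¹ * (el hjl b)⁻¹ = el hil (a * b) := by
  rw [el_comm hij hjl hil]
  group

include hN in
lemma mem_right {i j l : Fin n} (hij : i ≠ j) (hjl : j ≠ l) (hil : i ≠ l) {a : R} (b : R)
    (h : el hij a ∈ N) : el hil (a * b) ∈ N := by
  rw [← el_comm_eq hij hjl hil a b]
  exact comm_mem N h

include hN in
lemma mem_left {i j l : Fin n} (hij : i ≠ j) (hjl : j ≠ l) (hil : i ≠ l) (a : R) {b : R}
    (h : el hjl b ∈ N) : el hil (a * b) ∈ N := by
  rw [← el_comm_eq hij hjl hil a b]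
  exact comm_mem' N h

include hN in
/-- one elementary matrix in a normal subgroup gives all -/
theorem all_mem (hn : 3 ≤ n) {i j : Fin n} (hij : i ≠ j) {c : R} (h : el hij c ∈ N) :
    ∀ (k l : Fin n) (hkl : k ≠ l) (b : R), el hkl (c * b) ∈ N := by
  -- row i
  have third : ∀ a b : Fin n, ∃ m, m ≠ a ∧ m ≠ b := by
    intro a b
    have h1 : ({a, b} : Finset (Fin n)).card < Fintype.card (Fin n) := by
      rw [Fintype.card_fin]
      exact lt_of_le_of_lt Finset.card_le_two (by omega)
    obtain ⟨m, hm⟩ := Finset.exists_mem_notMem_of_card_lt_card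
      (s := {a, b}) (t := Finset.univ) (by simpa using h1)
    have h2 := hm.2
    simp only [Finset.mem_insert, Finset.mem_singleton, not_or] at h2
    exact ⟨m, h2⟩
  have r1 : ∀ (l : Fin n) (hil : i ≠ l) (b : R), l ≠ j → el hil (c * b) ∈ N := by
    intro l hil b hlj
    exact mem_right N hij (Ne.symm hlj) hil b h
  have r2 : ∀ (l : Fin n) (hil : i ≠ l) (b : R), el hil (c * b) ∈ N := by
    intro l hil b
    by_cases hlj : l = j
    · subst hlj
      obtain ⟨m, hm1, hm2⟩ := third i l
      have h1 := r1 m (Ne.symm hm1) b hm2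
      have h2 := mem_right N (Ne.symm hm1) hm2 hil 1 h1
      rwa [mul_one] at h2
    · exact r1 l hil b hlj
  have r3 : ∀ (k l : Fin n) (hkl : k ≠ l) (b : R), l ≠ i → el hkl (c * b) ∈ N := by
    intro k l hkl b hli
    by_cases hki : k = i
    · subst hki; exact r2 l hkl b
    · have h1 := mem_left N hki (Ne.symm hli) hkl 1 (r2 l (Ne.symm hli) b)
      rwa [one_mul] at h1
  intro k l hkl b
  by_cases hli : l = i
  · subst hli
    obtain ⟨m, hm1, hm2⟩ := third k l
    have h1 := mem_right N (Ne.symm hm1) hm2 hkl 1 (r3 k m (Ne.symm hm1) b hm2)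
    rwa [mul_one] at h1
  · exact r3 k l hkl b hli

include hN in
/-- the ideal of a normal subgroup -/
def idealOf (hn : 3 ≤ n) : Ideal R where
  carrier := {c | ∀ (k l : Fin n) (hkl : k ≠ l), el hkl c ∈ N}
  zero_mem' := fun k l hkl => by rw [el_zero]; exact N.one_mem
  add_mem' := fun {a b} ha hb k l hkl => by
    rw [el_add]; exact N.mul_mem (ha k l hkl) (hb k l hkl)
  smul_mem' := fun b c hc k l hkl => by
    have h1 := all_mem N hn hkl (hc k l hkl) k l hkl b
    rwa [smul_eq_mul, mul_comm]

include hN in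
theorem mem_idealOf (hn : 3 ≤ n) {i j : Fin n} (hij : i ≠ j) {c : R} (h : el hij c ∈ N) :
    c ∈ idealOf N hn := fun k l hkl => by
  have := all_mem N hn hij h k l hkl 1
  rwa [mul_one] at this

include hN in
/-- a diagonal matrix with different entries -/
theorem mem_idealOf_diag (hn : 3 ≤ n) {i j : Fin n} (hij : i ≠ j)
    {D : Matrix.SpecialLinearGroup (Fin n) R} (hD : D ∈ N) (d : Fin n → R)
    (hDd : (D : Matrix (Fin n) (Fin n) R) = diagonal d) (c : R) (hc : d i = c * d j) :
    c - 1 ∈ idealOf N hn := by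
  apply mem_idealOf N hn hij
  have h1 := comm_mem N hD (y := el hij (1 : R))
  rw [diag_el hij 1 c D d hDd hc, el_inv, ← el_add, mul_one, ← sub_eq_add_neg] at h1
  exact h1

end elem

section row

variable {k : ℕ} {R : Type} [CommRing R]

/-- the matrix with first row `(1, v)` -/
def rowM (v : Fin k → R) : Matrix (Fin (k + 1)) (Fin (k + 1)) R :=
  1 + vecMulVec (Pi.single 0 1) (Fin.cons 0 v)

lemma rowM_mul (v w : Fin k → R) : rowM v * rowM w = rowM (v + w) := by
  unfold rowM
  rw [add_mul, mul_add, one_mul, mul_add, mul_one, one_mul, vecMulVec_mul_vecMulVec]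
  have h1 : (Fin.cons (0 : R) v : Fin (k + 1) → R) ⬝ᵥ (Pi.single 0 1) = 0 := by
    rw [dotProduct_single]; simp
  have h2 : (Fin.cons (0 : R) (v + w) : Fin (k + 1) → R) = Fin.cons 0 v + Fin.cons 0 w := by
    funext i
    refine Fin.cases ?_ (fun i => ?_) i
    · simp
    · simp
  rw [h1, h2, vecMulVec_add]
  simp
  abel

lemma det_rowM (v : Fin k → R) : (rowM v).det = 1 := by
  unfold rowM
  have h1 : vecMulVec (Pi.single (0 : Fin (k + 1)) (1 : R)) (Fin.cons 0 v) =
      replicateCol Unit (Pi.single (0 : Fin (k + 1)) (1 : R)) *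
        replicateRow Unit (Fin.cons 0 v : Fin (k + 1) → R) := by
    ext i j
    simp [vecMulVec_apply, Matrix.mul_apply]
  rw [h1, det_one_add_replicateCol_mul_replicateRow, dotProduct_single]
  simp

/-- the row matrices as elements of `SL` -/
def row (v : Fin k → R) : Matrix.SpecialLinearGroup (Fin (k + 1)) R := ⟨rowM v, det_rowM v⟩

lemma row_add (v w : Fin k → R) : row (v + w) = row v * row w :=
  Subtype.ext (rowM_mul v w).symm

lemma row_zero : row (0 : Fin k → R) = 1 := by
  have h := row_add (0 : Fin k → R) 0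
  rw [add_zero] at h
  exact (mul_eq_left.1 h.symm)

/-- `[row v, e_{l j}(1)] = e_{0 j}(v_l)` -/
lemma row_comm (v : Fin k → R) {l j : Fin k} (h : l.succ ≠ j.succ) (h0 : (0 : Fin (k + 1)) ≠ j.succ) :
    row v * el h (1 : R) = el h0 (v l) * (el h 1 * row v) := by
  apply Subtype.ext
  simp only [Matrix.SpecialLinearGroup.coe_mul, el_coe]
  show rowM v * _ = _ * (_ * rowM v)
  unfold rowM
  have e1 : (vecMulVec (Pi.single (0 : Fin (k + 1)) (1 : R)) (Fin.cons 0 v)) *
      single l.succ j.succ (1 : R) = single 0 j.succ (v l) := by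
    ext a b
    rw [Matrix.mul_apply, Finset.sum_eq_single l.succ]
    · rw [vecMulVec_apply, single_apply, single_apply]
      by_cases ha : a = 0
      · subst ha
        by_cases hb : j.succ = b
        · rw [if_pos ⟨rfl, hb⟩, if_pos ⟨rfl, hb⟩]; simp
        · rw [if_neg (fun h => hb h.2), if_neg (fun h => hb h.2)]; simp
      · rw [Pi.single_eq_of_ne ha, if_neg (c := (0 : Fin (k + 1)) = a ∧ j.succ = b)
          (fun h => ha h.1.symm)]; simp
    · intro c _ hc
      rw [single_apply, if_neg (fun h => hc h.1.symm), mul_zero]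
    · intro h; exact absurd (Finset.mem_univ _) h
  have e2 : single l.succ j.succ (1 : R) *
      (vecMulVec (Pi.single (0 : Fin (k + 1)) (1 : R)) (Fin.cons 0 v)) = 0 := by
    ext a b
    rw [Matrix.mul_apply, Finset.sum_eq_zero]
    · rfl
    intro c _
    rw [single_apply, vecMulVec_apply]
    by_cases hc : j.succ = c
    · rw [← hc, Pi.single_eq_of_ne h0.symm]; simp
    · rw [if_neg (fun h => hc h.2)]; simp
  have e3 : single (0 : Fin (k + 1)) j.succ (v l) *
      (vecMulVec (Pi.single (0 : Fin (k + 1)) (1 : R)) (Fin.cons 0 v)) = 0 := by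
    ext a b
    rw [Matrix.mul_apply, Finset.sum_eq_zero]
    · rfl
    intro c _
    rw [single_apply, vecMulVec_apply]
    by_cases hc : j.succ = c
    · rw [← hc, Pi.single_eq_of_ne h0.symm]; simp
    · rw [if_neg (fun h => hc h.2)]; simp
  have e4 : single (0 : Fin (k + 1)) j.succ (v l) * single l.succ j.succ (1 : R) = 0 := by
    rw [single_mul_single_of_ne _ _ _ _ h.symm]
  simp only [mul_add, add_mul, mul_one, one_mul, e1, e2, e3, e4]
  simp
  abel

theorem row_mem_ideal (hk : 2 ≤ k) (N : Subgroup (Matrix.SpecialLinearGroup (Fin (k + 1)) R))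
    [hN : N.Normal] (v : Fin k → R) (hv : row v ∈ N) (l : Fin k) :
    v l ∈ idealOf N (by omega) := by
  obtain ⟨j, hj⟩ : ∃ j : Fin k, j ≠ l := by
    by_cases hl : l = ⟨0, by omega⟩
    · exact ⟨⟨1, by omega⟩, by rw [hl]; simp⟩
    · exact ⟨⟨0, by omega⟩, fun h => hl h.symm⟩
  have h0 : (0 : Fin (k + 1)) ≠ j.succ := (Fin.succ_ne_zero j).symm
  have h1 : l.succ ≠ j.succ := fun h => hj (Fin.succ_injective _ h).symm
  apply mem_idealOf N (by omega) h0
  have h2 := comm_mem N hv (y := el h1 (1 : R))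
  rw [row_comm v h1 h0] at h2
  have h3 : el h0 (v l) * (el h1 (1 : R) * row v) * (row v)⁻¹ * (el h1 (1 : R))⁻¹ = el h0 (v l) := by
    group
  rwa [h3] at h2

lemma row_single (j : Fin k) (c : R) :
    row (Pi.single j c : Fin k → R) = el (Fin.succ_ne_zero j).symm c := by
  apply Subtype.ext
  show rowM _ = _
  rw [el_coe]
  unfold rowM
  congr 1
  ext a b
  rw [vecMulVec_apply, single_apply]
  refine Fin.cases ?_ (fun b => ?_) b
  · rw [Fin.cons_zero, mul_zero, if_neg (fun h => Fin.succ_ne_zero j h.2)]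
  · rw [Fin.cons_succ]
    by_cases ha : a = 0
    · subst ha
      by_cases hb : j = b
      · subst hb; simp
      · rw [Pi.single_eq_of_ne (Ne.symm hb), mul_zero,
          if_neg (fun h => hb (Fin.succ_injective _ h.2))]
    · rw [Pi.single_eq_of_ne ha, zero_mul, if_neg (c := (0 : Fin (k + 1)) = a ∧ j.succ = b.succ)
        (fun h => ha h.1.symm)]

theorem row_mem (hn : 3 ≤ k + 1) (N : Subgroup (Matrix.SpecialLinearGroup (Fin (k + 1)) R))
    [hN : N.Normal] (v : Fin k → R) (hv : ∀ l, v l ∈ idealOf N hn) : row v ∈ N := by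
  rw [← Finset.univ_sum_single v]
  refine Finset.sum_induction _ (fun v => row v ∈ N) (fun a b ha hb => ?_) ?_ ?_
  · rw [row_add]; exact N.mul_mem ha hb
  · rw [row_zero]; exact N.one_mem
  · intro l _
    rw [row_single]
    exact hv l 0 l.succ _

end row

/-- the braid relation -/
lemma el_braid {n : ℕ} {R : Type} [CommRing R] {i j : Fin n} (h : i ≠ j) :
    el h (1 : R) * el h.symm (-1) * el h 1 = el h.symm (-1) * el h 1 * el h.symm (-1) := by
  apply Subtype.ext
  simp only [Matrix.SpecialLinearGroup.coe_mul, el_coe]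
  have e1 : single i j (1 : R) * single j i (-1) = single i i (-1) := by simp
  have e2 : single j i (-1 : R) * single i j 1 = single j j (-1) := by simp
  have e3 : single i i (-1 : R) * single i j 1 = single i j (-1) := by simp
  have e4 : single j j (-1 : R) * single j i (-1) = single j i 1 := by simp
  have e5 : single i j (1 : R) * single i j 1 = 0 := single_mul_single_of_ne _ _ _ _ h.symm _
  have e6 : single j i (-1 : R) * single j i (-1) = 0 := single_mul_single_of_ne _ _ _ _ h _
  have e7 : single i j (-1 : R) = - single i j 1 := by rw [← single_neg]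
  have e8 : single j i (1 : R) = - single j i (-1) := by rw [← single_neg, neg_neg]
  simp only [mul_add, add_mul, mul_one, one_mul, e1, e2, e5, e6, e3, e4, add_zero]
  rw [e7, e8]
  abel


end Pool.Agent.H185.ZM
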